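import Pool.Agent.Helper253.Sad.Window

namespace Pool.Agent.Helper253.Sad

open Metric Set Topology Complex
open scoped ComplexConjugate

/-- compact family of windows -/
def Kp : Set (ℂ × ℂ × ℂ × ℂ) := {p | ‖p.1‖ = 1 ∧ ‖p.2.1 - 1 / 4‖ ≤ 1 / 80 ∧ ‖p.2.2.1‖ = 1 ∧
  (p.2.2.2 = I * p.2.2.1 ∨ p.2.2.2 = -(I * p.2.2.1))}

lemma Kp.norm_d {p : ℂ × ℂ × ℂ × ℂ} (hp : p ∈ Kp) : ‖p.2.2.2‖ = 1 := by
  rcases hp.2.2.2 with h | h <;> rw [h] <;> simp [hp.2.2.1]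

lemma isCompact_Kp : IsCompact Kp := by
  have hK : IsCompact (closedBall (0 : ℂ) 1 ×ˢ closedBall (1 / 4 : ℂ) (1 / 80) ×ˢ
      closedBall (0 : ℂ) 1 ×ˢ closedBall (0 : ℂ) 1) :=
    (isCompact_closedBall _ _).prod ((isCompact_closedBall _ _).prod
      ((isCompact_closedBall _ _).prod (isCompact_closedBall _ _)))
  refine hK.of_isClosed_subset ?_ ?_
  · have h1 : IsClosed {p : ℂ × ℂ × ℂ × ℂ | ‖p.1‖ = 1} := isClosed_eq (by fun_prop) (by fun_prop)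
    have h2 : IsClosed {p : ℂ × ℂ × ℂ × ℂ | ‖p.2.1 - 1 / 4‖ ≤ 1 / 80} :=
      isClosed_le (by fun_prop) (by fun_prop)
    have h3 : IsClosed {p : ℂ × ℂ × ℂ × ℂ | ‖p.2.2.1‖ = 1} :=
      isClosed_eq (by fun_prop) (by fun_prop)
    have h4 : IsClosed {p : ℂ × ℂ × ℂ × ℂ | p.2.2.2 = I * p.2.2.1} :=
      isClosed_eq (by fun_prop) (by fun_prop)
    have h5 : IsClosed {p : ℂ × ℂ × ℂ × ℂ | p.2.2.2 = -(I * p.2.2.1)} :=
      isClosed_eq (by fun_prop) (by fun_prop)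
    exact h1.inter (h2.inter (h3.inter (h4.union h5)))
  · intro p hp
    refine ⟨?_, ?_, ?_, ?_⟩
    · simp [hp.1]
    · simpa [dist_eq_norm] using hp.2.1
    · simp [hp.2.2.1]
    · simp [Kp.norm_d hp]

lemma WM_near {wc ω d x : ℂ} {η : ℝ} (hwc : ‖wc - 1 / 4‖ ≤ 1 / 80) (hω : ‖ω‖ = 1) (hd : ‖d‖ = 1)
    (hη : η ≤ 1 / 80) (hx : x ∈ Rect η (3 / 80) (7 / 80)) : ‖WM wc ω d x - 1 / 4‖ < 1 / 8 := by
  have e : WM wc ω d x - 1 / 4 = (wc - 1 / 4) + (ω * (x.re : ℂ) + d * (x.im : ℂ)) := by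
    unfold WM; ring
  rw [e]
  have h1 : ‖ω * (x.re : ℂ)‖ ≤ 1 / 80 := by
    rw [norm_mul, hω, Complex.norm_real, Real.norm_eq_abs, one_mul]; exact hx.1.trans hη
  have h2 : ‖d * (x.im : ℂ)‖ ≤ 7 / 80 := by
    rw [norm_mul, hd, Complex.norm_real, Real.norm_eq_abs, one_mul,
      abs_of_pos (by linarith [hx.2.1])]
    exact hx.2.2
  have h3 := norm_add_le (wc - 1 / 4) (ω * (x.re : ℂ) + d * (x.im : ℂ))
  have h4 := norm_add_le (ω * (x.re : ℂ)) (d * (x.im : ℂ))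
  linarith

lemma continuousAt_hh {q : ℂ × ℂ} (hq : q.2 ∈ slitPlane) :
    ContinuousAt (fun q : ℂ × ℂ => hh q.1 q.2) q := by
  have h1 : ContinuousAt (fun q : ℂ × ℂ => csq q.2) q :=
    (continuousAt_csq hq).comp (f := fun q : ℂ × ℂ => q.2) continuousAt_snd
  have h2 : ContinuousAt (fun q : ℂ × ℂ => q.1 * csq q.2) q := continuousAt_fst.mul h1
  exact Complex.continuous_re.continuousAt.comp ((h2.pow 3).add (h2.pow 4))

/-- the model bulge function -/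
noncomputable def Gam (e A B : ℝ) (wc0 d0 : ℂ) (p : ℂ × ℂ × ℂ × ℂ) (x : ℂ) : ℝ :=
  e * (hh p.1 (WM p.2.1 p.2.2.1 p.2.2.2 x) - A -
    B * (conj d0 * (WM p.2.1 p.2.2.1 p.2.2.2 x - wc0)).re)

lemma continuousAt_Gam (e A B : ℝ) (wc0 d0 : ℂ) {p : ℂ × ℂ × ℂ × ℂ} {x : ℂ}
    (hx : WM p.2.1 p.2.2.1 p.2.2.2 x ∈ slitPlane) :
    ContinuousAt (fun z : (ℂ × ℂ × ℂ × ℂ) × ℂ => Gam e A B wc0 d0 z.1 z.2) (p, x) := by
  have hW : Continuous (fun z : (ℂ × ℂ × ℂ × ℂ) × ℂ => WM z.1.2.1 z.1.2.2.1 z.1.2.2.2 z.2) := by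
    unfold WM; fun_prop
  have h1 : ContinuousAt (fun z : (ℂ × ℂ × ℂ × ℂ) × ℂ =>
      hh z.1.1 (WM z.1.2.1 z.1.2.2.1 z.1.2.2.2 z.2)) (p, x) := by
    have h2 : ContinuousAt (fun z : (ℂ × ℂ × ℂ × ℂ) × ℂ =>
        (z.1.1, WM z.1.2.1 z.1.2.2.1 z.1.2.2.2 z.2)) (p, x) := by
      refine ContinuousAt.prodMk (by fun_prop) hW.continuousAt
    exact ContinuousAt.comp (g := fun q : ℂ × ℂ => hh q.1 q.2)
      (f := fun z : (ℂ × ℂ × ℂ × ℂ) × ℂ => (z.1.1, WM z.1.2.1 z.1.2.2.1 z.1.2.2.2 z.2))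
      (continuousAt_hh (q := (p.1, WM p.2.1 p.2.2.1 p.2.2.2 x)) hx) h2
  unfold Gam
  refine continuousAt_const.mul ((h1.sub continuousAt_const).sub (continuousAt_const.mul ?_))
  refine Complex.continuous_re.continuousAt.comp ?_
  exact continuousAt_const.mul (hW.continuousAt.sub continuousAt_const)

lemma fn_comb (e A B lam : ℝ) (wc0 d0 a : ℂ) (b c : ℝ) (y : ℂ × ℝ) :
    fn (-((e * B : ℝ) : ℂ) * conj d0 + (lam : ℂ) * a) (e + lam * b)
      (-(e * A) + e * B * (conj d0 * wc0).re + lam * c) y =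
    e * (y.2 - A - B * (conj d0 * (y.1 - wc0)).re) + lam * fn a b c y := by
  unfold fn
  have h1 : ((-((e * B : ℝ) : ℂ) * conj d0 + (lam : ℂ) * a) * y.1).re =
      -(e * B) * (conj d0 * y.1).re + lam * (a * y.1).re := by
    have : (-((e * B : ℝ) : ℂ) * conj d0 + (lam : ℂ) * a) * y.1 =
        ((-(e * B) : ℝ) : ℂ) * (conj d0 * y.1) + ((lam : ℝ) : ℂ) * (a * y.1) := by
      push_cast; ring
    rw [this, Complex.add_re, Complex.re_ofReal_mul, Complex.re_ofReal_mul]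
  have h2 : (conj d0 * (y.1 - wc0)).re = (conj d0 * y.1).re - (conj d0 * wc0).re := by
    rw [mul_sub, Complex.sub_re]
  rw [h1, h2]; ring

lemma winOK_core {κ wc ω d wc0 d0 : ℂ} {δ η γ lam B0 e A B τm : ℝ} {Γ0 : ℂ → ℝ}
    (hwc : ‖wc - 1 / 4‖ ≤ 1 / 80) (hω : ‖ω‖ = 1) (hdd : d = I * ω ∨ d = -(I * ω))
    (hd0 : ‖d0‖ = 1) (hz0 : 0 < δ) (hδη : δ < η / 8) (hη1 : η ≤ 1 / 80)
    (hτm : τm ∈ Ioo (3 / 80 : ℝ) (7 / 80)) (hlampos : 0 < lam)
    (hpn : ∀ x ∈ Rect η (3 / 80) (7 / 80), |Gam e A B wc0 d0 (κ, wc, ω, d) x - Γ0 x| < γ / 16)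
    (hB0 : ∀ x ∈ Rect η (3 / 80) (7 / 80), Γ0 x ≤ B0)
    (hη : ∀ a : ℝ, |a| ≤ η → Γ0 ⟨a, 3 / 80⟩ < γ / 4 ∧ Γ0 ⟨a, 7 / 80⟩ < γ / 4 ∧
      3 * γ / 4 < Γ0 ⟨a, τm⟩)
    (hδe : (|e| * (1 + |B|) + 1) * δ ≤ γ / 16)
    (hl1 : B0 + γ / 8 - lam * (η - 2 * δ) < 5 * γ / 8) (hl2 : lam * δ < γ / 32) :
    WinOK δ κ wc ω d := by
  have hd : ‖d‖ = 1 := by rcases hdd with h | h <;> rw [h] <;> simp [hω]
  intro Y hYc hYs hYcl a b c hF x0 x1 hj hx0 hx1
  set R := Rect η (3 / 80) (7 / 80) with hR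
  -- window map facts
  have hWMD : ∀ x ∈ R, WM wc ω d x ∈ ball (1 / 4 : ℂ) (1 / 8) := by
    intro x hx
    rw [mem_ball, dist_eq_norm]
    exact WM_near hwc hω hd hη1 hx
  have hWMDD : ∀ x ∈ R, WM wc ω d x ∈ DD := fun x hx => ball_subset_closedBall (hWMD x hx)
  have hYW : ContinuousOn (fun x => Y (WM wc ω d x)) R :=
    hYc.comp (continuous_WM _ _ _).continuousOn hWMDD
  have hYW1 : ContinuousOn (fun x => (Y (WM wc ω d x)).1) R := continuous_fst.comp_continuousOn hYW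
  have hYW2 : ContinuousOn (fun x => (Y (WM wc ω d x)).2) R := continuous_snd.comp_continuousOn hYW
  let G : ℂ → ℝ := fun x => e * ((Y (WM wc ω d x)).2 - A -
    B * (conj d0 * ((Y (WM wc ω d x)).1 - wc0)).re)
  have hGc : ContinuousOn G R :=
    continuousOn_const.mul ((hYW2.sub continuousOn_const).sub (continuousOn_const.mul
      (Complex.continuous_re.comp_continuousOn (continuousOn_const.mul
        (hYW1.sub continuousOn_const)))))
  have hGclose : ∀ x ∈ R, |G x - Γ0 x| ≤ γ / 8 := by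
    intro x hx
    have h1 := hpn x hx
    obtain ⟨h2, h3⟩ := hYcl _ (hWMDD x hx)
    have h4 : |G x - Gam e A B wc0 d0 (κ, wc, ω, d) x| ≤ γ / 16 := by
      have e1 : G x - Gam e A B wc0 d0 (κ, wc, ω, d) x =
          e * (((Y (WM wc ω d x)).2 - hh κ (WM wc ω d x)) -
          B * (conj d0 * ((Y (WM wc ω d x)).1 - WM wc ω d x)).re) := by
        simp only [G, Gam]
        have : (conj d0 * ((Y (WM wc ω d x)).1 - WM wc ω d x)).re =
            (conj d0 * ((Y (WM wc ω d x)).1 - wc0)).re - (conj d0 * (WM wc ω d x - wc0)).re := by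
          rw [← Complex.sub_re]; congr 1; ring
        rw [this]; ring
      rw [e1, abs_mul]
      have h5 : |(conj d0 * ((Y (WM wc ω d x)).1 - WM wc ω d x)).re| ≤ δ := by
        refine (Complex.abs_re_le_norm _).trans ?_
        rw [norm_mul, Complex.norm_conj, hd0, one_mul]; exact h2
      have h6 : |((Y (WM wc ω d x)).2 - hh κ (WM wc ω d x)) -
          B * (conj d0 * ((Y (WM wc ω d x)).1 - WM wc ω d x)).re| ≤ (1 + |B|) * δ := by
        refine (abs_sub _ _).trans ?_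
        rw [abs_mul]
        have := mul_le_mul_of_nonneg_left h5 (abs_nonneg B)
        linarith
      calc |e| * _ ≤ |e| * ((1 + |B|) * δ) := mul_le_mul_of_nonneg_left h6 (abs_nonneg e)
        _ = (|e| * (1 + |B|)) * δ := by ring
        _ ≤ (|e| * (1 + |B|) + 1) * δ := by nlinarith
        _ ≤ γ / 16 := hδe
    have h7 := abs_sub_le (G x) (Gam e A B wc0 d0 (κ, wc, ω, d) x) (Γ0 x)
    linarith
  have hFc : ContinuousOn (fun x => fn a b c (Y (WM wc ω d x))) R :=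
    ((Complex.continuous_re.comp_continuousOn (continuousOn_const.mul hYW1)).add
      (continuousOn_const.mul hYW2)).add continuousOn_const
  have hFre : ∀ x ∈ R, |fn a b c (Y (WM wc ω d x)) - x.re| ≤ δ := by
    intro x hx
    have h1 := hF _ (hWMDD x hx)
    have h2 : (conj ω * (WM wc ω d x - wc)).re = x.re := by
      have := congrArg Complex.re (WI_WM (wc := wc) hω hdd x)
      exact this
    rw [h2] at h1
    exact h1
  have hno : ∀ l : ℝ, NoMax (fun x => G x + l * fn a b c (Y (WM wc ω d x)))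
      (ORect η (3 / 80) (7 / 80)) := by
    intro l
    have h1 := hYs (-((e * B : ℝ) : ℂ) * conj d0 + (l : ℂ) * a) (e + l * b)
      (-(e * A) + e * B * (conj d0 * wc0).re + l * c)
    have h2 := h1.comp isOpen_ball (Φ := WM wc ω d) (Ψ := WI wc ω d)
      (O' := ORect η (3 / 80) (7 / 80)) (continuous_WM _ _ _).continuousOn
      (continuous_WI _ _ _).continuousOn (fun x hx => hWMD x (orect_subset _ _ _ hx))
      (fun x _ => WI_WM hω hdd x) (fun w _ _ => WM_WI hω hdd w)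
    have e1 : (fun x => G x + l * fn a b c (Y (WM wc ω d x))) = fun x =>
        fn (-((e * B : ℝ) : ℂ) * conj d0 + (l : ℂ) * a) (e + l * b)
          (-(e * A) + e * B * (conj d0 * wc0).re + l * c) (Y (WM wc ω d x)) := by
      funext x
      rw [fn_comb]
    rw [e1]; exact h2
  have hwin : Win η (2 * δ) lam (B0 + γ / 8) (3 * γ / 8) (5 * γ / 8) (3 / 80) τm (7 / 80)
      (fun x => fn a b c (Y (WM wc ω d x))) G :=
    { hF := hFc
      hG := hGc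
      hδ := by linarith
      hη := by linarith
      h1 := hτm.1
      h2 := hτm.2
      hFa := fun x hx => (hFre x hx).trans (by linarith)
      hB := fun x hx => by
        have h1 := (abs_le.1 (hGclose x hx)).2
        have h2 := hB0 x hx
        linarith
      hG1 := fun x hx hx2 => by
        have h1 := (abs_le.1 (hGclose x hx)).2
        have h2 := hη x.re hx.1
        rcases hx2 with h3 | h3
        · have h4 : x = ⟨x.re, 3 / 80⟩ := by apply Complex.ext <;> simp [h3]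
          have h5 := h2.1
          rw [← h4] at h5
          linarith
        · have h4 : x = ⟨x.re, 7 / 80⟩ := by apply Complex.ext <;> simp [h3]
          have h5 := h2.2.1
          rw [← h4] at h5
          linarith
      hG2 := fun x hx hx2 hx3 => by
        have h1 := (abs_le.1 (hGclose x hx)).1
        have h2 := (hη x.re hx.1).2.2
        have h4 : x = ⟨x.re, τm⟩ := by apply Complex.ext <;> simp [hx2]
        rw [← h4] at h2
        linarith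
      hlam := hlampos
      hl1 := hl1
      hl2 := by
        have := mul_pos hlampos hz0
        linarith
      nmL := hno lam
      nmR := by
        have := hno (-lam)
        simpa [sub_eq_add_neg] using this }
  -- extract the crossing part
  have hτlin : Continuous (fun w : ℂ => (conj d * (w - wc)).re) := by fun_prop
  obtain ⟨y1, y2, hj1, hy1, hy2, hj2⟩ := extract hτlin hj hx0 (by norm_num : (3 / 80 : ℝ) < 7 / 80) hx1
  have hmap : MapsTo (WI wc ω d) (((DD ∩ {w | 0 < fn a b c (Y w)}) ∩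
      {w | (conj ω * (w - wc)).re ≤ δ}) ∩
      {z | 3 / 80 ≤ (conj d * (z - wc)).re ∧ (conj d * (z - wc)).re ≤ 7 / 80})
      (R ∩ {x | 0 < fn a b c (Y (WM wc ω d x))}) := by
    rintro w ⟨⟨⟨hw1, hw2⟩, hw3⟩, hw4⟩
    have h5 := abs_le.1 (hF w hw1)
    have hw2' : 0 < fn a b c (Y w) := hw2
    have hw3' : (conj ω * (w - wc)).re ≤ δ := hw3
    refine ⟨⟨?_, hw4.1, hw4.2⟩, ?_⟩
    · show |(conj ω * (w - wc)).re| ≤ η
      rw [abs_le]; constructor <;> linarith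
    · show 0 < fn a b c (Y (WM wc ω d (WI wc ω d w)))
      rw [WM_WI hω hdd]; exact hw2
  have hj3 : JoinedIn (R ∩ {x | 0 < fn a b c (Y (WM wc ω d x))}) (WI wc ω d y1) (WI wc ω d y2) :=
    (hj2.map_continuousOn ((continuous_WI wc ω d).continuousOn)).mono hmap.image_subset
  have hj4 := hwin.join (fun x hx => by have := hFre x hx; linarith) hj3 hy1 hy2
  have hmap2 : MapsTo (WM wc ω d) (R ∩ {x | 0 < fn a b c (Y (WM wc ω d x))})
      (DD ∩ {w | 0 < fn a b c (Y w)}) := fun x hx => ⟨hWMDD x hx.1, hx.2⟩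
  have hj5 : JoinedIn (DD ∩ {w | 0 < fn a b c (Y w)}) (WM wc ω d (WI wc ω d y1))
      (WM wc ω d ⟨η, 3 / 80⟩) :=
    (hj4.map_continuousOn ((continuous_WM wc ω d).continuousOn)).mono hmap2.image_subset
  rw [WM_WI hω hdd] at hj5
  refine ⟨WM wc ω d ⟨η, 3 / 80⟩, hj5.mem.2.1, ?_, (hj1.mono inter_subset_left).trans hj5⟩
  have h2 : (conj ω * (WM wc ω d ⟨η, 3 / 80⟩ - wc)).re = η :=
    congrArg Complex.re (WI_WM (wc := wc) hω hdd ⟨η, 3 / 80⟩)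
  rw [h2]; linarith

lemma winOK_local {p0 : ℂ × ℂ × ℂ × ℂ} (hp0 : p0 ∈ Kp) :
    ∀ᶠ z : ℝ × (ℂ × ℂ × ℂ × ℂ) in 𝓝 ((0 : ℝ), p0),
      0 < z.1 → z.2 ∈ Kp → WinOK z.1 z.2.1 z.2.2.1 z.2.2.2.1 z.2.2.2.2 := by
  obtain ⟨κ0, wc0, ω0, d0⟩ := p0
  have hκ0 : ‖κ0‖ = 1 := hp0.1
  have hwc0 : ‖wc0 - 1 / 4‖ ≤ 1 / 80 := hp0.2.1
  have hω0 : ‖ω0‖ = 1 := hp0.2.2.1
  have hd0 : ‖d0‖ = 1 := Kp.norm_d hp0
  set u : ℝ → ℝ := fun τ => hh κ0 (wc0 + d0 * τ) with hu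
  set B : ℝ := (u (7 / 80) - u (3 / 80)) * 20 with hB
  set A : ℝ := u (3 / 80) - B * (3 / 80) with hA
  obtain ⟨τm, hτm, hne⟩ := not_affine hκ0 hd0 hwc0 A B
  set e : ℝ := u τm - (A + B * τm) with he
  have he0 : e ≠ 0 := sub_ne_zero.2 hne
  set γ : ℝ := e ^ 2 with hγ
  have hγpos : 0 < γ := by positivity
  set Γ := Gam e A B wc0 d0 with hΓ
  have hline : ∀ τ : ℝ, Γ (κ0, wc0, ω0, d0) ⟨0, τ⟩ = e * (u τ - A - B * τ) := by
    intro τ
    have h1 : WM wc0 ω0 d0 ⟨0, τ⟩ = wc0 + d0 * τ := by simp [WM]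
    have h2 : (conj d0 * (wc0 + d0 * τ - wc0)).re = τ := by
      have : conj d0 * (wc0 + d0 * τ - wc0) = (τ : ℂ) := by
        linear_combination (τ : ℂ) * cj_mul_self hd0
      rw [this]; simp
    simp only [hΓ, Gam, h1, h2, hu]
  -- continuity in the window
  have hslit : ∀ p ∈ Kp, ∀ η ≤ (1 / 80 : ℝ), ∀ x ∈ Rect η (3 / 80) (7 / 80),
      WM p.2.1 p.2.2.1 p.2.2.2 x ∈ slitPlane := by
    intro p hp η hη x hx
    exact slit_of_near ((WM_near hp.2.1 hp.2.2.1 (Kp.norm_d hp) hη hx).trans (by norm_num))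
  have hcont0 : ∀ τ ∈ Icc (3 / 80 : ℝ) (7 / 80),
      ContinuousAt (fun a : ℝ => Γ (κ0, wc0, ω0, d0) ⟨a, τ⟩) 0 := by
    intro τ hτ
    have h1 : WM wc0 ω0 d0 ⟨0, τ⟩ ∈ slitPlane := hslit _ hp0 (1 / 80) le_rfl ⟨0, τ⟩
      ⟨by norm_num, hτ.1, hτ.2⟩
    have h2 := continuousAt_Gam e A B wc0 d0 (p := (κ0, wc0, ω0, d0)) (x := ⟨0, τ⟩) h1
    have h3 : ContinuousAt (fun a : ℝ => (((κ0, wc0, ω0, d0) : ℂ × ℂ × ℂ × ℂ), (⟨a, τ⟩ : ℂ))) 0 := by
      refine ContinuousAt.prodMk continuousAt_const ?_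
      have : (fun a : ℝ => (⟨a, τ⟩ : ℂ)) = fun a : ℝ => (a : ℂ) + (τ : ℂ) * I := by
        funext a; apply Complex.ext <;> simp
      rw [this]; fun_prop
    exact ContinuousAt.comp (g := fun z : (ℂ × ℂ × ℂ × ℂ) × ℂ => Gam e A B wc0 d0 z.1 z.2)
      (f := fun a : ℝ => (((κ0, wc0, ω0, d0) : ℂ × ℂ × ℂ × ℂ), (⟨a, τ⟩ : ℂ))) h2 h3
  have v1 : Γ (κ0, wc0, ω0, d0) ⟨0, 3 / 80⟩ = 0 := by
    rw [hline]; simp only [hA]; ring
  have v2 : Γ (κ0, wc0, ω0, d0) ⟨0, 7 / 80⟩ = 0 := by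
    rw [hline]; simp only [hA, hB]; ring
  have v3 : Γ (κ0, wc0, ω0, d0) ⟨0, τm⟩ = γ := by
    rw [hline, hγ]; simp only [he]; ring
  obtain ⟨η, hη0, hη1, hη⟩ : ∃ η > 0, η ≤ 1 / 80 ∧ ∀ a : ℝ, |a| ≤ η →
      Γ (κ0, wc0, ω0, d0) ⟨a, 3 / 80⟩ < γ / 4 ∧ Γ (κ0, wc0, ω0, d0) ⟨a, 7 / 80⟩ < γ / 4 ∧
      3 * γ / 4 < Γ (κ0, wc0, ω0, d0) ⟨a, τm⟩ := by
    have e1 : ∀ᶠ a : ℝ in 𝓝 0, Γ (κ0, wc0, ω0, d0) ⟨a, 3 / 80⟩ < γ / 4 :=
      (hcont0 (3 / 80) ⟨by norm_num, by norm_num⟩).eventually_lt continuousAt_const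
        (by rw [v1]; linarith)
    have e2 : ∀ᶠ a : ℝ in 𝓝 0, Γ (κ0, wc0, ω0, d0) ⟨a, 7 / 80⟩ < γ / 4 :=
      (hcont0 (7 / 80) ⟨by norm_num, by norm_num⟩).eventually_lt continuousAt_const
        (by rw [v2]; linarith)
    have e3 : ∀ᶠ a : ℝ in 𝓝 0, 3 * γ / 4 < Γ (κ0, wc0, ω0, d0) ⟨a, τm⟩ :=
      continuousAt_const.eventually_lt (hcont0 τm ⟨hτm.1.le, hτm.2.le⟩)
        (by rw [v3]; linarith)
    obtain ⟨ε, hε, h⟩ := Metric.eventually_nhds_iff.1 (e1.and (e2.and e3))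
    refine ⟨min (ε / 2) (1 / 80), by positivity, min_le_right _ _, fun a ha => h ?_⟩
    rw [Real.dist_eq, sub_zero]
    have := ha.trans (min_le_left _ _)
    linarith
  set R := Rect η (3 / 80) (7 / 80) with hR
  have hRc : IsCompact R := isCompact_rect _ _ _
  have hG0c : ContinuousOn (fun x => Γ (κ0, wc0, ω0, d0) x) R := by
    intro x hx
    have h2 := continuousAt_Gam e A B wc0 d0 (p := (κ0, wc0, ω0, d0)) (x := x)
      (hslit _ hp0 η hη1 x hx)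
    exact (ContinuousAt.comp (g := fun z : (ℂ × ℂ × ℂ × ℂ) × ℂ => Gam e A B wc0 d0 z.1 z.2)
      (f := fun x : ℂ => (((κ0, wc0, ω0, d0) : ℂ × ℂ × ℂ × ℂ), x)) h2 (by fun_prop)).continuousWithinAt
  obtain ⟨B0, hB0⟩ : ∃ B0 : ℝ, ∀ x ∈ R, Γ (κ0, wc0, ω0, d0) x ≤ B0 := by
    obtain ⟨b, hb⟩ := (hRc.image_of_continuousOn hG0c).bddAbove
    exact ⟨b, fun x hx => hb ⟨x, hx, rfl⟩⟩
  -- nearby parameters
  have hnear : ∀ᶠ p in 𝓝 ((κ0, wc0, ω0, d0) : ℂ × ℂ × ℂ × ℂ), ∀ x ∈ R,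
      |Γ p x - Γ (κ0, wc0, ω0, d0) x| < γ / 16 := by
    refine hRc.eventually_forall_of_forall_eventually fun x hx => ?_
    have h2 := continuousAt_Gam e A B wc0 d0 (p := (κ0, wc0, ω0, d0)) (x := x)
      (hslit _ hp0 η hη1 x hx)
    have h3 : ContinuousAt (fun z : (ℂ × ℂ × ℂ × ℂ) × ℂ => Gam e A B wc0 d0 (κ0, wc0, ω0, d0) z.2)
        ((κ0, wc0, ω0, d0), x) :=
      ContinuousAt.comp (g := fun z : (ℂ × ℂ × ℂ × ℂ) × ℂ => Gam e A B wc0 d0 z.1 z.2)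
        (f := fun z : (ℂ × ℂ × ℂ × ℂ) × ℂ => (((κ0, wc0, ω0, d0) : ℂ × ℂ × ℂ × ℂ), z.2))
        h2 (by fun_prop)
    have h4 := (h2.sub h3).abs
    refine h4.eventually_lt continuousAt_const ?_
    show |Gam e A B wc0 d0 (κ0, wc0, ω0, d0) x - Gam e A B wc0 d0 (κ0, wc0, ω0, d0) x| < γ / 16
    rw [sub_self, abs_zero]
    positivity
  set lam : ℝ := 2 * (|B0| + γ + 1) / η with hlam
  have hlampos : 0 < lam := by positivity
  set δs : ℝ := min (η / 8) (min (γ / (32 * lam)) (γ / (16 * (|e| * (1 + |B|) + 1)))) with hδs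
  have hδspos : 0 < δs := by positivity
  have hsmall : ∀ᶠ t : ℝ in 𝓝 0, t < δs := gt_mem_nhds hδspos
  have hlamη : lam * η = 2 * (|B0| + γ + 1) := by
    rw [hlam]; field_simp
  filter_upwards [hsmall.prod_nhds hnear] with z hz hz0 hzK
  obtain ⟨hδ1, hpn⟩ := hz
  have hδη : z.1 < η / 8 := hδ1.trans_le (min_le_left _ _)
  have hδlam : z.1 < γ / (32 * lam) :=
    hδ1.trans_le ((min_le_right _ _).trans (min_le_left _ _))
  have hδe : z.1 < γ / (16 * (|e| * (1 + |B|) + 1)) :=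
    hδ1.trans_le ((min_le_right _ _).trans (min_le_right _ _))
  refine winOK_core (wc0 := wc0) (d0 := d0) (η := η) (γ := γ) (lam := lam) (B0 := B0) (e := e)
    (A := A) (B := B) (τm := τm) (Γ0 := Γ (κ0, wc0, ω0, d0)) hzK.2.1 hzK.2.2.1 hzK.2.2.2 hd0 hz0 hδη
    hη1 hτm hlampos hpn hB0 hη ?_ ?_ ?_
  · calc (|e| * (1 + |B|) + 1) * z.1 ≤
          (|e| * (1 + |B|) + 1) * (γ / (16 * (|e| * (1 + |B|) + 1))) :=
            mul_le_mul_of_nonneg_left hδe.le (by positivity)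
      _ = γ / 16 := by
            have : |e| * (1 + |B|) + 1 ≠ 0 := by positivity
            field_simp
  · have h1 : |B0| + γ + 1 ≤ lam * (η - 2 * z.1) := by
      have : lam * (η / 2) ≤ lam * (η - 2 * z.1) :=
        mul_le_mul_of_nonneg_left (by linarith) hlampos.le
      linarith
    have h2 := le_abs_self B0
    linarith
  · have := mul_lt_mul_of_pos_left hδlam hlampos
    have e1 : lam * (γ / (32 * lam)) = γ / 32 := by field_simp
    linarith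

lemma WinOK.mono {δ δ' : ℝ} {κ wc ω d : ℂ} (h : WinOK δ κ wc ω d) (hδ : δ' ≤ δ) :
    WinOK δ' κ wc ω d := by
  intro Y hYc hYs hYcl a b c hF x0 x1 hj hx0 hx1
  obtain ⟨y, hy, hy2, hy3⟩ := h Y hYc hYs (fun w hw => ⟨(hYcl w hw).1.trans hδ,
    (hYcl w hw).2.trans hδ⟩) a b c (fun w hw => (hF w hw).trans hδ) x0 x1
    (hj.mono (fun w hw => ⟨hw.1, le_trans (show (conj ω * (w - wc)).re ≤ δ' from hw.2) hδ⟩)) hx0 hx1
  exact ⟨y, hy, lt_of_le_of_lt hδ hy2, hy3⟩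

/-- one closeness constant for all windows -/
theorem winOK_uniform : ∃ δ > 0, ∀ κ wc ω d : ℂ, ‖κ‖ = 1 → ‖wc - 1 / 4‖ ≤ 1 / 80 → ‖ω‖ = 1 →
    (d = I * ω ∨ d = -(I * ω)) → WinOK δ κ wc ω d := by
  have h1 := isCompact_Kp.eventually_forall_of_forall_eventually (x₀ := (0 : ℝ))
    (P := fun δ p => 0 < δ → p ∈ Kp → WinOK δ p.1 p.2.1 p.2.2.1 p.2.2.2)
    (fun p hp => winOK_local hp)
  obtain ⟨ε, hε, h⟩ := Metric.eventually_nhds_iff.1 h1
  refine ⟨ε / 2, by positivity, fun κ wc ω d h2 h3 h4 h5 => ?_⟩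
  refine h (y := ε / 2) ?_ (κ, wc, ω, d) ⟨h2, h3, h4, h5⟩ (by positivity) ⟨h2, h3, h4, h5⟩
  rw [Real.dist_eq, sub_zero, abs_of_pos (by positivity)]
  linarith

end Pool.Agent.Helper253.Sad
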