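import Pool.Agent.Helper253.Sad.Pairs
import Pool.Agent.Helper253.Sad.BU

namespace Pool.Agent.Helper253.Sad

open Metric Set Topology Complex
open scoped ComplexConjugate

noncomputable def RR (z1 z2 : ℂ) : ℝ := max (max ‖z1‖ ‖z2‖) (1 / 4)

noncomputable def dn (z1 z2 : ℂ) : ℝ := max ‖z2‖ (RR z1 z2 / 3)

noncomputable def mm (z1 z2 : ℂ) : ℂ := z1 * conj z2 / ((2 * RR z1 z2 * dn z1 z2 : ℝ) : ℂ)

noncomputable def vv (z1 z2 : ℂ) : ℂ := z2 / (dn z1 z2 : ℂ)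

noncomputable def ss (z1 z2 : ℂ) : ℝ := ‖z2‖ / RR z1 z2

noncomputable def rr (ε : ℝ) (z1 z2 : ℂ) : ℝ :=
  ε + (1 / 200 - ε) * max 0 (min 1 (3 * (1 - ss z1 z2)))

noncomputable def la (z1 z2 : ℂ) : ℝ := max 0 (min 1 (2 - 3 * ss z1 z2))

lemma RR_pos (z1 z2 : ℂ) : 0 < RR z1 z2 := lt_of_lt_of_le (by norm_num) (le_max_right _ _)

lemma dn_pos (z1 z2 : ℂ) : 0 < dn z1 z2 :=
  lt_of_lt_of_le (by have := RR_pos z1 z2; positivity) (le_max_right _ _)

lemma RR_neg (z1 z2 : ℂ) : RR (-z1) (-z2) = RR z1 z2 := by simp [RR]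
lemma dn_neg (z1 z2 : ℂ) : dn (-z1) (-z2) = dn z1 z2 := by simp [dn, RR_neg]
lemma mm_neg (z1 z2 : ℂ) : mm (-z1) (-z2) = mm z1 z2 := by simp [mm, RR_neg, dn_neg]
lemma vv_neg (z1 z2 : ℂ) : vv (-z1) (-z2) = -vv z1 z2 := by simp [vv, dn_neg, neg_div]
lemma ss_neg (z1 z2 : ℂ) : ss (-z1) (-z2) = ss z1 z2 := by simp [ss, RR_neg]
lemma rr_neg (ε : ℝ) (z1 z2 : ℂ) : rr ε (-z1) (-z2) = rr ε z1 z2 := by simp [rr, ss_neg]
lemma la_neg (z1 z2 : ℂ) : la (-z1) (-z2) = la z1 z2 := by simp [la, ss_neg]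

lemma RR_cont : Continuous (fun z : ℂ × ℂ => RR z.1 z.2) := by unfold RR; fun_prop
lemma dn_cont : Continuous (fun z : ℂ × ℂ => dn z.1 z.2) := by
  unfold dn; have := RR_cont; fun_prop
lemma mm_cont : Continuous (fun z : ℂ × ℂ => mm z.1 z.2) := by
  unfold mm
  have h1 := RR_cont
  have h2 := dn_cont
  refine Continuous.div (continuous_fst.mul (Complex.continuous_conj.comp continuous_snd))
    (Complex.continuous_ofReal.comp ((continuous_const.mul h1).mul h2)) ?_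
  intro z
  have := RR_pos z.1 z.2
  have := dn_pos z.1 z.2
  have : (0 : ℝ) < 2 * RR z.1 z.2 * dn z.1 z.2 := by positivity
  exact_mod_cast this.ne'
lemma vv_cont : Continuous (fun z : ℂ × ℂ => vv z.1 z.2) := by
  unfold vv
  refine Continuous.div continuous_snd (Complex.continuous_ofReal.comp dn_cont) ?_
  intro z
  have := dn_pos z.1 z.2
  exact_mod_cast this.ne'
lemma ss_cont : Continuous (fun z : ℂ × ℂ => ss z.1 z.2) := by
  unfold ss
  exact Continuous.div (by fun_prop) RR_cont (fun z => (RR_pos z.1 z.2).ne')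
lemma rr_cont (ε : ℝ) : Continuous (fun z : ℂ × ℂ => rr ε z.1 z.2) := by
  unfold rr; have := ss_cont; fun_prop
lemma la_cont : Continuous (fun z : ℂ × ℂ => la z.1 z.2) := by
  unfold la; have := ss_cont; fun_prop

lemma mm_norm (z1 z2 : ℂ) : ‖mm z1 z2‖ ≤ 1 / 2 := by
  have h1 := RR_pos z1 z2
  have h2 := dn_pos z1 z2
  rw [mm, norm_div, norm_mul, Complex.norm_conj, Complex.norm_real, Real.norm_eq_abs,
    abs_of_pos (by positivity), div_le_iff₀ (by positivity)]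
  have h3 : ‖z1‖ ≤ RR z1 z2 := (le_max_left _ _).trans (le_max_left _ _)
  have h4 : ‖z2‖ ≤ dn z1 z2 := le_max_left _ _
  have := mul_le_mul h3 h4 (norm_nonneg _) h1.le
  linarith

lemma vv_norm (z1 z2 : ℂ) : ‖vv z1 z2‖ ≤ 1 := by
  have h2 := dn_pos z1 z2
  rw [vv, norm_div, Complex.norm_real, Real.norm_eq_abs, abs_of_pos h2, div_le_one h2]
  exact le_max_left _ _

lemma clamp_mem (x : ℝ) : 0 ≤ max 0 (min 1 x) ∧ max 0 (min 1 x) ≤ 1 :=
  ⟨le_max_left _ _, max_le zero_le_one (min_le_left _ _)⟩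

lemma rr_mem {ε : ℝ} (_h0 : 0 < ε) (h1 : ε ≤ 1 / 200) (z1 z2 : ℂ) :
    ε ≤ rr ε z1 z2 ∧ rr ε z1 z2 ≤ 1 / 200 := by
  obtain ⟨h2, h3⟩ := clamp_mem (3 * (1 - ss z1 z2))
  unfold rr
  constructor
  · have := mul_nonneg (show 0 ≤ 1 / 200 - ε by linarith) h2
    linarith
  · have := mul_le_mul_of_nonneg_left h3 (show 0 ≤ 1 / 200 - ε by linarith)
    linarith

/-- the odd map -/
noncomputable def gg (X : ℂ → ℂ × ℝ) (ε : ℝ) (z1 z2 : ℂ) : ℂ × ℝ :=
  (1 - la z1 z2) • (X (mm z1 z2 + rr ε z1 z2 * vv z1 z2) - X (mm z1 z2 - rr ε z1 z2 * vv z1 z2)) +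
    la z1 z2 • ((z1 / ((100 * RR z1 z2 : ℝ) : ℂ), 0) : ℂ × ℝ)

lemma gg_neg (X : ℂ → ℂ × ℝ) (ε : ℝ) (z1 z2 : ℂ) : gg X ε (-z1) (-z2) = -gg X ε z1 z2 := by
  unfold gg
  rw [la_neg, mm_neg, rr_neg, vv_neg, RR_neg]
  have e1 : mm z1 z2 + rr ε z1 z2 * -vv z1 z2 = mm z1 z2 - rr ε z1 z2 * vv z1 z2 := by ring
  have e2 : mm z1 z2 - rr ε z1 z2 * -vv z1 z2 = mm z1 z2 + rr ε z1 z2 * vv z1 z2 := by ring
  have e3 : ((-z1 / ((100 * RR z1 z2 : ℝ) : ℂ), 0) : ℂ × ℝ) =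
      -((z1 / ((100 * RR z1 z2 : ℝ) : ℂ), 0) : ℂ × ℝ) := by
    rw [Prod.neg_mk, neg_zero, neg_div]
  have e4 : X (mm z1 z2 - rr ε z1 z2 * vv z1 z2) - X (mm z1 z2 + rr ε z1 z2 * vv z1 z2) =
      -(X (mm z1 z2 + rr ε z1 z2 * vv z1 z2) - X (mm z1 z2 - rr ε z1 z2 * vv z1 z2)) :=
    (neg_sub _ _).symm
  rw [e1, e2, e3, e4, smul_neg, smul_neg, ← neg_add]

lemma arg_mem {m v : ℂ} {r : ℝ} (hm : ‖m‖ ≤ 1 / 2) (hv : ‖v‖ ≤ 1) (hr : 0 ≤ r) (hr2 : r ≤ 1 / 200) :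
    m + r * v ∈ ball (0 : ℂ) 1 ∧ m - r * v ∈ ball (0 : ℂ) 1 := by
  have h1 : ‖(r : ℂ) * v‖ ≤ 1 / 200 := by
    rw [norm_mul, Complex.norm_real, Real.norm_eq_abs, abs_of_nonneg hr]
    have := mul_le_mul hr2 hv (norm_nonneg _) (by norm_num : (0 : ℝ) ≤ 1 / 200)
    linarith
  constructor
  · rw [mem_ball_zero_iff]
    have := norm_add_le m (r * v)
    linarith
  · rw [mem_ball_zero_iff]
    have := norm_sub_le m (r * v)
    linarith

lemma gg_cont {X : ℂ → ℂ × ℝ} (hX : ContinuousOn X (closedBall 0 1)) {ε : ℝ} (h0 : 0 < ε)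
    (h1 : ε ≤ 1 / 200) : Continuous (fun z : ℂ × ℂ => gg X ε z.1 z.2) := by
  have c1 := mm_cont
  have c2 := vv_cont
  have c3 := rr_cont ε
  have c4 := la_cont
  have c5 := RR_cont
  have hmem : ∀ z : ℂ × ℂ, mm z.1 z.2 + rr ε z.1 z.2 * vv z.1 z.2 ∈ closedBall (0 : ℂ) 1 ∧
      mm z.1 z.2 - rr ε z.1 z.2 * vv z.1 z.2 ∈ closedBall (0 : ℂ) 1 := by
    intro z
    obtain ⟨h2, h3⟩ := rr_mem h0 h1 z.1 z.2
    have := arg_mem (mm_norm z.1 z.2) (vv_norm z.1 z.2) (by linarith) h3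
    exact ⟨ball_subset_closedBall this.1, ball_subset_closedBall this.2⟩
  have d0 : Continuous (fun z : ℂ × ℂ => (rr ε z.1 z.2 : ℂ) * vv z.1 z.2) :=
    (Complex.continuous_ofReal.comp c3).mul c2
  have d1 : Continuous (fun z : ℂ × ℂ => X (mm z.1 z.2 + rr ε z.1 z.2 * vv z.1 z.2)) :=
    hX.comp_continuous (c1.add d0) (fun z => (hmem z).1)
  have d2 : Continuous (fun z : ℂ × ℂ => X (mm z.1 z.2 - rr ε z.1 z.2 * vv z.1 z.2)) :=
    hX.comp_continuous (c1.sub d0) (fun z => (hmem z).2)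
  have d3 : Continuous (fun z : ℂ × ℂ => ((z.1 / ((100 * RR z.1 z.2 : ℝ) : ℂ), 0) : ℂ × ℝ)) := by
    refine Continuous.prodMk (Continuous.div continuous_fst
      (Complex.continuous_ofReal.comp (continuous_const.mul c5)) ?_) continuous_const
    intro z
    have : (0 : ℝ) < 100 * RR z.1 z.2 := by have := RR_pos z.1 z.2; positivity
    exact_mod_cast this.ne'
  unfold gg
  exact ((continuous_const.sub c4).smul (d1.sub d2)).add (c4.smul d3)

lemma gg_ne {X : ℂ → ℂ × ℝ} (h1 : ∀ z ∈ ball (0 : ℂ) 1, ‖(X z).1 - z ^ 2‖ ≤ 1 / 400)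
    (hne : ∀ (m v : ℂ) (r : ℝ), ‖m‖ = 1 / 2 → ‖v‖ = 1 → 0 < r → r ≤ 1 / 200 →
      (X (m + r * v)).1 ≠ (X (m - r * v)).1) {ε : ℝ} (hε0 : 0 < ε) (hε1 : ε ≤ 1 / 200)
    (hε : ∀ m v : ℂ, ‖m‖ ≤ 1 / 2 → ‖v‖ = 1 → X (m + ε * v) ≠ X (m - ε * v)) {z1 z2 : ℂ}
    (hz : 1 / 4 ≤ max ‖z1‖ ‖z2‖) : gg X ε z1 z2 ≠ 0 := by
  intro hg
  have hR : RR z1 z2 = max ‖z1‖ ‖z2‖ := max_eq_left hz
  have hRpos := RR_pos z1 z2
  have hg1 := congrArg Prod.fst hg
  have hg1' : ((1 - la z1 z2 : ℝ) : ℂ) * ((X (mm z1 z2 + rr ε z1 z2 * vv z1 z2)).1 -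
      (X (mm z1 z2 - rr ε z1 z2 * vv z1 z2)).1) +
      (la z1 z2 : ℂ) * (z1 / ((100 * RR z1 z2 : ℝ) : ℂ)) = 0 := hg1
  -- facts when `ss ≥ 1/3`
  have hs3 : 1 / 3 ≤ ss z1 z2 → dn z1 z2 = ‖z2‖ ∧ 0 < ‖z2‖ := by
    intro hs
    rw [ss, le_div_iff₀ hRpos] at hs
    have h2 : RR z1 z2 / 3 ≤ ‖z2‖ := by linarith
    exact ⟨max_eq_left h2, by linarith⟩
  have hv : 1 / 3 ≤ ss z1 z2 → ‖vv z1 z2‖ = 1 := by
    intro hs
    obtain ⟨h2, h3⟩ := hs3 hs
    rw [vv, h2, norm_div, Complex.norm_real, Real.norm_eq_abs, abs_of_pos h3, div_self h3.ne']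
  rcases le_total ‖z1‖ ‖z2‖ with hle | hle
  · -- first solid torus
    have hR2 : RR z1 z2 = ‖z2‖ := by rw [hR]; exact max_eq_right hle
    have hs : ss z1 z2 = 1 := by rw [ss, hR2]; exact div_self (hR2 ▸ hRpos).ne'
    have hla : la z1 z2 = 0 := by rw [la, hs]; norm_num
    have hrr : rr ε z1 z2 = ε := by rw [rr, hs]; norm_num
    have h3 : gg X ε z1 z2 = X (mm z1 z2 + ε * vv z1 z2) - X (mm z1 z2 - ε * vv z1 z2) := by
      rw [gg, hla, hrr]; simp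
    rw [h3] at hg
    exact hε _ _ (mm_norm z1 z2) (hv (by rw [hs]; norm_num)) (sub_eq_zero.1 hg)
  · have hR1 : RR z1 z2 = ‖z1‖ := by rw [hR]; exact max_eq_left hle
    have hz1 : 0 < ‖z1‖ := hR1 ▸ hRpos
    have hz1ne : z1 ≠ 0 := norm_pos_iff.1 hz1
    rcases lt_or_ge (ss z1 z2) (1 / 3) with hs | hs
    · have hla : la z1 z2 = 1 := by
        rw [la, min_eq_left (by linarith)]; norm_num
      rw [hla] at hg1'
      simp only [sub_self, Complex.ofReal_zero, zero_mul, zero_add, Complex.ofReal_one,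
        one_mul] at hg1'
      rcases div_eq_zero_iff.1 hg1' with h4 | h4
      · exact hz1ne h4
      · have : (100 * RR z1 z2 : ℝ) = 0 := by exact_mod_cast h4
        linarith
    · obtain ⟨hdn, hz2⟩ := hs3 hs
      have hv1 := hv hs
      have hm : ‖mm z1 z2‖ = 1 / 2 := by
        rw [mm, hdn, hR1, norm_div, norm_mul, Complex.norm_conj, Complex.norm_real,
          Real.norm_eq_abs, abs_of_pos (by positivity)]
        field_simp
      obtain ⟨hr1, hr2⟩ := rr_mem hε0 hε1 z1 z2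
      rcases le_or_gt (2 / 3) (ss z1 z2) with hs2 | hs2
      · have hla : la z1 z2 = 0 := by
          rw [la]
          exact max_eq_left ((min_le_right _ _).trans (by linarith))
        rw [hla] at hg1'
        simp only [sub_zero, Complex.ofReal_zero, zero_mul, add_zero, Complex.ofReal_one,
          one_mul] at hg1'
        exact hne _ _ _ hm hv1 (by linarith) hr2 (sub_eq_zero.1 hg1')
      · have hrr : rr ε z1 z2 = 1 / 200 := by
          rw [rr, min_eq_left (by linarith)]; norm_num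
        obtain ⟨ha1, ha2⟩ := arg_mem (r := rr ε z1 z2) hm.le hv1.le (by linarith) hr2
        set A := (X (mm z1 z2 + rr ε z1 z2 * vv z1 z2)).1
        set B := (X (mm z1 z2 - rr ε z1 z2 * vv z1 z2)).1
        have hmv : mm z1 z2 * vv z1 z2 = z1 / ((2 * ‖z1‖ : ℝ) : ℂ) := by
          rw [mm, vv, hdn, hR1]
          have hc : conj z2 * z2 = ((‖z2‖ ^ 2 : ℝ) : ℂ) := by
            rw [mul_comm, Complex.mul_conj, Complex.normSq_eq_norm_sq]
          have h5 : (‖z1‖ : ℂ) ≠ 0 := by exact_mod_cast hz1.ne'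
          have h6 : (‖z2‖ : ℂ) ≠ 0 := by exact_mod_cast hz2.ne'
          push_cast at hc ⊢
          field_simp
          linear_combination hc
        have e1 := h1 _ ha1
        have e2 := h1 _ ha2
        have e3 : ‖(A - B) - z1 / ((100 * RR z1 z2 : ℝ) : ℂ)‖ ≤ 1 / 200 := by
          have h7 : z1 / ((100 * RR z1 z2 : ℝ) : ℂ) =
              (mm z1 z2 + rr ε z1 z2 * vv z1 z2) ^ 2 - (mm z1 z2 - rr ε z1 z2 * vv z1 z2) ^ 2 := by
            have h8 : (mm z1 z2 + rr ε z1 z2 * vv z1 z2) ^ 2 -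
                (mm z1 z2 - rr ε z1 z2 * vv z1 z2) ^ 2 = 4 * rr ε z1 z2 * (mm z1 z2 * vv z1 z2) := by
              ring
            rw [h8, hmv, hrr, hR1]
            have h5 : (‖z1‖ : ℂ) ≠ 0 := by exact_mod_cast hz1.ne'
            push_cast
            field_simp
            norm_num
          rw [h7]
          have h9 : (A - B) - ((mm z1 z2 + rr ε z1 z2 * vv z1 z2) ^ 2 -
              (mm z1 z2 - rr ε z1 z2 * vv z1 z2) ^ 2) =
              (A - (mm z1 z2 + rr ε z1 z2 * vv z1 z2) ^ 2) -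
              (B - (mm z1 z2 - rr ε z1 z2 * vv z1 z2) ^ 2) := by ring
          rw [h9]
          refine (norm_sub_le _ _).trans ?_
          linarith
        have e4 : ‖z1 / ((100 * RR z1 z2 : ℝ) : ℂ)‖ = 1 / 100 := by
          rw [norm_div, Complex.norm_real, Real.norm_eq_abs, abs_of_pos (by positivity), hR1]
          field_simp
        have hl := clamp_mem (2 - 3 * ss z1 z2)
        have e5 : z1 / ((100 * RR z1 z2 : ℝ) : ℂ) =
            -(((1 - la z1 z2 : ℝ) : ℂ) * ((A - B) - z1 / ((100 * RR z1 z2 : ℝ) : ℂ))) := by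
          have : ((1 - la z1 z2 : ℝ) : ℂ) = 1 - (la z1 z2 : ℂ) := by push_cast; ring
          rw [this] at hg1' ⊢
          linear_combination hg1'
        have e6 : ‖z1 / ((100 * RR z1 z2 : ℝ) : ℂ)‖ ≤ 1 / 200 := by
          rw [e5, norm_neg, norm_mul, Complex.norm_real, Real.norm_eq_abs,
            abs_of_nonneg (show 0 ≤ 1 - la z1 z2 by unfold la; linarith [hl.2])]
          have h10 : 1 - la z1 z2 ≤ 1 := by unfold la; linarith [hl.1]
          calc (1 - la z1 z2) * ‖(A - B) - z1 / ((100 * RR z1 z2 : ℝ) : ℂ)‖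
              ≤ 1 * ‖(A - B) - z1 / ((100 * RR z1 z2 : ℝ) : ℂ)‖ :=
                mul_le_mul_of_nonneg_right h10 (norm_nonneg _)
            _ ≤ 1 / 200 := by rw [one_mul]; exact e3
        rw [e4] at e6
        norm_num at e6

/-- a uniform injectivity radius -/
lemma exists_eps {X : ℂ → ℂ × ℝ}
    (hloc : ∀ z ∈ ball (0 : ℂ) 1, ∃ r > 0, InjOn X (closedBall z r)) :
    ∃ ε : ℝ, 0 < ε ∧ ε ≤ 1 / 200 ∧
      ∀ m v : ℂ, ‖m‖ ≤ 1 / 2 → ‖v‖ = 1 → X (m + ε * v) ≠ X (m - ε * v) := by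
  choose r hr hri using hloc
  obtain ⟨δ, hδ, hδ2⟩ := lebesgue_number_lemma_of_metric (isCompact_closedBall (0 : ℂ) (1 / 2))
    (c := fun z : ball (0 : ℂ) 1 => ball (z : ℂ) (r z z.2)) (fun _ => isOpen_ball) (by
      intro z hz
      have hz1 : z ∈ ball (0 : ℂ) 1 := by
        rw [mem_closedBall_zero_iff] at hz
        rw [mem_ball_zero_iff]; linarith
      exact mem_iUnion.2 ⟨⟨z, hz1⟩, mem_ball_self (hr z hz1)⟩)
  refine ⟨min (δ / 2) (1 / 200), by positivity, min_le_right _ _, ?_⟩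
  intro m v hm hv heq
  obtain ⟨z, hz⟩ := hδ2 m (by rw [mem_closedBall_zero_iff]; exact hm)
  set ε := min (δ / 2) (1 / 200) with hεdef
  have hεpos : 0 < ε := by positivity
  have hεδ : ε < δ := lt_of_le_of_lt (min_le_left _ _) (by linarith)
  have hn : ‖(ε : ℂ) * v‖ = ε := by
    rw [norm_mul, hv, mul_one, Complex.norm_real, Real.norm_eq_abs, abs_of_pos hεpos]
  have m1 : m + ε * v ∈ ball m δ := by
    rw [mem_ball, dist_eq_norm, add_sub_cancel_left, hn]; exact hεδ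
  have m2 : m - ε * v ∈ ball m δ := by
    rw [mem_ball, dist_eq_norm]
    have : m - ε * v - m = -(ε * v) := by ring
    rw [this, norm_neg, hn]; exact hεδ
  have h3 := hri z z.2 (ball_subset_closedBall (hz m1)) (ball_subset_closedBall (hz m2)) heq
  have h4 : (2 : ℂ) * (ε * v) = 0 := by linear_combination h3
  have h5 : (ε : ℂ) * v = 0 := by simpa using h4
  rw [h5, norm_zero] at hn
  linarith

noncomputable def Z1 (x : Fin 4 → ℝ) : ℂ := (x 0 : ℂ) + (x 1 : ℂ) * I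
noncomputable def Z2 (x : Fin 4 → ℝ) : ℂ := (x 2 : ℂ) + (x 3 : ℂ) * I

lemma Z1_neg (x : Fin 4 → ℝ) : Z1 (-x) = -Z1 x := by simp [Z1]; ring
lemma Z2_neg (x : Fin 4 → ℝ) : Z2 (-x) = -Z2 x := by simp [Z2]; ring

lemma Z_cont : Continuous (fun x : Fin 4 → ℝ => (Z1 x, Z2 x)) := by
  unfold Z1 Z2
  fun_prop

lemma Z_size {x : Fin 4 → ℝ} (hx : ∑ i, |x i| = 1) : 1 / 4 ≤ max ‖Z1 x‖ ‖Z2 x‖ := by
  by_contra hcon
  push Not at hcon
  have hsum : |x 0| + |x 1| + |x 2| + |x 3| = 1 := by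
    rw [← hx, Fin.sum_univ_four]
  have h3 : ‖Z1 x‖ < 1 / 4 := (le_max_left _ _).trans_lt hcon
  have h4 : ‖Z2 x‖ < 1 / 4 := (le_max_right _ _).trans_lt hcon
  have h5 : |x 0| ≤ ‖Z1 x‖ := by
    have := Complex.abs_re_le_norm (Z1 x)
    simpa [Z1] using this
  have h6 : |x 1| ≤ ‖Z1 x‖ := by
    have := Complex.abs_im_le_norm (Z1 x)
    simpa [Z1] using this
  have h7 : |x 2| ≤ ‖Z2 x‖ := by
    have := Complex.abs_re_le_norm (Z2 x)
    simpa [Z2] using this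
  have h8 : |x 3| ≤ ‖Z2 x‖ := by
    have := Complex.abs_im_le_norm (Z2 x)
    simpa [Z2] using this
  linarith

/-- coordinates of space -/
def cd (p : ℂ × ℝ) : Fin 3 → ℝ := ![p.1.re, p.1.im, p.2]

lemma cd_neg (p : ℂ × ℝ) : cd (-p) = -cd p := by
  ext i
  fin_cases i <;> simp [cd]

lemma cd_cont : Continuous cd := by
  refine continuous_pi fun i => ?_
  fin_cases i
  · exact Complex.continuous_re.comp continuous_fst
  · exact Complex.continuous_im.comp continuous_fst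
  · exact continuous_snd

lemma cd_zero {p : ℂ × ℝ} (h : cd p = 0) : p = 0 := by
  have h3 := congrFun h 0
  have h4 := congrFun h 1
  have h5 := congrFun h 2
  exact Prod.ext (Complex.ext h3 h4) h5

/-- the global contradiction -/
theorem global_false {X : ℂ → ℂ × ℝ} (hX : ContinuousOn X (closedBall 0 1))
    (h1 : ∀ z ∈ ball (0 : ℂ) 1, ‖(X z).1 - z ^ 2‖ ≤ 1 / 400)
    (hne : ∀ (m v : ℂ) (r : ℝ), ‖m‖ = 1 / 2 → ‖v‖ = 1 → 0 < r → r ≤ 1 / 200 →
      (X (m + r * v)).1 ≠ (X (m - r * v)).1)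
    (hloc : ∀ z ∈ ball (0 : ℂ) 1, ∃ r > 0, InjOn X (closedBall z r)) : False := by
  obtain ⟨ε, hε0, hε1, hε⟩ := exists_eps hloc
  have hgc : Continuous (fun x => gg X ε (Z1 x) (Z2 x)) :=
    Continuous.comp (g := fun z : ℂ × ℂ => gg X ε z.1 z.2) (f := fun x => (Z1 x, Z2 x))
      (gg_cont hX hε0 hε1) Z_cont
  have hodd : ∀ x, cd (gg X ε (Z1 (-x)) (Z2 (-x))) = -cd (gg X ε (Z1 x) (Z2 x)) := by
    intro x
    rw [Z1_neg, Z2_neg, gg_neg, cd_neg]
  have hcc : Continuous (fun x => cd (gg X ε (Z1 x) (Z2 x))) :=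
    Continuous.comp (g := cd) (f := fun x => gg X ε (Z1 x) (Z2 x)) cd_cont hgc
  obtain ⟨x, hxK, hx0⟩ := BU.borsuk_ulam 3 (fun x => cd (gg X ε (Z1 x) (Z2 x))) hcc hodd
  have h3 : gg X ε (Z1 x) (Z2 x) = 0 := cd_zero hx0
  have h4 : ∑ i, |x i| = 1 := hxK
  exact gg_ne h1 hne hε0 hε1 hε (Z_size h4) h3

end Pool.Agent.Helper253.Sad
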