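import Pool.Agent.Helper253.Sad.NWC

namespace Pool.Agent.Helper253.Sad

open Metric Set Topology Complex

/-- principal square root -/
noncomputable def csq (w : ℂ) : ℂ := Complex.exp (Complex.log w / 2)

lemma csq_ne (w : ℂ) : csq w ≠ 0 := Complex.exp_ne_zero _

lemma csq_sq {w : ℂ} (hw : w ≠ 0) : csq w ^ 2 = w := by
  rw [csq, ← Complex.exp_nat_mul]
  have : ((2 : ℕ) : ℂ) * (Complex.log w / 2) = Complex.log w := by push_cast; ring
  rw [this, Complex.exp_log hw]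

lemma hasDerivAt_csq {w : ℂ} (hw : w ∈ slitPlane) : HasDerivAt csq (1 / (2 * csq w)) w := by
  have h0 : w ≠ 0 := slitPlane_ne_zero hw
  have h1 : HasDerivAt csq (csq w * (w⁻¹ / 2)) w :=
    ((Complex.hasDerivAt_log hw).div_const 2).cexp
  have h2 := csq_sq h0
  have h3 := csq_ne w
  refine h1.congr_deriv ?_
  rw [eq_div_iff (mul_ne_zero two_ne_zero h3)]
  have : csq w * (w⁻¹ / 2) * (2 * csq w) = csq w ^ 2 * w⁻¹ := by ring
  rw [this, h2, mul_inv_cancel₀ h0]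

lemma continuousAt_csq {w : ℂ} (hw : w ∈ slitPlane) : ContinuousAt csq w :=
  (hasDerivAt_csq hw).continuousAt

/-- the height of the model sheet -/
noncomputable def hh (κ w : ℂ) : ℝ := ((κ * csq w) ^ 3 + (κ * csq w) ^ 4).re

lemma deriv_zero_of {f : ℝ → ℝ} {f' a b τ : ℝ} (hτ : τ ∈ Ioo a b) (h0 : ∀ x ∈ Ioo a b, f x = 0)
    (hf : HasDerivAt f f' τ) : f' = 0 := by
  have h1 : HasDerivAt f 0 τ := by
    refine (hasDerivAt_const τ (0 : ℝ)).congr_of_eventuallyEq ?_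
    filter_upwards [Ioo_mem_nhds hτ.1 hτ.2] with x hx using h0 x hx
  exact hf.unique h1

lemma algebra_fact {z D : ℂ} (hz : z ≠ 0) (hD : D ≠ 0) (h1 : (D ^ 2 * (3 / (4 * z) + 2)).re = 0)
    (h2 : (D ^ 3 / z ^ 3).re = 0) (h3 : (D ^ 4 / z ^ 5).re = 0) : False := by
  -- the quotient is real
  obtain ⟨r, hr0, hr⟩ : ∃ r : ℝ, r ≠ 0 ∧ D = r * z ^ 2 := by
    set p := D ^ 3 / z ^ 3 with hp
    set q := D ^ 4 / z ^ 5 with hq
    have hp0 : p ≠ 0 := div_ne_zero (pow_ne_zero _ hD) (pow_ne_zero _ hz)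
    have hpim : p.im ≠ 0 := fun h => hp0 (Complex.ext h2 h)
    have hqp : q = p * (D / z ^ 2) := by rw [hp, hq]; field_simp
    have e : D / z ^ 2 = ((q.im / p.im : ℝ) : ℂ) := by
      have h4 : p = (p.im : ℂ) * I := by apply Complex.ext <;> simp [h2]
      have h5 : q = (q.im : ℂ) * I := by apply Complex.ext <;> simp [h3]
      have h6 : D / z ^ 2 = q / p := by rw [hqp]; field_simp
      have hpc : (p.im : ℂ) ≠ 0 := by exact_mod_cast hpim
      have e6 : q * (p.im : ℂ) = (q.im : ℂ) * p := by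
        calc q * (p.im : ℂ) = ((q.im : ℂ) * I) * (p.im : ℂ) := by rw [← h5]
          _ = (q.im : ℂ) * ((p.im : ℂ) * I) := by ring
          _ = _ := by rw [← h4]
      rw [h6]
      push_cast
      rw [div_eq_div_iff hp0 hpc, e6]
    refine ⟨q.im / p.im, ?_, ?_⟩
    · intro h
      rw [h] at e
      have : D / z ^ 2 ≠ 0 := div_ne_zero hD (pow_ne_zero _ hz)
      exact this (by simpa using e)
    · rw [← e]; field_simp
  have hrc : (r : ℂ) ≠ 0 := by exact_mod_cast hr0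
  have e1 : D ^ 3 / z ^ 3 = ((r ^ 3 : ℝ) : ℂ) * z ^ 3 := by
    rw [hr]; push_cast; field_simp
  have e2 : D ^ 2 * (3 / (4 * z) + 2) = ((3 / 4 * r ^ 2 : ℝ) : ℂ) * z ^ 3 +
      ((2 * r ^ 2 : ℝ) : ℂ) * (z * z ^ 3) := by
    rw [hr]; push_cast; field_simp
  rw [e1, Complex.re_ofReal_mul] at h2
  have h4 : (z ^ 3).re = 0 := by
    rcases mul_eq_zero.1 h2 with h | h
    · exact absurd h (pow_ne_zero _ hr0)
    · exact h
  rw [e2, Complex.add_re, Complex.re_ofReal_mul, Complex.re_ofReal_mul, h4, mul_zero, zero_add]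
    at h1
  have h5 : (z * z ^ 3).re = 0 := by
    rcases mul_eq_zero.1 h1 with h | h
    · exact absurd h (by positivity)
    · exact h
  rw [Complex.mul_re, h4, mul_zero, zero_sub, neg_eq_zero] at h5
  have hz3 : z ^ 3 ≠ 0 := pow_ne_zero _ hz
  rcases mul_eq_zero.1 h5 with h | h
  · have h6 : z = (z.re : ℂ) := by apply Complex.ext <;> simp [h]
    apply hz3
    apply Complex.ext
    · exact h4
    · have h7 : (z ^ 3).im = ((z.re : ℂ) ^ 3).im := by rw [← h6]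
      rw [h7, ← Complex.ofReal_pow, Complex.ofReal_im, Complex.zero_im]
  · exact hz3 (Complex.ext h4 h)

lemma slit_of_near {w : ℂ} (hw : ‖w - 1 / 4‖ < 1 / 4) : w ∈ slitPlane := by
  left
  have h1 := (Complex.abs_re_le_norm (w - 1 / 4)).trans_lt hw
  have h2 := (abs_lt.1 h1).1
  have h3 : (w - 1 / 4).re = w.re - 1 / 4 := by
    rw [Complex.sub_re]; norm_num
  rw [h3] at h2
  linarith

lemma not_affine {κ wc d : ℂ} (hκ : ‖κ‖ = 1) (hd : ‖d‖ = 1) (hwc : ‖wc - 1 / 4‖ ≤ 1 / 80)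
    (A B : ℝ) : ∃ τ ∈ Ioo (3 / 80 : ℝ) (7 / 80), hh κ (wc + d * τ) ≠ A + B * τ := by
  by_contra hcon
  push Not at hcon
  have hκ0 : κ ≠ 0 := by intro h; rw [h, norm_zero] at hκ; exact zero_ne_one hκ
  have hd0 : d ≠ 0 := by intro h; rw [h, norm_zero] at hd; exact zero_ne_one hd
  set z : ℝ → ℂ := fun τ => κ * csq (wc + d * τ) with hzdef
  set D : ℂ := κ ^ 2 * d with hD
  have hD0 : D ≠ 0 := mul_ne_zero (pow_ne_zero _ hκ0) hd0
  have hz0 : ∀ τ, z τ ≠ 0 := fun τ => mul_ne_zero hκ0 (csq_ne _)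
  have hz : ∀ τ ∈ Ioo (3 / 80 : ℝ) (7 / 80), HasDerivAt z (D / (2 * z τ)) τ := by
    intro τ hτ
    have hs : wc + d * τ ∈ slitPlane := by
      apply slit_of_near
      have e : wc + d * τ - 1 / 4 = (wc - 1 / 4) + d * τ := by ring
      rw [e]
      refine (norm_add_le _ _).trans_lt ?_
      rw [norm_mul, hd, Complex.norm_real, Real.norm_eq_abs, abs_of_pos (by linarith [hτ.1])]
      linarith [hτ.2]
    have h1 : HasDerivAt (fun τ : ℝ => wc + d * (τ : ℂ)) d τ := by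
      have h2 : HasDerivAt (fun τ : ℝ => (τ : ℂ)) 1 τ := Complex.ofRealCLM.hasDerivAt
      exact ((h2.const_mul d).const_add wc).congr_deriv (mul_one d)
    have h2 : HasDerivAt (fun τ : ℝ => csq (wc + d * (τ : ℂ)))
        (1 / (2 * csq (wc + d * (τ : ℂ))) * d) τ :=
      HasDerivAt.comp (h₂ := csq) (h := fun τ : ℝ => wc + d * (τ : ℂ)) τ (hasDerivAt_csq hs) h1
    have h3 : HasDerivAt z _ τ := h2.const_mul κ
    refine h3.congr_deriv ?_
    simp only [hzdef, hD]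
    have := csq_ne (wc + d * τ)
    field_simp
  have hre : ∀ {f : ℝ → ℂ} {f' : ℂ} {τ : ℝ}, HasDerivAt f f' τ →
      HasDerivAt (fun τ => (f τ).re) f'.re τ := by
    intro f f' τ hf
    exact (Complex.reCLM.hasFDerivAt.comp_hasDerivAt τ hf)
  have s1 : ∀ τ ∈ Ioo (3 / 80 : ℝ) (7 / 80), (D * (3 / 2 * z τ + 2 * z τ ^ 2)).re - B = 0 := by
    intro τ hτ
    have h1 := hz τ hτ
    have h2 : HasDerivAt (fun τ => (z τ) ^ 3 + (z τ) ^ 4) (D * (3 / 2 * z τ + 2 * z τ ^ 2)) τ := by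
      have h5 : HasDerivAt (fun τ => (z τ) ^ 3 + (z τ) ^ 4) _ τ := (h1.pow 3).add (h1.pow 4)
      refine h5.congr_deriv ?_
      have := hz0 τ
      push_cast
      field_simp
      ring
    have h3 : HasDerivAt (fun τ => ((z τ) ^ 3 + (z τ) ^ 4).re - (A + B * τ))
        ((D * (3 / 2 * z τ + 2 * z τ ^ 2)).re - B) τ := by
      refine (hre h2).sub ?_
      exact (((hasDerivAt_id τ).const_mul B).const_add A).congr_deriv (mul_one B)
    refine deriv_zero_of hτ (fun x hx => ?_) h3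
    have := hcon x hx
    simp only [hh] at this
    simp only [hzdef]
    rw [this]; ring
  have s2 : ∀ τ ∈ Ioo (3 / 80 : ℝ) (7 / 80), (D ^ 2 * (3 / (4 * z τ) + 2)).re = 0 := by
    intro τ hτ
    have h1 := hz τ hτ
    have h2 : HasDerivAt (fun τ => D * (3 / 2 * z τ + 2 * z τ ^ 2)) (D ^ 2 * (3 / (4 * z τ) + 2)) τ := by
      have h5 : HasDerivAt (fun τ => D * (3 / 2 * z τ + 2 * z τ ^ 2)) _ τ :=
        (((h1.const_mul (3 / 2 : ℂ)).add ((h1.pow 2).const_mul 2)).const_mul D)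
      refine h5.congr_deriv ?_
      have := hz0 τ
      push_cast
      field_simp
      ring
    have h3 : HasDerivAt (fun τ => (D * (3 / 2 * z τ + 2 * z τ ^ 2)).re - B)
        ((D ^ 2 * (3 / (4 * z τ) + 2)).re) τ := (hre h2).sub_const B
    exact deriv_zero_of hτ s1 h3
  have s3 : ∀ τ ∈ Ioo (3 / 80 : ℝ) (7 / 80), (D ^ 3 / z τ ^ 3).re = 0 := by
    intro τ hτ
    have h1 := hz τ hτ
    have h2 : HasDerivAt (fun τ => D ^ 2 * (3 / (4 * z τ) + 2)) (((-3 / 8 : ℝ) : ℂ) * (D ^ 3 / z τ ^ 3)) τ := by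
      have h4 : HasDerivAt (fun τ => D ^ 2 * (3 / 4 * (z τ)⁻¹ + 2)) _ τ :=
        (((h1.inv (hz0 τ)).const_mul (3 / 4 : ℂ)).add_const (2 : ℂ)).const_mul (D ^ 2)
      have e : (fun τ => D ^ 2 * (3 / (4 * z τ) + 2)) = fun τ => D ^ 2 * (3 / 4 * (z τ)⁻¹ + 2) := by
        funext x
        have := hz0 x
        field_simp
      rw [e]
      refine h4.congr_deriv ?_
      have := hz0 τ
      push_cast
      field_simp
      ring
    have h3 := deriv_zero_of hτ s2 (hre h2)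
    rw [Complex.re_ofReal_mul] at h3
    rcases mul_eq_zero.1 h3 with h | h
    · norm_num at h
    · exact h
  have s4 : ∀ τ ∈ Ioo (3 / 80 : ℝ) (7 / 80), (D ^ 4 / z τ ^ 5).re = 0 := by
    intro τ hτ
    have h1 := hz τ hτ
    have h2 : HasDerivAt (fun τ => D ^ 3 / z τ ^ 3) (((-3 / 2 : ℝ) : ℂ) * (D ^ 4 / z τ ^ 5)) τ := by
      have h4 : HasDerivAt (fun τ => D ^ 3 / z τ ^ 3) _ τ :=
        (hasDerivAt_const τ (D ^ 3)).div (h1.pow 3) (pow_ne_zero _ (hz0 τ))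
      refine h4.congr_deriv ?_
      have := hz0 τ
      push_cast
      field_simp
      ring
    have h3 := deriv_zero_of hτ s3 (hre h2)
    rw [Complex.re_ofReal_mul] at h3
    rcases mul_eq_zero.1 h3 with h | h
    · norm_num at h
    · exact h
  have hmid : (1 / 16 : ℝ) ∈ Ioo (3 / 80 : ℝ) (7 / 80) := ⟨by norm_num, by norm_num⟩
  exact algebra_fact (hz0 _) hD0 (s2 _ hmid) (s3 _ hmid) (s4 _ hmid)

end Pool.Agent.Helper253.Sad
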