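import Pool.Agent.Helper253.Sad.Wind

namespace Pool.Agent.Helper253.Sad

set_option linter.unusedSectionVars false

open Metric Set Topology

/-- no compact set of strict maxima inside `O` -/
def NoMax (g : ℂ → ℝ) (O : Set ℂ) : Prop :=
  ∀ (K V : Set ℂ) (m : ℝ), IsCompact K → K.Nonempty → IsOpen V → K ⊆ V → V ⊆ O →
    (∀ z ∈ K, g z = m) → (∀ z ∈ V, z ∉ K → g z < m) → False

def Rect (η τ1 τ2 : ℝ) : Set ℂ := {z | |z.re| ≤ η ∧ τ1 ≤ z.im ∧ z.im ≤ τ2}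

def ORect (η τ1 τ2 : ℝ) : Set ℂ := {z | |z.re| < η ∧ τ1 < z.im ∧ z.im < τ2}

lemma rect_eq (η τ1 τ2 : ℝ) : Rect η τ1 τ2 = Icc (-η) η ×ℂ Icc τ1 τ2 := by
  ext z
  simp [Rect, Complex.mem_reProdIm, abs_le]

lemma isCompact_rect (η τ1 τ2 : ℝ) : IsCompact (Rect η τ1 τ2) := by
  rw [rect_eq]
  exact isCompact_Icc.reProdIm isCompact_Icc

lemma convex_rect (η τ1 τ2 : ℝ) : Convex ℝ (Rect η τ1 τ2) := by
  have h1 : Convex ℝ {z : ℂ | z.re ≤ η} := convex_halfSpace_re_le _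
  have h2 : Convex ℝ {z : ℂ | -η ≤ z.re} := convex_halfSpace_re_ge _
  have h3 : Convex ℝ {z : ℂ | τ1 ≤ z.im} := convex_halfSpace_im_ge _
  have h4 : Convex ℝ {z : ℂ | z.im ≤ τ2} := convex_halfSpace_im_le _
  have h5 : Rect η τ1 τ2 = ({z : ℂ | -η ≤ z.re} ∩ {z : ℂ | z.re ≤ η}) ∩
      ({z : ℂ | τ1 ≤ z.im} ∩ {z : ℂ | z.im ≤ τ2}) := by
    ext z
    simp [Rect, abs_le]
  rw [h5]
  exact (h2.inter h1).inter (h3.inter h4)

lemma isOpen_orect (η τ1 τ2 : ℝ) : IsOpen (ORect η τ1 τ2) := by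
  have h1 : IsOpen {z : ℂ | |z.re| < η} := isOpen_lt (by fun_prop) continuous_const
  have h2 : IsOpen {z : ℂ | τ1 < z.im} := isOpen_lt continuous_const Complex.continuous_im
  have h3 : IsOpen {z : ℂ | z.im < τ2} := isOpen_lt Complex.continuous_im continuous_const
  exact (h1.inter (h2.inter h3))

lemma orect_subset (η τ1 τ2 : ℝ) : ORect η τ1 τ2 ⊆ Rect η τ1 τ2 :=
  fun _ hz => ⟨hz.1.le, hz.2.1.le, hz.2.2.le⟩

def RelOpen (W S : Set ℂ) : Prop := ∀ y ∈ S, ∃ ε > 0, W ∩ ball y ε ⊆ S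

lemma joined_ball {W S : Set ℂ} (hW : Convex ℝ W) {y z : ℂ} {ε : ℝ} (hε : 0 < ε)
    (hS : W ∩ ball y ε ⊆ S) (hy : y ∈ W) (hz : z ∈ W) (hzy : dist z y < ε) : JoinedIn S y z :=
  (((hW.inter (convex_ball y ε)).isPathConnected ⟨y, hy, mem_ball_self hε⟩).joinedIn y
    ⟨hy, mem_ball_self hε⟩ z ⟨hz, hzy⟩).mono hS

lemma joined_segment {S C : Set ℂ} (hC : Convex ℝ C) (hCS : C ⊆ S) {y z : ℂ} (hy : y ∈ C)
    (hz : z ∈ C) : JoinedIn S y z :=
  ((hC.isPathConnected ⟨y, hy⟩).joinedIn y hy z hz).mono hCS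

lemma RelOpen.pathComp {W S : Set ℂ} (hW : Convex ℝ W) (hSW : S ⊆ W) (hS : RelOpen W S) (x : ℂ) :
    RelOpen W (pathComponentIn S x) := by
  intro y hy
  have hy' : JoinedIn S x y := hy
  obtain ⟨ε, hε, hsub⟩ := hS y hy'.mem.2
  refine ⟨ε, hε, fun z hz => ?_⟩
  exact hy'.trans (joined_ball hW hε hsub (hSW hy'.mem.2) hz.1 hz.2)

lemma RelOpen.closure_pathComp {W S : Set ℂ} (hW : Convex ℝ W) (hSW : S ⊆ W) (hS : RelOpen W S)
    {x y : ℂ} (hy : y ∈ closure (pathComponentIn S x)) (hyS : y ∈ S) :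
    y ∈ pathComponentIn S x := by
  obtain ⟨ε, hε, hsub⟩ := hS y hyS
  obtain ⟨u, hu, hyu⟩ := Metric.mem_closure_iff.1 hy ε hε
  have hu' : JoinedIn S x u := hu
  rw [dist_comm] at hyu
  exact hu'.trans (joined_ball hW hε hsub (hSW hyS) (hSW hu'.mem.2) hyu).symm

lemma relOpen_diff {W C : Set ℂ} (hC : IsClosed C) : RelOpen W (W \ C) := by
  intro y hy
  obtain ⟨ε, hε, hsub⟩ := Metric.isOpen_iff.1 hC.isOpen_compl y hy.2
  exact ⟨ε, hε, fun z hz => ⟨hz.1, hsub hz.2⟩⟩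

lemma relOpen_pos {W : Set ℂ} {F : ℂ → ℝ} (hF : ContinuousOn F W) :
    RelOpen W (W ∩ {z | 0 < F z}) := by
  intro y hy
  have h1 : ∀ᶠ z in 𝓝[W] y, 0 < F z := (hF y hy.1).eventually (lt_mem_nhds hy.2)
  obtain ⟨ε, hε, hsub⟩ := Metric.mem_nhdsWithin_iff.1 h1
  exact ⟨ε, hε, fun z hz => ⟨hz.1, hsub ⟨hz.2, hz.1⟩⟩⟩

lemma RelOpen.isClosed_diff {W S : Set ℂ} (hWc : IsClosed W) (hS : RelOpen W S) :
    IsClosed (W \ S) := by
  refine isClosed_of_closure_subset fun y hy => ?_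
  have hyW : y ∈ W := closure_minimal sdiff_subset hWc hy
  refine ⟨hyW, fun hyS => ?_⟩
  obtain ⟨ε, hε, hsub⟩ := hS y hyS
  obtain ⟨u, hu, hyu⟩ := Metric.mem_closure_iff.1 hy ε hε
  rw [dist_comm] at hyu
  exact hu.2 (hsub ⟨hu.1, hyu⟩)

/-- the component of the start of the crossing path -/
def US (W : Set ℂ) (F : ℂ → ℝ) (x0 : ℂ) : Set ℂ := pathComponentIn (W ∩ {z | 0 < F z}) x0

/-- the region to the right of it -/
def Om (W : Set ℂ) (F : ℂ → ℝ) (x0 r0 : ℂ) : Set ℂ := pathComponentIn (W \ closure (US W F x0)) r0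

noncomputable def mL (W : Set ℂ) (F : ℂ → ℝ) (x0 r0 : ℂ) (g : ℂ → ℝ) : ℝ :=
  sSup (g '' (W \ Om W F x0 r0))

noncomputable def mR (W : Set ℂ) (F : ℂ → ℝ) (x0 r0 : ℂ) (g : ℂ → ℝ) : ℝ :=
  sSup (g '' (closure (Om W F x0 r0)))

section core

variable {η δ lam B G1 G2 τ1 τm τ2 : ℝ} {F G : ℂ → ℝ} {x0 x1 : ℂ}

/-- the data of a window -/
structure Win (η δ lam B G1 G2 τ1 τm τ2 : ℝ) (F G : ℂ → ℝ) : Prop where
  hF : ContinuousOn F (Rect η τ1 τ2)
  hG : ContinuousOn G (Rect η τ1 τ2)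
  hδ : 0 < δ
  hη : δ < η
  h1 : τ1 < τm
  h2 : τm < τ2
  hFa : ∀ z ∈ Rect η τ1 τ2, |F z - z.re| ≤ δ
  hB : ∀ z ∈ Rect η τ1 τ2, G z ≤ B
  hG1 : ∀ z ∈ Rect η τ1 τ2, z.im = τ1 ∨ z.im = τ2 → G z ≤ G1
  hG2 : ∀ z ∈ Rect η τ1 τ2, z.im = τm → |z.re| ≤ δ → G2 ≤ G z
  hlam : 0 < lam
  hl1 : B - lam * (η - δ) < G2
  hl2 : G1 + 2 * lam * δ < G2
  nmL : NoMax (fun z => G z + lam * F z) (ORect η τ1 τ2)
  nmR : NoMax (fun z => G z - lam * F z) (ORect η τ1 τ2)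

variable (h : Win η δ lam B G1 G2 τ1 τm τ2 F G)
  (hj : JoinedIn (Rect η τ1 τ2 ∩ {z | 0 < F z}) x0 x1) (hx0 : x0.im = τ1) (hx1 : x1.im = τ2)
  (hn : ¬ JoinedIn (Rect η τ1 τ2 ∩ {z | 0 < F z}) x0 ⟨η, τ1⟩)

include h

lemma Win.r0_mem : (⟨η, τ1⟩ : ℂ) ∈ Rect η τ1 τ2 := by
  have := h.hδ; have := h.hη; have := h.h1; have := h.h2
  refine ⟨?_, le_refl _, ?_⟩
  · rw [abs_of_pos (by simp; linarith)]
  · simp; linarith

lemma Win.us_subset : US (Rect η τ1 τ2) F x0 ⊆ Rect η τ1 τ2 ∩ {z | 0 < F z} :=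
  fun _ hy => (show JoinedIn _ _ _ from hy).mem.2

lemma Win.om_subset : Om (Rect η τ1 τ2) F x0 ⟨η, τ1⟩ ⊆
    Rect η τ1 τ2 \ closure (US (Rect η τ1 τ2) F x0) :=
  fun _ hy => (show JoinedIn _ _ _ from hy).mem.2

lemma Win.us_relOpen : RelOpen (Rect η τ1 τ2) (US (Rect η τ1 τ2) F x0) :=
  (relOpen_pos h.hF).pathComp (convex_rect _ _ _) inter_subset_left x0

lemma Win.om_relOpen : RelOpen (Rect η τ1 τ2) (Om (Rect η τ1 τ2) F x0 ⟨η, τ1⟩) :=
  (relOpen_diff isClosed_closure).pathComp (convex_rect _ _ _) sdiff_subset _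

/-- points of the closure of the component with `F > 0` belong to it -/
lemma Win.us_of_closure {y : ℂ} (hy : y ∈ closure (US (Rect η τ1 τ2) F x0)) (hF : 0 < F y) :
    y ∈ US (Rect η τ1 τ2) F x0 := by
  have hyW : y ∈ Rect η τ1 τ2 := closure_minimal (h.us_subset.trans inter_subset_left)
    (isCompact_rect _ _ _).isClosed hy
  exact (relOpen_pos h.hF).closure_pathComp (convex_rect _ _ _) inter_subset_left hy ⟨hyW, hF⟩

lemma Win.closure_us {y : ℂ} (hy : y ∈ closure (US (Rect η τ1 τ2) F x0)) :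
    y ∈ Rect η τ1 τ2 ∧ 0 ≤ F y := by
  have hyW : y ∈ Rect η τ1 τ2 := closure_minimal (h.us_subset.trans inter_subset_left)
    (isCompact_rect _ _ _).isClosed hy
  refine ⟨hyW, ?_⟩
  have hcl : IsClosed (Rect η τ1 τ2 ∩ F ⁻¹' (Ici 0)) :=
    h.hF.preimage_isClosed_of_isClosed (isCompact_rect _ _ _).isClosed isClosed_Ici
  have hsub : US (Rect η τ1 τ2) F x0 ⊆ Rect η τ1 τ2 ∩ F ⁻¹' (Ici 0) := fun z hz =>
    ⟨(h.us_subset hz).1, (show 0 < F z from (h.us_subset hz).2).le⟩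
  exact (closure_minimal hsub hcl hy).2

/-- boundary points of the right region -/
lemma Win.bdry {y : ℂ} (hy : y ∈ closure (Om (Rect η τ1 τ2) F x0 ⟨η, τ1⟩))
    (hy' : y ∉ Om (Rect η τ1 τ2) F x0 ⟨η, τ1⟩) : F y = 0 ∧ y ∈ Rect η τ1 τ2 := by
  have hyW : y ∈ Rect η τ1 τ2 := closure_minimal (h.om_subset.trans sdiff_subset)
    (isCompact_rect _ _ _).isClosed hy
  have hyU : y ∈ closure (US (Rect η τ1 τ2) F x0) := by
    by_contra hcon
    exact hy' ((relOpen_diff isClosed_closure).closure_pathComp (convex_rect _ _ _) sdiff_subset hy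
      ⟨hyW, hcon⟩)
  refine ⟨?_, hyW⟩
  rcases (h.closure_us hyU).2.lt_or_eq with hpos | h0
  · exfalso
    have hyU' := h.us_of_closure hyU hpos
    obtain ⟨ε, hε, hsub⟩ := h.us_relOpen y hyU'
    obtain ⟨u, hu, hyu⟩ := Metric.mem_closure_iff.1 hy ε hε
    rw [dist_comm] at hyu
    have hu' := h.om_subset hu
    exact hu'.2 (subset_closure (hsub ⟨hu'.1, hyu⟩))
  · exact h0.symm

include hn

lemma Win.right_om {z : ℂ} (hz : z ∈ Rect η τ1 τ2) (hz' : δ < z.re) :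
    z ∈ Om (Rect η τ1 τ2) F x0 ⟨η, τ1⟩ := by
  have hconv : Convex ℝ (Rect η τ1 τ2 ∩ {z | δ < z.re}) :=
    (convex_rect _ _ _).inter (convex_halfSpace_re_gt _)
  have hpos : ∀ y ∈ Rect η τ1 τ2 ∩ {z | δ < z.re}, 0 < F y := by
    intro y hy
    have h3 := abs_le.1 (h.hFa y hy.1)
    have h4 : δ < y.re := hy.2
    linarith
  have hr : (⟨η, τ1⟩ : ℂ) ∈ Rect η τ1 τ2 ∩ {z | δ < z.re} := ⟨h.r0_mem, h.hη⟩
  refine joined_segment hconv ?_ hr ⟨hz, hz'⟩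
  intro y hy
  refine ⟨hy.1, fun hyU => hn ?_⟩
  have h5 : JoinedIn (Rect η τ1 τ2 ∩ {z | 0 < F z}) x0 y := h.us_of_closure hyU (hpos y hy)
  have hsub : Rect η τ1 τ2 ∩ {z | δ < z.re} ⊆ Rect η τ1 τ2 ∩ {z | 0 < F z} :=
    fun w hw => ⟨hw.1, hpos w hw⟩
  exact h5.trans (joined_segment hconv hsub hy hr)

include hj hx0 hx1

lemma Win.left_om {z : ℂ} (hz : z ∈ Om (Rect η τ1 τ2) F x0 ⟨η, τ1⟩) : -δ ≤ z.re := by
  by_contra hcon
  push Not at hcon
  have hzW := (h.om_subset hz).1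
  have hconv : Convex ℝ (Rect η τ1 τ2 ∩ {z | z.re < -δ}) :=
    (convex_rect _ _ _).inter (convex_halfSpace_re_lt _)
  have hz1 : (⟨-η, z.im⟩ : ℂ) ∈ Rect η τ1 τ2 ∩ {z | z.re < -δ} := by
    have := h.hδ; have := h.hη
    refine ⟨⟨?_, hzW.2.1, hzW.2.2⟩, ?_⟩
    · rw [abs_neg, abs_of_pos (by linarith)]
    · simp only [mem_ofPred_eq]; linarith
  have hsub : Rect η τ1 τ2 ∩ {z | z.re < -δ} ⊆
      Rect η τ1 τ2 \ closure (US (Rect η τ1 τ2) F x0) := by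
    intro y hy
    refine ⟨hy.1, fun hyU => ?_⟩
    have h3 := abs_le.1 (h.hFa y hy.1)
    have h4 : y.re < -δ := hy.2
    have h5 := (h.closure_us hyU).2
    linarith
  have hB : JoinedIn (Rect η τ1 τ2 \ closure (US (Rect η τ1 τ2) F x0)) ⟨-η, z.im⟩ ⟨η, τ1⟩ :=
    (joined_segment hconv hsub hz1 ⟨hzW, hcon⟩).trans (JoinedIn.symm hz)
  have hA : JoinedIn (US (Rect η τ1 τ2) F x0) x0 x1 :=
    (isPathConnected_pathComponentIn hj.mem.1).joinedIn x0 (mem_pathComponentIn_self hj.mem.1) x1 hj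
  obtain ⟨y, hy1, hy2⟩ := cross_joined hA hB
    (fun y hy => (abs_le.1 (h.us_subset hy).1.1).1) (fun y hy => (abs_le.1 (h.us_subset hy).1.1).2)
    (fun y hy => by rw [hx0]; exact hy.1.2.1) (fun y hy => by rw [hx1]; exact hy.1.2.2)
  exact hy2.2 (subset_closure hy1)

lemma Win.left_om_closure {z : ℂ} (hz : z ∈ closure (Om (Rect η τ1 τ2) F x0 ⟨η, τ1⟩)) :
    -δ ≤ z.re :=
  closure_minimal (t := {z : ℂ | -δ ≤ z.re}) (fun _ hy => h.left_om hj hx0 hx1 hn hy)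
    (isClosed_le continuous_const Complex.continuous_re) hz

lemma Win.exists_left : ∃ z ∈ Rect η τ1 τ2 \ Om (Rect η τ1 τ2) F x0 ⟨η, τ1⟩,
    G2 ≤ G z + lam * F z := by
  have hA : JoinedIn (US (Rect η τ1 τ2) F x0) x0 x1 :=
    (isPathConnected_pathComponentIn hj.mem.1).joinedIn x0 (mem_pathComponentIn_self hj.mem.1) x1 hj
  have hc : Continuous (fun t => (hA.somePath t).im) := by fun_prop
  have h3 : τm ∈ Icc ((hA.somePath 0).im) ((hA.somePath 1).im) := by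
    simp only [Path.source, Path.target, hx0, hx1]
    exact ⟨h.h1.le, h.h2.le⟩
  obtain ⟨t, ht⟩ := mem_range_of_exists_le_of_exists_ge hc ⟨0, h3.1⟩ ⟨1, h3.2⟩
  have hy := hA.somePath_mem t
  set y := hA.somePath t with hydef
  have hyW := h.us_subset hy
  have hyO : y ∉ Om (Rect η τ1 τ2) F x0 ⟨η, τ1⟩ := fun hcon =>
    (h.om_subset hcon).2 (subset_closure hy)
  have h4 : y.re ≤ δ := by
    by_contra hcon
    exact hyO (h.right_om hn hyW.1 (not_le.1 hcon))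
  have h5 := abs_le.1 (h.hFa y hyW.1)
  have h6 : 0 < F y := hyW.2
  refine ⟨y, ⟨hyW.1, hyO⟩, ?_⟩
  have h7 := h.hG2 y hyW.1 ht (abs_le.2 ⟨by linarith, h4⟩)
  have := mul_pos h.hlam h6
  linarith

lemma Win.exists_right : ∃ z ∈ closure (Om (Rect η τ1 τ2) F x0 ⟨η, τ1⟩),
    G2 ≤ G z - lam * F z := by
  have := h.hδ
  have := h.hη
  let φ : unitInterval → ℂ := fun s => ⟨η - 2 * η * s, τm⟩
  have hφ : Continuous φ := by
    have : φ = fun s : unitInterval => ((η - 2 * η * (s : ℝ) : ℝ) : ℂ) + (τm : ℂ) * Complex.I := by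
      funext s
      apply Complex.ext <;> simp [φ]
    rw [this]; fun_prop
  have hφW : ∀ s, φ s ∈ Rect η τ1 τ2 := by
    intro s
    have h0 := s.2.1
    have h1 := s.2.2
    refine ⟨?_, h.h1.le, h.h2.le⟩
    simp only [φ]
    rw [abs_le]; constructor <;> nlinarith
  let A : Set unitInterval := {s | φ s ∈ Om (Rect η τ1 τ2) F x0 ⟨η, τ1⟩}
  have hA0 : (0 : unitInterval) ∈ A := h.right_om hn (hφW 0) (by simp [φ]; linarith)
  have hA1 : (1 : unitInterval) ∉ A := by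
    intro hcon
    have h3 := h.left_om hj hx0 hx1 hn hcon
    simp only [φ, Set.Icc.coe_one] at h3
    linarith
  have hAo : IsOpen A := by
    rw [isOpen_iff_mem_nhds]
    intro s hs
    obtain ⟨ε, hε, hsub⟩ := h.om_relOpen (φ s) hs
    have h4 : ∀ᶠ t in 𝓝 s, φ t ∈ ball (φ s) ε := hφ.continuousAt (ball_mem_nhds _ hε)
    filter_upwards [h4] with t ht
    exact hsub ⟨hφW t, ht⟩
  have hAc : ¬ IsClosed A := by
    intro hcl
    rcases isClopen_iff.1 ⟨hcl, hAo⟩ with h5 | h5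
    · rw [h5] at hA0; exact hA0
    · rw [h5] at hA1; exact hA1 (mem_univ _)
  obtain ⟨s, hs, hsA⟩ : ∃ s, s ∈ closure A ∧ s ∉ A := by
    by_contra hcon
    push Not at hcon
    exact hAc (isClosed_of_closure_subset hcon)
  have hs' : φ s ∈ closure (Om (Rect η τ1 τ2) F x0 ⟨η, τ1⟩) :=
    map_mem_closure hφ hs (fun t ht => ht)
  obtain ⟨hF0, -⟩ := h.bdry hs' hsA
  refine ⟨φ s, hs', ?_⟩
  have h6 := h.hFa _ (hφW s)
  rw [hF0, zero_sub, abs_neg] at h6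
  have h7 := h.hG2 _ (hφW s) rfl h6
  rw [hF0]; linarith

/-- the two maxima agree -/
lemma Win.eq_max : mL (Rect η τ1 τ2) F x0 ⟨η, τ1⟩ (fun z => G z + lam * F z) =
    mR (Rect η τ1 τ2) F x0 ⟨η, τ1⟩ (fun z => G z - lam * F z) := by
  have hδ := h.hδ
  have hη := h.hη
  have hlam := h.hlam
  have hWc := (isCompact_rect η τ1 τ2).isClosed
  have hCLc : IsCompact (Rect η τ1 τ2 \ Om (Rect η τ1 τ2) F x0 ⟨η, τ1⟩) :=
    (isCompact_rect η τ1 τ2).of_isClosed_subset (h.om_relOpen.isClosed_diff hWc) sdiff_subset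
  have hOW : closure (Om (Rect η τ1 τ2) F x0 ⟨η, τ1⟩) ⊆ Rect η τ1 τ2 :=
    closure_minimal (h.om_subset.trans sdiff_subset) hWc
  have hCRc : IsCompact (closure (Om (Rect η τ1 τ2) F x0 ⟨η, τ1⟩)) :=
    (isCompact_rect η τ1 τ2).of_isClosed_subset isClosed_closure hOW
  have hgL : ContinuousOn (fun z => G z + lam * F z) (Rect η τ1 τ2) :=
    h.hG.add (continuousOn_const.mul h.hF)
  have hgR : ContinuousOn (fun z => G z - lam * F z) (Rect η τ1 τ2) :=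
    h.hG.sub (continuousOn_const.mul h.hF)
  obtain ⟨zl, hzl, hzl2⟩ := h.exists_left hj hx0 hx1 hn
  obtain ⟨zr, hzr, hzr2⟩ := h.exists_right hj hx0 hx1 hn
  set ML := mL (Rect η τ1 τ2) F x0 ⟨η, τ1⟩ (fun z => G z + lam * F z) with hML
  set MR := mR (Rect η τ1 τ2) F x0 ⟨η, τ1⟩ (fun z => G z - lam * F z) with hMR
  have hLle : ∀ z ∈ Rect η τ1 τ2 \ Om (Rect η τ1 τ2) F x0 ⟨η, τ1⟩, G z + lam * F z ≤ ML :=
    fun z hz => le_csSup (hCLc.image_of_continuousOn (hgL.mono sdiff_subset)).bddAbove ⟨z, hz, rfl⟩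
  have hRle : ∀ z ∈ closure (Om (Rect η τ1 τ2) F x0 ⟨η, τ1⟩), G z - lam * F z ≤ MR :=
    fun z hz => le_csSup (hCRc.image_of_continuousOn (hgR.mono hOW)).bddAbove ⟨z, hz, rfl⟩
  -- maxima are attained in the interior
  have hLint : ∀ z ∈ Rect η τ1 τ2 \ Om (Rect η τ1 τ2) F x0 ⟨η, τ1⟩, G z + lam * F z = ML →
      z ∈ ORect η τ1 τ2 := by
    intro z hz hzM
    have h3 : G2 ≤ G z + lam * F z := hzM ▸ hzl2.trans (hLle zl hzl)
    have h4 : z.re ≤ δ := by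
      by_contra hcon
      exact hz.2 (h.right_om hn hz.1 (not_le.1 hcon))
    have h5 := abs_le.1 (h.hFa z hz.1)
    have h6 := hz.1
    have h7 : ¬ (z.im = τ1 ∨ z.im = τ2) := by
      intro hcon
      have h8 := h.hG1 z hz.1 hcon
      have h9 : lam * F z ≤ lam * (2 * δ) := mul_le_mul_of_nonneg_left (by linarith) hlam.le
      have := h.hl2
      nlinarith
    push Not at h7
    refine ⟨?_, lt_of_le_of_ne h6.2.1 (Ne.symm h7.1), lt_of_le_of_ne h6.2.2 h7.2⟩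
    rw [abs_lt]
    refine ⟨?_, by linarith⟩
    refine lt_of_le_of_ne (abs_le.1 h6.1).1 fun hre => ?_
    have h8 := h.hB z hz.1
    have h9 : lam * F z ≤ lam * (-(η - δ)) := mul_le_mul_of_nonneg_left (by linarith) hlam.le
    have := h.hl1
    nlinarith
  have hRint : ∀ z ∈ closure (Om (Rect η τ1 τ2) F x0 ⟨η, τ1⟩), G z - lam * F z = MR →
      z ∈ ORect η τ1 τ2 := by
    intro z hz hzM
    have h3 : G2 ≤ G z - lam * F z := hzM ▸ hzr2.trans (hRle zr hzr)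
    have h4 := h.left_om_closure hj hx0 hx1 hn hz
    have h5 := abs_le.1 (h.hFa z (hOW hz))
    have h6 := hOW hz
    have h7 : ¬ (z.im = τ1 ∨ z.im = τ2) := by
      intro hcon
      have h8 := h.hG1 z h6 hcon
      have h9 : lam * (-(2 * δ)) ≤ lam * F z := mul_le_mul_of_nonneg_left (by linarith) hlam.le
      have := h.hl2
      nlinarith
    push Not at h7
    refine ⟨?_, lt_of_le_of_ne h6.2.1 (Ne.symm h7.1), lt_of_le_of_ne h6.2.2 h7.2⟩
    rw [abs_lt]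
    refine ⟨by linarith, ?_⟩
    refine lt_of_le_of_ne (abs_le.1 h6.1).2 fun hre => ?_
    have h8 := h.hB z h6
    have h9 : lam * (η - δ) ≤ lam * F z := mul_le_mul_of_nonneg_left (by linarith) hlam.le
    have := h.hl1
    nlinarith
  rcases lt_trichotomy ML MR with hlt | heq | hgt
  · exfalso
    let K : Set ℂ := {z | z ∈ closure (Om (Rect η τ1 τ2) F x0 ⟨η, τ1⟩) ∧ G z - lam * F z = MR}
    have hKO : ∀ z ∈ K, z ∈ Om (Rect η τ1 τ2) F x0 ⟨η, τ1⟩ := by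
      intro z hz
      by_contra hcon
      obtain ⟨hF0, hzW⟩ := h.bdry hz.1 hcon
      have h3 := hLle z ⟨hzW, hcon⟩
      have h4 := hz.2
      rw [hF0] at h3 h4
      linarith
    have hKc : IsCompact K := by
      have : IsClosed (closure (Om (Rect η τ1 τ2) F x0 ⟨η, τ1⟩) ∩
          (fun z => G z - lam * F z) ⁻¹' {MR}) :=
        (hgR.mono hOW).preimage_isClosed_of_isClosed isClosed_closure isClosed_singleton
      exact hCRc.of_isClosed_subset this (fun z hz => hz.1)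
    have hKne : K.Nonempty := by
      obtain ⟨z, hz, hz2⟩ := hCRc.exists_isMaxOn ⟨zr, hzr⟩ (hgR.mono hOW)
      refine ⟨z, hz, le_antisymm (hRle z hz) ?_⟩
      refine csSup_le ⟨_, ⟨zr, hzr, rfl⟩⟩ ?_
      rintro _ ⟨w, hw, rfl⟩
      exact hz2 hw
    have hVo : IsOpen (ORect η τ1 τ2 ∩ Om (Rect η τ1 τ2) F x0 ⟨η, τ1⟩) := by
      rw [Metric.isOpen_iff]
      rintro y ⟨hy1, hy2⟩
      obtain ⟨ε1, hε1, hs1⟩ := Metric.isOpen_iff.1 (isOpen_orect η τ1 τ2) y hy1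
      obtain ⟨ε2, hε2, hs2⟩ := h.om_relOpen y hy2
      refine ⟨min ε1 ε2, lt_min hε1 hε2, fun w hw => ?_⟩
      have hw1 : w ∈ ORect η τ1 τ2 := hs1 (ball_subset_ball (min_le_left _ _) hw)
      exact ⟨hw1, hs2 ⟨orect_subset _ _ _ hw1, ball_subset_ball (min_le_right _ _) hw⟩⟩
    refine h.nmR K (ORect η τ1 τ2 ∩ Om (Rect η τ1 τ2) F x0 ⟨η, τ1⟩) MR hKc hKne hVo
      (fun z hz => ⟨hRint z hz.1 hz.2, hKO z hz⟩) inter_subset_left (fun z hz => hz.2) ?_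
    intro z hz hzK
    refine lt_of_le_of_ne (hRle z (subset_closure hz.2)) fun hcon => hzK ⟨subset_closure hz.2, hcon⟩
  · exact heq
  · exfalso
    obtain ⟨κ, hκ, hκ2⟩ : ∃ κ > 0, MR + 2 * lam * κ < ML := by
      refine ⟨(ML - MR) / (4 * lam), by have := sub_pos.2 hgt; positivity, ?_⟩
      have : 2 * lam * ((ML - MR) / (4 * lam)) = (ML - MR) / 2 := by field_simp; ring
      rw [this]; linarith
    let K : Set ℂ := {z | z ∈ Rect η τ1 τ2 \ Om (Rect η τ1 τ2) F x0 ⟨η, τ1⟩ ∧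
      G z + lam * F z = ML}
    let D : Set ℂ := closure (Om (Rect η τ1 τ2) F x0 ⟨η, τ1⟩) ∩ F ⁻¹' (Ici κ)
    have hDc : IsClosed D := (h.hF.mono hOW).preimage_isClosed_of_isClosed isClosed_closure
      isClosed_Ici
    have hKc : IsCompact K := by
      have : IsClosed ((Rect η τ1 τ2 \ Om (Rect η τ1 τ2) F x0 ⟨η, τ1⟩) ∩
          (fun z => G z + lam * F z) ⁻¹' {ML}) :=
        (hgL.mono sdiff_subset).preimage_isClosed_of_isClosed (h.om_relOpen.isClosed_diff hWc)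
          isClosed_singleton
      exact hCLc.of_isClosed_subset this (fun z hz => hz.1)
    have hKne : K.Nonempty := by
      obtain ⟨z, hz, hz2⟩ := hCLc.exists_isMaxOn ⟨zl, hzl⟩ (hgL.mono sdiff_subset)
      refine ⟨z, hz, le_antisymm (hLle z hz) ?_⟩
      refine csSup_le ⟨_, ⟨zl, hzl, rfl⟩⟩ ?_
      rintro _ ⟨w, hw, rfl⟩
      exact hz2 hw
    refine h.nmL K (ORect η τ1 τ2 \ D) ML hKc hKne
      ((isOpen_orect η τ1 τ2).sdiff hDc)
      (fun z hz => ⟨hLint z hz.1 hz.2, fun hD => ?_⟩) sdiff_subset (fun z hz => hz.2) ?_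
    · have h3 := (h.bdry hD.1 hz.1.2).1
      have h4 : κ ≤ F z := hD.2
      linarith
    · intro z hz hzK
      have hzW := orect_subset _ _ _ hz.1
      by_cases hzO : z ∈ Om (Rect η τ1 τ2) F x0 ⟨η, τ1⟩
      · have h3 : F z < κ := by
          by_contra hcon
          exact hz.2 ⟨subset_closure hzO, not_lt.1 hcon⟩
        have h4 := hRle z (subset_closure hzO)
        have h5 : lam * F z < lam * κ := mul_lt_mul_of_pos_left h3 hlam
        show G z + lam * F z < ML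
        nlinarith
      · exact lt_of_le_of_ne (hLle z ⟨hzW, hzO⟩) fun hcon => hzK ⟨⟨hzW, hzO⟩, hcon⟩

end core

lemma Win.le_mL {η δ lam B G1 G2 τ1 τm τ2 : ℝ} {F G : ℂ → ℝ} {x0 : ℂ}
    (h : Win η δ lam B G1 G2 τ1 τm τ2 F G) {z : ℂ}
    (hz : z ∈ Rect η τ1 τ2 \ Om (Rect η τ1 τ2) F x0 ⟨η, τ1⟩) :
    G z + lam * F z ≤ mL (Rect η τ1 τ2) F x0 ⟨η, τ1⟩ (fun z => G z + lam * F z) := by
  have hgL : ContinuousOn (fun z => G z + lam * F z) (Rect η τ1 τ2) :=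
    h.hG.add (continuousOn_const.mul h.hF)
  have h1 := ((isCompact_rect η τ1 τ2).image_of_continuousOn hgL).bddAbove
  exact le_csSup (h1.mono (image_mono sdiff_subset)) ⟨z, hz, rfl⟩

lemma Win.le_mR {η δ lam B G1 G2 τ1 τm τ2 : ℝ} {F G : ℂ → ℝ} {x0 : ℂ}
    (h : Win η δ lam B G1 G2 τ1 τm τ2 F G) {z : ℂ}
    (hz : z ∈ closure (Om (Rect η τ1 τ2) F x0 ⟨η, τ1⟩)) :
    G z - lam * F z ≤ mR (Rect η τ1 τ2) F x0 ⟨η, τ1⟩ (fun z => G z - lam * F z) := by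
  have hgL : ContinuousOn (fun z => G z - lam * F z) (Rect η τ1 τ2) :=
    h.hG.sub (continuousOn_const.mul h.hF)
  have h1 := ((isCompact_rect η τ1 τ2).image_of_continuousOn hgL).bddAbove
  have hOW : closure (Om (Rect η τ1 τ2) F x0 ⟨η, τ1⟩) ⊆ Rect η τ1 τ2 :=
    closure_minimal (h.om_subset.trans sdiff_subset) (isCompact_rect η τ1 τ2).isClosed
  exact le_csSup (h1.mono (image_mono hOW)) ⟨z, hz, rfl⟩

lemma NoMax.sub_const {g g' : ℂ → ℝ} {O : Set ℂ} (h : NoMax g O) (c : ℝ)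
    (hg : ∀ z, g' z = g z - c) : NoMax g' O := by
  intro K V m hK hKne hV hKV hVO h1 h2
  refine h K V (m + c) hK hKne hV hKV hVO (fun z hz => ?_) (fun z hz hz' => ?_)
  · have := h1 z hz; rw [hg] at this; linarith
  · have := h2 z hz hz'; rw [hg] at this; linarith

lemma NoMax.mono {g : ℂ → ℝ} {O O' : Set ℂ} (h : NoMax g O) (hO : O' ⊆ O) : NoMax g O' :=
  fun K V m hK hKne hV hKV hVO h1 h2 => h K V m hK hKne hV hKV (hVO.trans hO) h1 h2

/-- a crossing path of the window inside the positive set is joined to the right edge -/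
theorem Win.join {η δ lam B G1 G2 τ1 τm τ2 : ℝ} {F G : ℂ → ℝ} {x0 x1 : ℂ}
    (h : Win η δ lam B G1 G2 τ1 τm τ2 F G) (hFa : ∀ z ∈ Rect η τ1 τ2, |F z - z.re| ≤ δ / 2)
    (hj : JoinedIn (Rect η τ1 τ2 ∩ {z | 0 < F z}) x0 x1) (hx0 : x0.im = τ1) (hx1 : x1.im = τ2) :
    JoinedIn (Rect η τ1 τ2 ∩ {z | 0 < F z}) x0 ⟨η, τ1⟩ := by
  by_contra hn
  have hδ := h.hδ
  obtain ⟨c, hc, hcδ, hj'⟩ : ∃ c > 0, c ≤ δ / 2 ∧
      JoinedIn (Rect η τ1 τ2 ∩ {z | 0 < F z - c}) x0 x1 := by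
    have hcont : Continuous (fun t => F (hj.somePath t)) :=
      h.hF.comp_continuous hj.somePath.continuous (fun t => (hj.somePath_mem t).1)
    obtain ⟨t, -, ht⟩ := isCompact_univ.exists_isMinOn (univ_nonempty (α := unitInterval))
      hcont.continuousOn
    have hpos : 0 < F (hj.somePath t) := (hj.somePath_mem t).2
    refine ⟨min (F (hj.somePath t) / 2) (δ / 2), by positivity, min_le_right _ _,
      hj.somePath, fun s => ⟨(hj.somePath_mem s).1, ?_⟩⟩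
    have h1 : F (hj.somePath t) ≤ F (hj.somePath s) := ht (mem_univ s)
    have h2 := min_le_left (F (hj.somePath t) / 2) (δ / 2)
    show 0 < F (hj.somePath s) - _
    linarith
  have h' : Win η δ lam B G1 G2 τ1 τm τ2 (fun z => F z - c) G :=
    { hF := h.hF.sub continuousOn_const
      hG := h.hG
      hδ := h.hδ
      hη := h.hη
      h1 := h.h1
      h2 := h.h2
      hFa := fun z hz => by
        have h3 := abs_le.1 (hFa z hz)
        rw [abs_le]; constructor <;> linarith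
      hB := h.hB
      hG1 := h.hG1
      hG2 := h.hG2
      hlam := h.hlam
      hl1 := h.hl1
      hl2 := h.hl2
      nmL := h.nmL.sub_const (lam * c) (fun z => by ring)
      nmR := h.nmR.sub_const (-(lam * c)) (fun z => by ring) }
  have hsub : Rect η τ1 τ2 ∩ {z | 0 < F z - c} ⊆ Rect η τ1 τ2 ∩ {z | 0 < F z} := by
    rintro z ⟨hz, hz2⟩
    refine ⟨hz, ?_⟩
    have : 0 < F z - c := hz2
    show 0 < F z
    linarith
  have hn' : ¬ JoinedIn (Rect η τ1 τ2 ∩ {z | 0 < F z - c}) x0 ⟨η, τ1⟩ :=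
    fun hcon => hn (hcon.mono hsub)
  have e1 := h.eq_max hj hx0 hx1 hn
  have e2 := h'.eq_max hj' hx0 hx1 hn'
  have hUS : US (Rect η τ1 τ2) (fun z => F z - c) x0 ⊆ US (Rect η τ1 τ2) F x0 :=
    fun z hz => JoinedIn.mono hz hsub
  have hOm : Om (Rect η τ1 τ2) F x0 ⟨η, τ1⟩ ⊆ Om (Rect η τ1 τ2) (fun z => F z - c) x0 ⟨η, τ1⟩ :=
    fun z hz => JoinedIn.mono hz (sdiff_subset_sdiff_right (closure_mono hUS))
  have i1 : mL (Rect η τ1 τ2) (fun z => F z - c) x0 ⟨η, τ1⟩ (fun z => G z + lam * (F z - c)) ≤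
      mL (Rect η τ1 τ2) F x0 ⟨η, τ1⟩ (fun z => G z + lam * F z) - lam * c := by
    obtain ⟨zl, hzl, -⟩ := h'.exists_left hj' hx0 hx1 hn'
    refine csSup_le ⟨_, ⟨zl, hzl, rfl⟩⟩ ?_
    rintro _ ⟨w, hw, rfl⟩
    have := h.le_mL (x0 := x0) (z := w) ⟨hw.1, fun hcon => hw.2 (hOm hcon)⟩
    show G w + lam * (F w - c) ≤ _
    linarith
  have i2 : mR (Rect η τ1 τ2) F x0 ⟨η, τ1⟩ (fun z => G z - lam * F z) ≤
      mR (Rect η τ1 τ2) (fun z => F z - c) x0 ⟨η, τ1⟩ (fun z => G z - lam * (F z - c)) -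
        lam * c := by
    obtain ⟨zl, hzl, -⟩ := h.exists_right hj hx0 hx1 hn
    refine csSup_le ⟨_, ⟨zl, hzl, rfl⟩⟩ ?_
    rintro _ ⟨w, hw, rfl⟩
    have := h'.le_mR (x0 := x0) (z := w) (closure_mono hOm hw)
    show G w - lam * F w ≤ _
    linarith
  have := mul_pos h.hlam hc
  linarith

end Pool.Agent.Helper253.Sad
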