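import Pool.Agent.Helper253.Sad.Rotate

namespace Pool.Agent.Helper253.Sad

open Metric Set Topology Complex
open scoped ComplexConjugate

lemma fn_neg (a : ℂ) (b c : ℝ) (x : ℂ × ℝ) : fn (-a) (-b) (-c) x = -fn a b c x := by
  unfold fn
  rw [neg_mul, Complex.neg_re]; ring

/-- uniform data -/
structure Base (δ : ℝ) (κ : ℂ) (Y : ℂ → ℂ × ℝ) : Prop where
  hδ0 : 0 < δ
  hδ1 : δ ≤ 1 / 100
  hW : ∀ κ wc ω d : ℂ, ‖κ‖ = 1 → ‖wc - 1 / 4‖ ≤ 1 / 80 → ‖ω‖ = 1 →
      (d = I * ω ∨ d = -(I * ω)) → WinOK δ κ wc ω d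
  hκ : ‖κ‖ = 1
  hYc : ContinuousOn Y DD
  hYs : Sadd Y (ball (1 / 4) (1 / 8))
  hYcl : Close κ (min (δ / 2) (1 / 400)) Y

lemma Base.close {δ : ℝ} {κ : ℂ} {Y : ℂ → ℂ × ℝ} (h : Base δ κ Y) : Close κ δ Y := by
  intro w hw
  have h1 := h.hYcl w hw
  have h2 := min_le_left (δ / 2) (1 / 400 : ℝ)
  have h3 := h.hδ0
  exact ⟨h1.1.trans (by linarith), h1.2.trans (by linarith)⟩

lemma Base.pos {δ : ℝ} {κ : ℂ} {Y : ℂ → ℂ × ℝ} (h : Base δ κ Y) {a : ℂ} {b c : ℝ} {ω wm q : ℂ}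
    (hω : ‖ω‖ = 1) (hwm : ‖wm - 1 / 4‖ ≤ 1 / 80) (hq : ‖q - 1 / 4‖ ≤ 1 / 80)
    (hF : ∀ w ∈ DD, |fn a b c (Y w) - (conj ω * (w - wm)).re| ≤ δ)
    (hFq : 0 < fn a b c (Y q)) :
    JoinedIn (DD ∩ {w | 0 < fn a b c (Y w)}) q (1 / 4 + ω / 8) :=
  star h.hδ0 h.hδ1 h.hW h.hκ h.hYc h.hYs h.close hω hwm hq hF hFq

lemma Base.neg {δ : ℝ} {κ : ℂ} {Y : ℂ → ℂ × ℝ} (h : Base δ κ Y) {a : ℂ} {b c : ℝ} {ω wm q : ℂ}
    (hω : ‖ω‖ = 1) (hwm : ‖wm - 1 / 4‖ ≤ 1 / 80) (hq : ‖q - 1 / 4‖ ≤ 1 / 80)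
    (hF : ∀ w ∈ DD, |fn a b c (Y w) - (conj ω * (w - wm)).re| ≤ δ)
    (hFq : fn a b c (Y q) < 0) :
    JoinedIn (DD ∩ {w | fn a b c (Y w) < 0}) q (1 / 4 - ω / 8) := by
  have h1 := h.pos (a := -a) (b := -b) (c := -c) (ω := -ω) (wm := wm) (q := q) (by simpa using hω)
    hwm hq ?_ (by rw [fn_neg]; linarith)
  · have e : (1 / 4 + -ω / 8 : ℂ) = 1 / 4 - ω / 8 := by ring
    rw [e] at h1
    refine h1.mono ?_
    rintro w ⟨hw, hw2⟩
    have hw3 : 0 < fn (-a) (-b) (-c) (Y w) := hw2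
    rw [fn_neg] at hw3
    exact ⟨hw, show fn a b c (Y w) < 0 by linarith⟩
  · intro w hw
    have h2 := hF w hw
    rw [fn_neg, map_neg, neg_mul, Complex.neg_re]
    have e : -fn a b c (Y w) - -(conj ω * (w - wm)).re =
        -(fn a b c (Y w) - (conj ω * (w - wm)).re) := by ring
    rw [e, abs_neg]; exact h2

lemma hh_bound {κ w : ℂ} (hκ : ‖κ‖ = 1) (hw : w ∈ DD) : |hh κ w| ≤ 2 := by
  have hw1 : ‖w - 1 / 4‖ ≤ 1 / 8 := by rwa [DD, mem_closedBall, dist_eq_norm] at hw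
  have hw0 : w ≠ 0 := slitPlane_ne_zero (slit_of_near (by linarith))
  have hn : ‖w‖ ≤ 1 := by
    have : ‖w‖ ≤ ‖w - 1 / 4‖ + ‖(1 / 4 : ℂ)‖ := by
      calc ‖w‖ = ‖(w - 1 / 4) + 1 / 4‖ := by rw [sub_add_cancel]
        _ ≤ _ := norm_add_le _ _
    have h2 : ‖(1 / 4 : ℂ)‖ = 1 / 4 := by norm_num
    linarith
  have h1 : ‖csq w‖ ^ 2 ≤ 1 := by
    rw [← norm_pow, csq_sq hw0]; exact hn
  have h2 : ‖csq w‖ ≤ 1 := by
    have := norm_nonneg (csq w)
    nlinarith
  have h3 : ‖κ * csq w‖ ≤ 1 := by rw [norm_mul, hκ, one_mul]; exact h2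
  rw [hh]
  refine (Complex.abs_re_le_norm _).trans ((norm_add_le _ _).trans ?_)
  rw [norm_pow, norm_pow]
  have h4 := pow_le_one₀ (n := 3) (norm_nonneg _) h3
  have h5 := pow_le_one₀ (n := 4) (norm_nonneg _) h3
  linarith

lemma close_fn {δ1 μ hs : ℝ} {κ : ℂ} {Y : ℂ → ℂ × ℝ} (hYcl : Close κ δ1 Y) {ω xs w : ℂ}
    (hω : ‖ω‖ = 1) (hμ : 0 ≤ μ) (hw : w ∈ DD) :
    |fn (conj ω) μ (-(conj ω * xs).re - μ * hs) (Y w) - (conj ω * (w - xs)).re| ≤
      δ1 + μ * |(Y w).2 - hs| := by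
  have e : fn (conj ω) μ (-(conj ω * xs).re - μ * hs) (Y w) - (conj ω * (w - xs)).re =
      (conj ω * ((Y w).1 - w)).re + μ * ((Y w).2 - hs) := by
    unfold fn
    rw [mul_sub, mul_sub, Complex.sub_re, Complex.sub_re]; ring
  rw [e]
  refine (abs_add_le _ _).trans (add_le_add ?_ ?_)
  · refine (Complex.abs_re_le_norm _).trans ?_
    rw [norm_mul, Complex.norm_conj, hω, one_mul]
    exact (hYcl w hw).1
  · rw [abs_mul, abs_of_nonneg hμ]

lemma conj_exp (θ : ℝ) : conj (Complex.exp (θ * I)) = Complex.exp (-(θ * I)) := by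
  rw [← Complex.exp_conj, map_mul, conj_I, Complex.conj_ofReal]
  congr 1; ring

lemma exp_neg_per (θ : ℝ) :
    Complex.exp (-(((θ + 2 * Real.pi : ℝ) : ℂ) * I)) = Complex.exp (-(θ * I)) := by
  rw [Complex.exp_neg, exp_per, Complex.exp_neg]

lemma near_mem {p : ℂ} (hp : ‖p - 1 / 4‖ ≤ 1 / 100) : p ∈ DD := by
  rw [DD, mem_closedBall, dist_eq_norm]; linarith

/-- the rotating family -/
noncomputable def FF (Y : ℂ → ℂ × ℝ) (μ hs : ℝ) (xs : ℂ) (θ : ℝ) (w : ℂ) : ℝ :=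
  fn (conj (Complex.exp (θ * I))) μ (-(conj (Complex.exp (θ * I)) * xs).re - μ * hs) (Y w)

lemma FF_cont {Y : ℂ → ℂ × ℝ} (hY : ContinuousOn Y DD) (μ hs : ℝ) (xs : ℂ) :
    ContinuousOn (fun z : ℝ × ℂ => FF Y μ hs xs z.1 z.2) (univ ×ˢ DD) := by
  have h0 : ContinuousOn (fun z : ℝ × ℂ => Y z.2) (univ ×ˢ DD) :=
    hY.comp continuousOn_snd (fun z hz => hz.2)
  have h1 : ContinuousOn (fun z : ℝ × ℂ => (Y z.2).1) (univ ×ˢ DD) :=
    continuous_fst.comp_continuousOn h0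
  have h2 : ContinuousOn (fun z : ℝ × ℂ => (Y z.2).2) (univ ×ˢ DD) :=
    continuous_snd.comp_continuousOn h0
  have h3 : Continuous (fun z : ℝ × ℂ => conj (Complex.exp (z.1 * I))) :=
    Complex.continuous_conj.comp (by fun_prop)
  unfold FF fn
  refine ((Complex.continuous_re.comp_continuousOn (h3.continuousOn.mul h1)).add
    (continuousOn_const.mul h2)).add (Continuous.continuousOn ?_)
  exact ((Complex.continuous_re.comp (h3.mul continuous_const)).neg).sub continuous_const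

lemma FF_per (Y : ℂ → ℂ × ℝ) (μ hs : ℝ) (xs : ℂ) (θ : ℝ) (w : ℂ) :
    FF Y μ hs xs (θ + 2 * Real.pi) w = FF Y μ hs xs θ w := by
  unfold FF
  rw [conj_exp, exp_neg_per, ← conj_exp]

lemma FF_val (Y : ℂ → ℂ × ℝ) (μ hs : ℝ) (xs : ℂ) (θ : ℝ) (w : ℂ) :
    FF Y μ hs xs θ w = (conj (Complex.exp (θ * I)) * ((Y w).1 - xs)).re + μ * ((Y w).2 - hs) := by
  unfold FF fn
  rw [mul_sub, Complex.sub_re]; ring

lemma Base.xs_near {δ : ℝ} {κ : ℂ} {Y : ℂ → ℂ × ℝ} (h : Base δ κ Y) {p : ℂ}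
    (hp : ‖p - 1 / 4‖ ≤ 1 / 100) : ‖(Y p).1 - 1 / 4‖ ≤ 1 / 80 := by
  have h1 := (h.hYcl p (near_mem hp)).1.trans (min_le_right _ _)
  have h2 : ‖(Y p).1 - 1 / 4‖ ≤ ‖(Y p).1 - p‖ + ‖p - 1 / 4‖ := by
    have e : (Y p).1 - 1 / 4 = ((Y p).1 - p) + (p - 1 / 4) := by ring
    rw [e]; exact norm_add_le _ _
  linarith

/-- no vertical chords -/
lemma Base.no_vertical {δ : ℝ} {κ : ℂ} {Y : ℂ → ℂ × ℝ} (h : Base δ κ Y) {p q : ℂ}
    (hp : ‖p - 1 / 4‖ ≤ 1 / 100) (hq : ‖q - 1 / 4‖ ≤ 1 / 100) (h1 : (Y p).1 = (Y q).1)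
    (h2 : (Y p).2 < (Y q).2) : False := by
  set xs := (Y p).1 with hxs
  set hs := ((Y p).2 + (Y q).2) / 2 with hhs
  set μ := δ / 12 with hμ
  have hδ := h.hδ0
  have hμ0 : 0 < μ := by positivity
  have hb : ∀ w ∈ DD, |(Y w).2| ≤ 3 := by
    intro w hw
    have e1 := hh_bound h.hκ hw
    have e2 := (h.hYcl w hw).2.trans (min_le_right _ _)
    have e3 : (Y w).2 = ((Y w).2 - hh κ w) + hh κ w := by ring
    rw [e3]
    refine (abs_add_le _ _).trans ?_
    linarith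
  have hb2 : ∀ w ∈ DD, |(Y w).2 - hs| ≤ 6 := by
    intro w hw
    have e1 := abs_le.1 (hb w hw)
    have e2 := abs_le.1 (hb p (near_mem hp))
    have e3 := abs_le.1 (hb q (near_mem hq))
    rw [abs_le]; constructor <;> linarith
  have hclose : ∀ θ : ℝ, ∀ w ∈ DD, |fn (conj (Complex.exp (θ * I))) μ
      (-(conj (Complex.exp (θ * I)) * xs).re - μ * hs) (Y w) -
      (conj (Complex.exp (θ * I)) * (w - xs)).re| ≤ δ := by
    intro θ w hw
    refine (close_fn h.hYcl (Complex.norm_exp_ofReal_mul_I θ) hμ0.le hw).trans ?_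
    have e1 := min_le_left (δ / 2) (1 / 400 : ℝ)
    have e2 := mul_le_mul_of_nonneg_left (hb2 w hw) hμ0.le
    linarith
  have hpq : q - p ≠ 0 := by
    intro h0
    rw [sub_eq_zero.1 h0] at h2
    exact lt_irrefl _ h2
  have hRot : Rot (FF Y μ hs xs) (fun _ => q) (fun _ => p) (fun _ => Complex.log (q - p)) :=
    { hFc := FF_cont h.hYc μ hs xs
      hFper := FF_per Y μ hs xs
      hP := continuous_const
      hQ := continuous_const
      hL := continuous_const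
      hPper := fun _ => rfl
      hQper := fun _ => rfl
      hLper := fun _ => rfl
      hQn := fun _ => by linarith
      hexp := fun _ => Complex.exp_log hpq
      hjP := fun θ => by
        refine h.pos (Complex.norm_exp_ofReal_mul_I θ) (h.xs_near hp) (by linarith) (hclose θ) ?_
        change 0 < FF Y μ hs xs θ q
        rw [FF_val, ← h1]
        simp only [sub_self, mul_zero, Complex.zero_re, zero_add]
        have : 0 < (Y q).2 - hs := by rw [hhs]; linarith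
        positivity
      hjQ := fun θ => by
        refine h.neg (Complex.norm_exp_ofReal_mul_I θ) (h.xs_near hp) (by linarith) (hclose θ) ?_
        change FF Y μ hs xs θ p < 0
        rw [FF_val]
        simp only [hxs, sub_self, mul_zero, Complex.zero_re, zero_add]
        have : (Y p).2 - hs < 0 := by rw [hhs]; linarith
        exact mul_neg_of_pos_of_neg hμ0 this }
  exact hRot.false

lemma Base.eq_height {δ : ℝ} {κ : ℂ} {Y : ℂ → ℂ × ℝ} (h : Base δ κ Y) {p q : ℂ}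
    (hp : ‖p - 1 / 4‖ ≤ 1 / 100) (hq : ‖q - 1 / 4‖ ≤ 1 / 100) (h1 : (Y p).1 = (Y q).1) :
    Y p = Y q := by
  refine Prod.ext h1 ?_
  rcases lt_trichotomy (Y p).2 (Y q).2 with h2 | h2 | h2
  · exact (h.no_vertical hp hq h1 h2).elim
  · exact h2
  · exact (h.no_vertical hq hp h1.symm h2).elim

lemma lift_loop {K : Set ℂ} (hK : IsCompact K) {g : ℂ → ℂ} (hg : ContinuousOn g K)
    (hi : InjOn g K) {c : ℝ → ℂ} (hc : Continuous c) (hcK : ∀ θ, c θ ∈ g '' K) :
    ∃ P : ℝ → ℂ, Continuous P ∧ ∀ θ, P θ ∈ K ∧ g (P θ) = c θ := by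
  have : CompactSpace K := isCompact_iff_compactSpace.1 hK
  have hgr : Continuous (K.domRestrict g) := continuousOn_iff_continuous_domRestrict.1 hg
  have hinj : Function.Injective (K.domRestrict g) := injOn_iff_injective.1 hi
  have hemb := hgr.isClosedEmbedding hinj
  have hex : ∀ θ, ∃ x : K, K.domRestrict g x = c θ := by
    intro θ
    obtain ⟨x, hx, hx2⟩ := hcK θ
    exact ⟨⟨x, hx⟩, hx2⟩
  choose l hl using hex
  have hlc : Continuous l := by
    rw [hemb.isInducing.continuous_iff]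
    have : K.domRestrict g ∘ l = c := funext hl
    rw [this]; exact hc
  exact ⟨fun θ => (l θ : ℂ), continuous_subtype_val.comp hlc, fun θ => ⟨(l θ).2, hl θ⟩⟩

/-- the projection is injective near the centre -/
theorem Base.inj {δ : ℝ} {κ : ℂ} {Y : ℂ → ℂ × ℝ} (h : Base δ κ Y)
    (hloc : ∀ p, ‖p - 1 / 4‖ < 1 / 100 → ∃ r > 0, InjOn Y (closedBall p r)) {p q : ℂ}
    (hp : ‖p - 1 / 4‖ < 1 / 100) (hq : ‖q - 1 / 4‖ < 1 / 100) (h1 : (Y p).1 = (Y q).1) :
    p = q := by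
  by_contra hpq
  have hpq0 : 0 < ‖p - q‖ := norm_pos_iff.2 (sub_ne_zero.2 hpq)
  set xs := (Y p).1 with hxs
  -- local surjectivity
  have hlocal : ∀ z, ‖z - 1 / 4‖ < 1 / 100 → (Y z).1 = xs → ∃ r > 0, r ≤ ‖p - q‖ / 4 ∧
      (∀ w ∈ closedBall z r, ‖w - 1 / 4‖ ≤ 1 / 100) ∧ InjOn (fun w => (Y w).1) (closedBall z r) ∧
      ∃ m > 0, ball xs m ⊆ (fun w => (Y w).1) '' closedBall z r := by
    intro z hz hzx
    obtain ⟨r0, hr0, hinj⟩ := hloc z hz
    set r := min r0 (min (‖p - q‖ / 4) (1 / 100 - ‖z - 1 / 4‖)) with hr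
    have hrpos : 0 < r := by
      have : 0 < 1 / 100 - ‖z - 1 / 4‖ := by linarith
      positivity
    have hrD : ∀ w ∈ closedBall z r, ‖w - 1 / 4‖ ≤ 1 / 100 := by
      intro w hw
      have h2 : ‖w - z‖ ≤ 1 / 100 - ‖z - 1 / 4‖ := by
        rw [mem_closedBall, dist_eq_norm] at hw
        exact hw.trans ((min_le_right _ _).trans (min_le_right _ _))
      have h3 : ‖w - 1 / 4‖ ≤ ‖w - z‖ + ‖z - 1 / 4‖ := by
        have e : w - 1 / 4 = (w - z) + (z - 1 / 4) := by ring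
        rw [e]; exact norm_add_le _ _
      linarith
    have hinj2 : InjOn (fun w => (Y w).1) (closedBall z r) := by
      intro u hu v hv huv
      exact hinj (closedBall_subset_closedBall (min_le_left _ _) hu)
        (closedBall_subset_closedBall (min_le_left _ _) hv) (h.eq_height (hrD u hu) (hrD v hv) huv)
    have hmaps : MapsTo (fun x => z + x) (closedBall (0 : ℂ) r) (closedBall z r) := by
      intro x hx
      rw [mem_closedBall, dist_eq_norm, sub_zero] at hx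
      rw [mem_closedBall, dist_eq_norm, add_sub_cancel_left]; exact hx
    have hYz : ContinuousOn (fun w => (Y w).1) (closedBall z r) :=
      continuous_fst.comp_continuousOn (h.hYc.mono fun w hw => near_mem (hrD w hw))
    obtain ⟨m, hm, hsub⟩ := iod (F := fun x => (Y (z + x)).1) hrpos
      (hYz.comp (by fun_prop) hmaps) (by
        intro u hu v hv huv
        exact add_left_cancel (hinj2 (hmaps hu) (hmaps hv) huv))
    refine ⟨r, hrpos, (min_le_right _ _).trans (min_le_left _ _), hrD, hinj2, m, hm, ?_⟩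
    intro y hy
    have hy' : y ∈ ball ((Y (z + 0)).1) m := by rw [add_zero, hzx]; exact hy
    obtain ⟨x, hx, hx2⟩ := hsub hy'
    exact ⟨z + x, hmaps hx, hx2⟩
  obtain ⟨rp, hrp, hrp2, hrpD, hrpinj, mp, hmp, hmpsub⟩ := hlocal p hp rfl
  obtain ⟨rq, hrq, hrq2, hrqD, hrqinj, mq, hmq, hmqsub⟩ := hlocal q hq h1.symm
  set τ := min mp mq / 2 with hτ
  have hτ0 : 0 < τ := by positivity
  have hτp : τ < mp := by
    have := min_le_left mp mq
    linarith [lt_min hmp hmq]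
  have hτq : τ < mq := by
    have := min_le_right mp mq
    linarith [lt_min hmp hmq]
  have hYp : ContinuousOn (fun w => (Y w).1) (closedBall p rp) :=
    continuous_fst.comp_continuousOn (h.hYc.mono fun w hw => near_mem (hrpD w hw))
  have hYq : ContinuousOn (fun w => (Y w).1) (closedBall q rq) :=
    continuous_fst.comp_continuousOn (h.hYc.mono fun w hw => near_mem (hrqD w hw))
  obtain ⟨P, hPc, hP⟩ := lift_loop (isCompact_closedBall p rp) hYp hrpinj
    (c := fun θ : ℝ => xs + τ * Complex.exp (θ * I)) (by fun_prop) (by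
      intro θ
      refine hmpsub ?_
      rw [mem_ball, dist_eq_norm, add_sub_cancel_left, norm_mul, Complex.norm_exp_ofReal_mul_I,
        mul_one, Complex.norm_real, Real.norm_eq_abs, abs_of_pos hτ0]
      exact hτp)
  obtain ⟨Q, hQc, hQ⟩ := lift_loop (isCompact_closedBall q rq) hYq hrqinj
    (c := fun θ : ℝ => xs - τ * Complex.exp (θ * I)) (by fun_prop) (by
      intro θ
      refine hmqsub ?_
      rw [mem_ball, dist_eq_norm]
      have e : xs - τ * Complex.exp (θ * I) - xs = -(τ * Complex.exp (θ * I)) := by ring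
      rw [e, norm_neg, norm_mul, Complex.norm_exp_ofReal_mul_I,
        mul_one, Complex.norm_real, Real.norm_eq_abs, abs_of_pos hτ0]
      exact hτq)
  have hPper : ∀ θ, P (θ + 2 * Real.pi) = P θ := by
    intro θ
    refine hrpinj (hP _).1 (hP _).1 ?_
    simp only [(hP _).2, exp_per]
  have hQper : ∀ θ, Q (θ + 2 * Real.pi) = Q θ := by
    intro θ
    refine hrqinj (hQ _).1 (hQ _).1 ?_
    simp only [(hQ _).2, exp_per]
  have hpqne : p - q ≠ 0 := sub_ne_zero.2 hpq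
  have hratio : ∀ θ, (P θ - Q θ) / (p - q) ∈ slitPlane := by
    intro θ
    have e : (P θ - Q θ) / (p - q) = 1 + ((P θ - p) - (Q θ - q)) / (p - q) := by
      field_simp; ring
    rw [e]
    apply Complex.mem_slitPlane_of_norm_lt_one
    rw [norm_div, div_lt_one hpq0]
    have e1 : ‖P θ - p‖ ≤ ‖p - q‖ / 4 := by
      have := (hP θ).1
      rw [mem_closedBall, dist_eq_norm] at this
      exact this.trans hrp2
    have e2 : ‖Q θ - q‖ ≤ ‖p - q‖ / 4 := by
      have := (hQ θ).1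
      rw [mem_closedBall, dist_eq_norm] at this
      exact this.trans hrq2
    refine (norm_sub_le _ _).trans_lt ?_
    linarith
  have hclose : ∀ θ : ℝ, ∀ w ∈ DD, |fn (conj (Complex.exp (θ * I))) 0
      (-(conj (Complex.exp (θ * I)) * xs).re - 0 * 0) (Y w) -
      (conj (Complex.exp (θ * I)) * (w - xs)).re| ≤ δ := by
    intro θ w hw
    refine (close_fn h.hYcl (Complex.norm_exp_ofReal_mul_I θ) le_rfl hw).trans ?_
    have e1 := min_le_left (δ / 2) (1 / 400 : ℝ)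
    have := h.hδ0
    linarith
  have hxsn := h.xs_near hp.le
  have hunit : ∀ θ : ℝ, conj (Complex.exp (θ * I)) * Complex.exp (θ * I) = 1 := fun θ =>
    cj_mul_self (Complex.norm_exp_ofReal_mul_I θ)
  have hRot : Rot (FF Y 0 0 xs) P Q
      (fun θ => Complex.log (p - q) + Complex.log ((P θ - Q θ) / (p - q))) :=
    { hFc := FF_cont h.hYc 0 0 xs
      hFper := FF_per Y 0 0 xs
      hP := hPc
      hQ := hQc
      hL := continuous_const.add (Continuous.clog (by fun_prop) hratio)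
      hPper := hPper
      hQper := hQper
      hLper := fun θ => by simp only [hPper, hQper]
      hQn := fun θ => (hrqD _ (hQ θ).1).trans (by norm_num)
      hexp := fun θ => by
        rw [Complex.exp_add, Complex.exp_log hpqne,
          Complex.exp_log (slitPlane_ne_zero (hratio θ))]
        field_simp
      hjP := fun θ => by
        refine h.pos (Complex.norm_exp_ofReal_mul_I θ) hxsn
          ((hrpD _ (hP θ).1).trans (by norm_num)) (hclose θ) ?_
        change 0 < FF Y 0 0 xs θ (P θ)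
        rw [FF_val, (hP θ).2]
        have e : conj (Complex.exp (θ * I)) * (xs + τ * Complex.exp (θ * I) - xs) = (τ : ℂ) := by
          linear_combination (τ : ℂ) * hunit θ
        rw [e]; simpa using hτ0
      hjQ := fun θ => by
        refine h.neg (Complex.norm_exp_ofReal_mul_I θ) hxsn
          ((hrqD _ (hQ θ).1).trans (by norm_num)) (hclose θ) ?_
        change FF Y 0 0 xs θ (Q θ) < 0
        rw [FF_val, (hQ θ).2]
        have e : conj (Complex.exp (θ * I)) * (xs - τ * Complex.exp (θ * I) - xs) =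
            ((-τ : ℝ) : ℂ) := by
          push_cast
          linear_combination (-τ : ℂ) * hunit θ
        rw [e]; simpa using hτ0 }
  exact hRot.false

end Pool.Agent.Helper253.Sad
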