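import Pool.Agent.Helper253.Sad.Star

namespace Pool.Agent.Helper253.Sad

open Metric Set Topology Complex
open scoped ComplexConjugate

/-- retraction to the disc -/
noncomputable def ret (w : ℂ) : ℂ := 1 / 4 + (w - 1 / 4) / ((max 1 (8 * ‖w - 1 / 4‖) : ℝ) : ℂ)

lemma continuous_ret : Continuous ret := by
  unfold ret
  refine continuous_const.add (Continuous.div (by fun_prop) (by fun_prop) ?_)
  intro w
  have : (0 : ℝ) < max 1 (8 * ‖w - 1 / 4‖) := lt_of_lt_of_le one_pos (le_max_left _ _)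
  exact_mod_cast this.ne'

lemma ret_mem (w : ℂ) : ret w ∈ DD := by
  have hpos : (0 : ℝ) < max 1 (8 * ‖w - 1 / 4‖) := lt_of_lt_of_le one_pos (le_max_left _ _)
  rw [DD, mem_closedBall, dist_eq_norm, ret]
  rw [add_sub_cancel_left, norm_div, Complex.norm_real, Real.norm_eq_abs, abs_of_pos hpos,
    div_le_iff₀ hpos]
  have := le_max_right 1 (8 * ‖w - 1 / 4‖)
  linarith

lemma ret_id {w : ℂ} (hw : w ∈ DD) : ret w = w := by
  rw [DD, mem_closedBall, dist_eq_norm] at hw
  rw [ret, max_eq_left (by linarith)]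
  simp

/-- end points of the rotating diameter -/
noncomputable def bb (θ : ℝ) : ℂ := 1 / 4 + Complex.exp (θ * I) / 8

noncomputable def bm (θ : ℝ) : ℂ := 1 / 4 - Complex.exp (θ * I) / 8

lemma bb_mem (θ : ℝ) : bb θ ∈ DD := by
  rw [DD, mem_closedBall, dist_eq_norm, bb, add_sub_cancel_left, norm_div,
    Complex.norm_exp_ofReal_mul_I]
  norm_num

noncomputable def Lam (Q : ℝ → ℂ) (θ : ℝ) : ℂ :=
  θ * I + Complex.log (1 / 8 + Complex.exp (-(θ * I)) * (1 / 4 - Q θ))

section rot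

variable {F : ℝ → ℂ → ℝ} {P Q L : ℝ → ℂ}

structure Rot (F : ℝ → ℂ → ℝ) (P Q L : ℝ → ℂ) : Prop where
  hFc : ContinuousOn (fun z : ℝ × ℂ => F z.1 z.2) (univ ×ˢ DD)
  hFper : ∀ θ w, F (θ + 2 * Real.pi) w = F θ w
  hP : Continuous P
  hQ : Continuous Q
  hL : Continuous L
  hPper : ∀ θ, P (θ + 2 * Real.pi) = P θ
  hQper : ∀ θ, Q (θ + 2 * Real.pi) = Q θ
  hLper : ∀ θ, L (θ + 2 * Real.pi) = L θ
  hQn : ∀ θ, ‖Q θ - 1 / 4‖ ≤ 1 / 80
  hexp : ∀ θ, Complex.exp (L θ) = P θ - Q θ
  hjP : ∀ θ, JoinedIn (DD ∩ {w | 0 < F θ w}) (P θ) (bb θ)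
  hjQ : ∀ θ, JoinedIn (DD ∩ {w | F θ w < 0}) (Q θ) (bm θ)

def NN (F : ℝ → ℂ → ℝ) (P Q L : ℝ → ℂ) (θ : ℝ) (n : ℤ) : Prop :=
  ∃ γ : unitInterval → ℂ, Continuous γ ∧ γ 0 = P θ ∧ γ 1 = bb θ ∧
    (∀ s, γ s ∈ DD ∧ 0 < F θ (γ s)) ∧
    ∃ l : unitInterval → ℂ, Continuous l ∧ (∀ s, Complex.exp (l s) = γ s - Q θ) ∧ l 0 = L θ ∧
      l 1 = Lam Q θ + n * (2 * Real.pi * I)

lemma Rot.slit (h : Rot F P Q L) (θ : ℝ) :
    1 / 8 + Complex.exp (-(θ * I)) * (1 / 4 - Q θ) ∈ slitPlane := by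
  left
  have h1 : ‖Complex.exp (-(θ * I)) * (1 / 4 - Q θ)‖ ≤ 1 / 80 := by
    rw [norm_mul]
    have : ‖Complex.exp (-(θ * I))‖ = 1 := by
      have e : -((θ : ℂ) * I) = ((-θ : ℝ) : ℂ) * I := by push_cast; ring
      rw [e, Complex.norm_exp_ofReal_mul_I]
    rw [this, one_mul, norm_sub_rev]; exact h.hQn θ
  have h2 := (abs_le.1 ((Complex.abs_re_le_norm _).trans h1)).1
  rw [Complex.add_re]
  have : (1 / 8 : ℂ).re = 1 / 8 := by norm_num
  rw [this]; linarith

lemma Rot.exp_Lam (h : Rot F P Q L) (θ : ℝ) : Complex.exp (Lam Q θ) = bb θ - Q θ := by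
  rw [Lam, Complex.exp_add, Complex.exp_log (slitPlane_ne_zero (h.slit θ)), bb]
  have : Complex.exp (θ * I) * Complex.exp (-(θ * I)) = 1 := by
    rw [← Complex.exp_add, add_neg_cancel, Complex.exp_zero]
  linear_combination (1 / 4 - Q θ) * this

lemma Rot.cont_Lam (h : Rot F P Q L) : Continuous (Lam Q) := by
  unfold Lam
  have hQ := h.hQ
  refine Continuous.add (by fun_prop) (Continuous.clog (by fun_prop) (fun θ => h.slit θ))

lemma exp_per (θ : ℝ) : Complex.exp (((θ + 2 * Real.pi : ℝ) : ℂ) * I) = Complex.exp (θ * I) := by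
  have e : ((θ + 2 * Real.pi : ℝ) : ℂ) * I = θ * I + 2 * Real.pi * I := by push_cast; ring
  rw [e, Complex.exp_periodic]

lemma Rot.Lam_per (h : Rot F P Q L) (θ : ℝ) :
    Lam Q (θ + 2 * Real.pi) = Lam Q θ + 2 * Real.pi * I := by
  unfold Lam
  rw [h.hQper]
  have e : Complex.exp (-(((θ + 2 * Real.pi : ℝ) : ℂ) * I)) = Complex.exp (-(θ * I)) := by
    rw [Complex.exp_neg, exp_per, Complex.exp_neg]
  rw [e]; push_cast; ring

lemma bb_per (θ : ℝ) : bb (θ + 2 * Real.pi) = bb θ := by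
  unfold bb; rw [exp_per]

lemma Rot.NN_shift (h : Rot F P Q L) {θ : ℝ} {n : ℤ} (hn : NN F P Q L (θ + 2 * Real.pi) n) :
    NN F P Q L θ (n + 1) := by
  obtain ⟨γ, hγ, hγ0, hγ1, hγF, l, hl, hle, hl0, hl1⟩ := hn
  refine ⟨γ, hγ, by rw [hγ0, h.hPper], by rw [hγ1, bb_per], fun s => ⟨(hγF s).1, ?_⟩, l, hl,
    fun s => by rw [hle, h.hQper], by rw [hl0, h.hLper], ?_⟩
  · have := (hγF s).2
    rwa [h.hFper] at this
  · rw [hl1, h.Lam_per]; push_cast; ring

lemma Rot.NN_exists (h : Rot F P Q L) (θ : ℝ) : ∃ n, NN F P Q L θ n := by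
  have hj := h.hjP θ
  have hQneg : F θ (Q θ) < 0 := (h.hjQ θ).mem.1.2
  have hne : ∀ s, hj.somePath s - Q θ ≠ 0 := by
    intro s hs
    have h1 := (hj.somePath_mem s).2
    rw [sub_eq_zero.1 hs] at h1
    exact lt_asymm h1 hQneg
  obtain ⟨l, hl, hle⟩ := hasLog_interval (H := fun s => hj.somePath s - Q θ) (by fun_prop) hne
  have h0 : Complex.exp (L θ - l 0) = 1 := by
    rw [Complex.exp_sub, h.hexp, ← hle 0]
    simp only [Path.source]
    have := hne 0
    simp only [Path.source] at this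
    exact div_self this
  have h1 : ∀ s, Complex.exp (l s + (L θ - l 0)) = hj.somePath s - Q θ := by
    intro s
    rw [Complex.exp_add, h0, mul_one, ← hle]
  have h2 : Complex.exp (l 1 + (L θ - l 0)) = Complex.exp (Lam Q θ) := by
    rw [h1, h.exp_Lam]; simp
  obtain ⟨n, hn⟩ := Complex.exp_eq_exp_iff_exists_int.1 h2
  exact ⟨n, hj.somePath, hj.somePath.continuous, by simp, by simp, fun s => hj.somePath_mem s,
    fun s => l s + (L θ - l 0), by fun_prop, h1, by ring, hn⟩

lemma agree {X : Type*} [TopologicalSpace X] [PreconnectedSpace X] {f g k : X → ℂ}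
    (hf : Continuous f) (hg : Continuous g) (h1 : ∀ x, Complex.exp (f x) = k x)
    (h2 : ∀ x, Complex.exp (g x) = k x) {x0 : X} (h0 : f x0 = g x0) (x : X) : f x = g x := by
  have h3 : ∀ x, Complex.exp (f x - g x) = 1 := by
    intro x
    rw [Complex.exp_sub, h1, h2, div_self]
    rw [← h1]; exact Complex.exp_ne_zero _
  have h4 := const_of_exp_const (hf.sub hg) h3 x x0
  have h5 : f x0 - g x0 = 0 := by rw [h0, sub_self]
  exact sub_eq_zero.1 (h4.trans h5)

lemma Rot.NN_unique (h : Rot F P Q L) {θ : ℝ} {n1 n2 : ℤ} (hn1 : NN F P Q L θ n1)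
    (hn2 : NN F P Q L θ n2) : n1 = n2 := by
  obtain ⟨γ1, hγ1, hγ10, hγ11, hγ1F, l1, hl1, hle1, hl10, hl11⟩ := hn1
  obtain ⟨γ2, hγ2, hγ20, hγ21, hγ2F, l2, hl2, hle2, hl20, hl21⟩ := hn2
  have hM := h.hjQ θ
  set M := hM.somePath with hMdef
  have hMc : Continuous M := M.continuous
  have hM0 : M 0 = Q θ := M.source
  have hM1 : M 1 = bm θ := M.target
  have hne : ∀ {x : ℂ}, 0 < F θ x → ∀ t, x - M t ≠ 0 := by
    intro x hx t ht
    have h1 : F θ (M t) < 0 := (hM.somePath_mem t).2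
    rw [← sub_eq_zero.1 ht] at h1
    exact lt_asymm h1 hx
  have key : ∀ (γ l : unitInterval → ℂ), Continuous γ → γ 0 = P θ → γ 1 = bb θ →
      (∀ s, γ s ∈ DD ∧ 0 < F θ (γ s)) → Continuous l → (∀ s, Complex.exp (l s) = γ s - Q θ) →
      l 0 = L θ → ∃ K : unitInterval × unitInterval → ℂ, Continuous K ∧
        (∀ p, Complex.exp (K p) = γ p.1 - M p.2) ∧ K (0, 0) = L θ ∧ K (1, 0) = l 1 ∧
        K (1, 1) = K (0, 1) + Complex.log (Complex.exp (-(θ * I)) * (bb θ - bm θ)) -
          Complex.log (Complex.exp (-(θ * I)) * (P θ - bm θ)) := by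
    intro γ l hγ hγ0 hγ1 hγF hl hle hl0
    obtain ⟨K0, hK0, hK0e⟩ := hasLog_square (H := fun p => γ p.1 - M p.2) (by fun_prop)
      (fun p => hne (hγF p.1).2 p.2)
    have e0 : Complex.exp (L θ - K0 (0, 0)) = 1 := by
      rw [Complex.exp_sub, h.hexp, ← hK0e (0, 0)]
      show (P θ - Q θ) / (γ 0 - M 0) = 1
      have h1 := hne (hγF 0).2 0
      rw [hγ0, hM0] at h1
      rw [hγ0, hM0]
      exact div_self h1
    let K : unitInterval × unitInterval → ℂ := fun p => K0 p + (L θ - K0 (0, 0))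
    have hK : Continuous K := by fun_prop
    have hKe : ∀ p, Complex.exp (K p) = γ p.1 - M p.2 := by
      intro p
      simp only [K]
      rw [Complex.exp_add, e0, mul_one, ← hK0e]
    have hK00 : K (0, 0) = L θ := by simp [K]
    have hK10 : K (1, 0) = l 1 := by
      refine agree (X := unitInterval) (f := fun s => K (s, 0)) (g := l)
        (k := fun s => γ s - Q θ) (by fun_prop) hl ?_ hle (x0 := 0) ?_ 1
      · intro s; rw [hKe]; show γ s - M 0 = _; rw [hM0]
      · rw [hK00, hl0]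
    refine ⟨K, hK, hKe, hK00, hK10, ?_⟩
    -- along the edge `t = 1`
    have hre : ∀ s, Complex.exp (-(θ * I)) * (γ s - bm θ) ∈ slitPlane := by
      intro s
      have h1 : (γ s - bm θ) ≠ 0 := by
        have := hne (hγF s).2 1
        rwa [hM1] at this
      have h2 : Complex.exp (-(θ * I)) * (γ s - bm θ) ≠ 0 := mul_ne_zero (Complex.exp_ne_zero _) h1
      have h3 : 0 ≤ (Complex.exp (-(θ * I)) * (γ s - bm θ)).re := by
        have h4 : Complex.exp (-(θ * I)) * (γ s - bm θ) =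
            Complex.exp (-(θ * I)) * (γ s - 1 / 4) + 1 / 8 := by
          have : Complex.exp (-(θ * I)) * Complex.exp (θ * I) = 1 := by
            rw [← Complex.exp_add, neg_add_cancel, Complex.exp_zero]
          unfold bm
          linear_combination (1 / 8 : ℂ) * this
        rw [h4, Complex.add_re]
        have h5 : ‖Complex.exp (-(θ * I)) * (γ s - 1 / 4)‖ ≤ 1 / 8 := by
          rw [norm_mul]
          have e : -((θ : ℂ) * I) = ((-θ : ℝ) : ℂ) * I := by push_cast; ring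
          rw [e, Complex.norm_exp_ofReal_mul_I, one_mul]
          have := (hγF s).1
          rwa [DD, mem_closedBall, dist_eq_norm] at this
        have h6 := (abs_le.1 ((Complex.abs_re_le_norm _).trans h5)).1
        have h7 : (1 / 8 : ℂ).re = 1 / 8 := by norm_num
        rw [h7]; linarith
      rcases h3.lt_or_eq with h8 | h8
      · exact Or.inl h8
      · right
        intro h9
        exact h2 (Complex.ext h8.symm h9)
    have hgc : Continuous (fun s => Complex.log (Complex.exp (-(θ * I)) * (γ s - bm θ))) :=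
      Continuous.clog (by fun_prop) hre
    have hcst : ∀ s, Complex.exp (K (s, 1) -
        Complex.log (Complex.exp (-(θ * I)) * (γ s - bm θ))) = Complex.exp (θ * I) := by
      intro s
      rw [Complex.exp_sub, hKe, Complex.exp_log (slitPlane_ne_zero (hre s))]
      show (γ s - M 1) / _ = _
      rw [hM1]
      have h1 : (γ s - bm θ) ≠ 0 := fun h0 => slitPlane_ne_zero (hre s) (by rw [h0, mul_zero])
      rw [Complex.exp_neg]
      have := Complex.exp_ne_zero (θ * I)
      field_simp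
    have h5 := const_of_exp_const (X := unitInterval)
      (g := fun s => K (s, 1) - Complex.log (Complex.exp (-(θ * I)) * (γ s - bm θ)))
      ((by fun_prop : Continuous fun s : unitInterval => K (s, 1)).sub hgc) hcst 1 0
    simp only [hγ0, hγ1] at h5
    linear_combination h5
  obtain ⟨K1, hK1, hK1e, hK100, hK110, hK111⟩ := key γ1 l1 hγ1 hγ10 hγ11 hγ1F hl1 hle1 hl10
  obtain ⟨K2, hK2, hK2e, hK200, hK210, hK211⟩ := key γ2 l2 hγ2 hγ20 hγ21 hγ2F hl2 hle2 hl20
  have e1 : K1 (0, 1) = K2 (0, 1) := by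
    refine agree (X := unitInterval) (f := fun t => K1 (0, t)) (g := fun t => K2 (0, t))
      (k := fun t => P θ - M t) (by fun_prop) (by fun_prop) ?_ ?_ (x0 := 0) ?_ 1
    · intro t; rw [hK1e]; simp [hγ10]
    · intro t; rw [hK2e]; simp [hγ20]
    · rw [hK100, hK200]
  have e2 : K1 (1, 1) = K2 (1, 1) := by rw [hK111, hK211, e1]
  have e3 : K1 (1, 0) = K2 (1, 0) := by
    refine agree (X := unitInterval) (f := fun t => K1 (1, t)) (g := fun t => K2 (1, t))
      (k := fun t => bb θ - M t) (by fun_prop) (by fun_prop) ?_ ?_ (x0 := 1) e2 0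
    · intro t; rw [hK1e]; simp [hγ11]
    · intro t; rw [hK2e]; simp [hγ21]
  rw [hK110, hK210, hl11, hl21] at e3
  have h2pi : (2 * Real.pi * I : ℂ) ≠ 0 := Complex.two_pi_I_ne_zero
  have e4 : (n1 : ℂ) = n2 := mul_right_cancel₀ h2pi (add_left_cancel e3)
  exact_mod_cast e4

lemma log_exp_small {z : ℂ} (hz : |z.im| < Real.pi) : Complex.log (Complex.exp z) = z :=
  Complex.log_exp (abs_lt.1 hz).1 (abs_lt.1 hz).2.le

lemma Rot.NN_persist (h : Rot F P Q L) {θ0 : ℝ} {n : ℤ} (hn : NN F P Q L θ0 n) :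
    ∀ᶠ θ in 𝓝 θ0, NN F P Q L θ n := by
  obtain ⟨γ, hγ, hγ0, hγ1, hγF, l, hl, hle, hl0, hl1⟩ := hn
  have hP := h.hP
  have hQ := h.hQ
  have hbb : Continuous bb := by unfold bb; fun_prop
  let g : ℝ → unitInterval → ℂ := fun θ s =>
    ret (γ s + ((1 - (s : ℝ) : ℝ) : ℂ) * (P θ - P θ0) + ((s : ℝ) : ℂ) * (bb θ - bb θ0))
  have hgc : Continuous (fun z : ℝ × unitInterval => g z.1 z.2) := by
    refine continuous_ret.comp ?_
    fun_prop
  have hgθ0 : ∀ s, g θ0 s = γ s := by
    intro s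
    simp only [g, sub_self, mul_zero, add_zero]
    exact ret_id (hγF s).1
  have hPD : ∀ θ, P θ ∈ DD := fun θ => (h.hjP θ).mem.1.1
  -- positivity
  have hFg : Continuous (fun z : ℝ × unitInterval => F z.1 (g z.1 z.2)) :=
    h.hFc.comp_continuous (f := fun z : ℝ × unitInterval => (z.1, g z.1 z.2)) (by fun_prop)
      (fun z => ⟨mem_univ _, ret_mem _⟩)
  have c1 : ∀ᶠ θ in 𝓝 θ0, ∀ s ∈ (univ : Set unitInterval), 0 < F θ (g θ s) := by
    refine isCompact_univ.eventually_forall_of_forall_eventually fun s _ => ?_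
    refine continuousAt_const.eventually_lt hFg.continuousAt ?_
    simp only
    rw [hgθ0]; exact (hγF s).2
  have hne0 : ∀ s, γ s - Q θ0 ≠ 0 := by
    intro s hs
    have := hle s
    rw [hs] at this
    exact Complex.exp_ne_zero _ this
  have hrc : Continuous (fun z : ℝ × unitInterval => (g z.1 z.2 - Q z.1) / (γ z.2 - Q θ0)) := by
    refine Continuous.div (by fun_prop) (by fun_prop) (fun z => hne0 z.2)
  have c2 : ∀ᶠ θ in 𝓝 θ0, ∀ s ∈ (univ : Set unitInterval),
      (g θ s - Q θ) / (γ s - Q θ0) ∈ slitPlane := by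
    refine isCompact_univ.eventually_forall_of_forall_eventually fun s _ => ?_
    refine hrc.continuousAt.eventually_mem (isOpen_slitPlane.mem_nhds ?_)
    simp only
    rw [hgθ0, div_self (hne0 s)]
    exact one_mem_slitPlane
  have c3 : ∀ᶠ θ in 𝓝 θ0, |(L θ - L θ0).im| < Real.pi := by
    have hc : Continuous (fun θ => |(L θ - L θ0).im|) := by have := h.hL; fun_prop
    refine hc.continuousAt.eventually_lt continuousAt_const ?_
    simp [Real.pi_pos]
  have c4 : ∀ᶠ θ in 𝓝 θ0, |(Lam Q θ - Lam Q θ0).im| < Real.pi := by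
    have hc : Continuous (fun θ => |(Lam Q θ - Lam Q θ0).im|) :=
      (Complex.continuous_im.comp (h.cont_Lam.sub continuous_const)).abs
    refine hc.continuousAt.eventually_lt continuousAt_const ?_
    simp [Real.pi_pos]
  filter_upwards [c1, c2, c3, c4] with θ d1 d2 d3 d4
  have hg0 : g θ 0 = P θ := by
    simp only [g, hγ0]
    simp only [Set.Icc.coe_zero, sub_zero, Complex.ofReal_one, Complex.ofReal_zero, zero_mul,
      add_zero, one_mul, add_sub_cancel]
    exact ret_id (hPD θ)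
  have hg1 : g θ 1 = bb θ := by
    simp only [g, hγ1]
    simp only [Set.Icc.coe_one, sub_self, Complex.ofReal_one, Complex.ofReal_zero, zero_mul,
      add_zero, one_mul, add_sub_cancel]
    exact ret_id (bb_mem θ)
  refine ⟨g θ, by fun_prop, hg0, hg1, fun s => ⟨ret_mem _, d1 s (mem_univ s)⟩,
    fun s => l s + Complex.log ((g θ s - Q θ) / (γ s - Q θ0)), ?_, ?_, ?_, ?_⟩
  · refine hl.add (Continuous.clog ?_ (fun s => d2 s (mem_univ s)))
    exact Continuous.div (by fun_prop) (by fun_prop) hne0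
  · intro s
    rw [Complex.exp_add, hle, Complex.exp_log (slitPlane_ne_zero (d2 s (mem_univ s)))]
    have := hne0 s
    field_simp
  · simp only
    rw [hg0, hγ0, ← h.hexp, ← h.hexp, ← Complex.exp_sub, log_exp_small d3, hl0]
    ring
  · simp only
    rw [hg1, hγ1, ← h.exp_Lam, ← h.exp_Lam, ← Complex.exp_sub, log_exp_small d4, hl1]
    ring

theorem Rot.false (h : Rot F P Q L) : False := by
  choose f hf using h.NN_exists
  have hloc : IsLocallyConstant f := by
    rw [IsLocallyConstant.iff_eventually_eq]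
    intro θ0
    filter_upwards [h.NN_persist (hf θ0)] with θ hθ
    exact h.NN_unique (hf θ) hθ
  have h1 := hloc.apply_eq_of_preconnectedSpace 0 (0 + 2 * Real.pi)
  have h2 := h.NN_unique (hf 0) (h.NN_shift (hf (0 + 2 * Real.pi)))
  rw [← h1] at h2
  omega

end rot

end Pool.Agent.Helper253.Sad
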