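import Pool.Agent.Helper253.Sad.Global

namespace Pool.Agent.Helper253.Sad

open Metric Set Topology Complex
open scoped ComplexConjugate

lemma csq_re_pos {w : ℂ} (hw : w ∈ slitPlane) : 0 < (csq w).re := by
  rw [csq, Complex.exp_re]
  refine mul_pos (Real.exp_pos _) (Real.cos_pos_of_mem_Ioo ?_)
  have h1 := (Complex.mem_slitPlane_iff_arg.1 hw).1
  have h2 := Complex.neg_pi_lt_arg w
  have h3 := lt_of_le_of_ne (Complex.arg_le_pi w) h1
  have h4 : (Complex.log w / 2).im = w.arg / 2 := by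
    have : Complex.log w / 2 = ((1 / 2 : ℝ) : ℂ) * Complex.log w := by push_cast; ring
    rw [this, Complex.im_ofReal_mul, Complex.log_im]; ring
  rw [h4]
  constructor <;> linarith

lemma csq_of_sq {u : ℂ} (hu : 0 < u.re) (hs : u ^ 2 ∈ slitPlane) : csq (u ^ 2) = u := by
  have h1 := csq_sq (slitPlane_ne_zero hs)
  rcases sq_eq_sq_iff_eq_or_eq_neg.1 h1 with h | h
  · exact h
  · have h2 := csq_re_pos hs
    rw [h, Complex.neg_re] at h2
    linarith

lemma csq_inj {u v : ℂ} (hu : u ≠ 0) (hv : v ≠ 0) (h : csq u = csq v) : u = v := by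
  rw [← csq_sq hu, ← csq_sq hv, h]

lemma DD_slit {w : ℂ} (hw : w ∈ DD) : w ∈ slitPlane := by
  rw [DD, mem_closedBall, dist_eq_norm] at hw
  exact slit_of_near (by linarith)

lemma sheet_mem {κ w : ℂ} (hκ : ‖κ‖ = 1) (hw : w ∈ DD) : κ * csq w ∈ ball (0 : ℂ) 1 := by
  have hw1 : ‖w - 1 / 4‖ ≤ 1 / 8 := by rwa [DD, mem_closedBall, dist_eq_norm] at hw
  have hn : ‖w‖ ≤ 3 / 8 := by
    have : ‖w‖ ≤ ‖w - 1 / 4‖ + ‖(1 / 4 : ℂ)‖ := by
      calc ‖w‖ = ‖(w - 1 / 4) + 1 / 4‖ := by rw [sub_add_cancel]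
        _ ≤ _ := norm_add_le _ _
    have h2 : ‖(1 / 4 : ℂ)‖ = 1 / 4 := by norm_num
    linarith
  have h1 : ‖csq w‖ ^ 2 ≤ 3 / 8 := by
    rw [← norm_pow, csq_sq (slitPlane_ne_zero (DD_slit hw))]; exact hn
  rw [mem_ball_zero_iff, norm_mul, hκ, one_mul]
  have := norm_nonneg (csq w)
  nlinarith

lemma csq_contOn : ContinuousOn csq DD :=
  fun w hw => (continuousAt_csq (DD_slit hw)).continuousWithinAt

/-- the rotated sheet -/
noncomputable def YY (X : ℂ → ℂ × ℝ) (κ w : ℂ) : ℂ × ℝ :=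
  (conj (κ ^ 2) * (X (κ * csq w)).1, (X (κ * csq w)).2)

lemma kk {κ : ℂ} (hκ : ‖κ‖ = 1) : conj (κ ^ 2) * κ ^ 2 = 1 :=
  cj_mul_self (by rw [norm_pow, hκ, one_pow])

lemma YY_cont {X : ℂ → ℂ × ℝ} (hX : ContinuousOn X (closedBall 0 1)) {κ : ℂ} (hκ : ‖κ‖ = 1) :
    ContinuousOn (YY X κ) DD := by
  have h1 : ContinuousOn (fun w => X (κ * csq w)) DD :=
    hX.comp (continuousOn_const.mul csq_contOn) (fun w hw => ball_subset_closedBall (sheet_mem hκ hw))
  exact (continuousOn_const.mul (continuous_fst.comp_continuousOn h1)).prodMk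
    (continuous_snd.comp_continuousOn h1)

lemma YY_close {X : ℂ → ℂ × ℝ} {δ : ℝ} (h1 : ∀ z ∈ ball (0 : ℂ) 1, ‖(X z).1 - z ^ 2‖ ≤ δ ∧
    |(X z).2 - (z ^ 3 + z ^ 4).re| ≤ δ) {κ : ℂ} (hκ : ‖κ‖ = 1) : Close κ δ (YY X κ) := by
  intro w hw
  obtain ⟨h2, h3⟩ := h1 _ (sheet_mem hκ hw)
  refine ⟨?_, h3⟩
  have hw0 := slitPlane_ne_zero (DD_slit hw)
  have e : (YY X κ w).1 - w = conj (κ ^ 2) * ((X (κ * csq w)).1 - (κ * csq w) ^ 2) := by
    have h4 := csq_sq hw0
    simp only [YY]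
    rw [mul_pow, h4]
    linear_combination w * kk hκ
  rw [e, norm_mul, Complex.norm_conj, norm_pow, hκ, one_pow, one_mul]
  exact h2

lemma YY_sadd {X : ℂ → ℂ × ℝ} (hS : Sadd X (ball 0 1)) {κ : ℂ} (hκ : ‖κ‖ = 1) :
    Sadd (YY X κ) (ball (1 / 4) (1 / 8)) := by
  intro a b c
  have hkk : κ * conj κ = 1 := by rw [mul_comm]; exact cj_mul_self hκ
  have hD : ball (1 / 4 : ℂ) (1 / 8) ⊆ DD := ball_subset_closedBall
  have hO : IsOpen (ball (0 : ℂ) 1 ∩ {z | 0 < (conj κ * z).re}) := by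
    refine isOpen_ball.inter (isOpen_lt continuous_const ?_)
    exact Complex.continuous_re.comp (continuous_const.mul continuous_id)
  have h1 := (hS (a * conj (κ ^ 2)) b c).mono
    (inter_subset_left : ball (0 : ℂ) 1 ∩ {z | 0 < (conj κ * z).re} ⊆ ball 0 1)
  have h2 := h1.comp hO (Φ := fun w => κ * csq w) (Ψ := fun z => (conj κ * z) ^ 2)
    (O' := ball (1 / 4 : ℂ) (1 / 8)) (continuousOn_const.mul (csq_contOn.mono hD))
    ((continuous_const.mul continuous_id).pow 2).continuousOn ?_ ?_ ?_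
  · have e : (fun w => fn a b c (YY X κ w)) =
        fun w => fn (a * conj (κ ^ 2)) b c (X (κ * csq w)) := by
      funext w
      simp only [fn, YY, mul_assoc]
    rw [e]; exact h2
  · intro w hw
    refine ⟨sheet_mem hκ (hD hw), ?_⟩
    show 0 < (conj κ * (κ * csq w)).re
    have e : conj κ * (κ * csq w) = csq w := by linear_combination csq w * cj_mul_self hκ
    rw [e]; exact csq_re_pos (DD_slit (hD hw))
  · intro w hw
    show (conj κ * (κ * csq w)) ^ 2 = w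
    have e : conj κ * (κ * csq w) = csq w := by linear_combination csq w * cj_mul_self hκ
    rw [e]; exact csq_sq (slitPlane_ne_zero (DD_slit (hD hw)))
  · intro z hz hz2
    show κ * csq ((conj κ * z) ^ 2) = z
    have h3 : 0 < (conj κ * z).re := hz.2
    rw [csq_of_sq h3 (DD_slit (hD hz2))]
    linear_combination z * hkk

lemma YY_loc {X : ℂ → ℂ × ℝ} (hloc : ∀ z ∈ ball (0 : ℂ) 1, ∃ r > 0, InjOn X (closedBall z r))
    {κ : ℂ} (hκ : ‖κ‖ = 1) {p : ℂ} (hp : ‖p - 1 / 4‖ < 1 / 100) :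
    ∃ r > 0, InjOn (YY X κ) (closedBall p r) := by
  have hκ0 : κ ≠ 0 := by intro h; rw [h, norm_zero] at hκ; exact zero_ne_one hκ
  have hpD : p ∈ DD := near_mem hp.le
  obtain ⟨r', hr', hinj⟩ := hloc _ (sheet_mem hκ hpD)
  have hc : ContinuousAt (fun w => κ * csq w) p :=
    continuousAt_const.mul (continuousAt_csq (DD_slit hpD))
  obtain ⟨r, hr, hr2⟩ := Metric.continuousAt_iff.1 hc r' hr'
  refine ⟨min (r / 2) (1 / 100), by positivity, ?_⟩
  have key : ∀ u ∈ closedBall p (min (r / 2) (1 / 100)),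
      κ * csq u ∈ closedBall (κ * csq p) r' ∧ u ≠ 0 := by
    intro u hu
    rw [mem_closedBall] at hu
    have h1 : dist u p < r := lt_of_le_of_lt (hu.trans (min_le_left _ _)) (by linarith)
    refine ⟨(hr2 h1).le, ?_⟩
    have h2 := hu.trans (min_le_right _ _)
    rw [dist_eq_norm] at h2
    have h3 : ‖u - 1 / 4‖ ≤ ‖u - p‖ + ‖p - 1 / 4‖ := by
      have e : u - 1 / 4 = (u - p) + (p - 1 / 4) := by ring
      rw [e]; exact norm_add_le _ _
    exact slitPlane_ne_zero (slit_of_near (by linarith))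
  intro u hu v hv huv
  obtain ⟨hu1, hu0⟩ := key u hu
  obtain ⟨hv1, hv0⟩ := key v hv
  have e1 := congrArg Prod.fst huv
  have e2 := congrArg Prod.snd huv
  simp only [YY] at e1 e2
  have h3 : conj (κ ^ 2) ≠ 0 := by
    intro h
    have := kk hκ
    rw [h, zero_mul] at this
    exact zero_ne_one this
  have h4 : X (κ * csq u) = X (κ * csq v) := Prod.ext (mul_left_cancel₀ h3 e1) e2
  have h5 := hinj hu1 hv1 h4
  exact csq_inj hu0 hv0 (mul_left_cancel₀ hκ0 h5)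

/-- the analytic heart: a closeness constant for which no locally injective saddle map is close
to the branched model -/
theorem core : ∃ δ > 0, ∀ X : ℂ → ℂ × ℝ, ContinuousOn X (closedBall 0 1) → Sadd X (ball 0 1) →
    (∀ z ∈ ball (0 : ℂ) 1, ∃ r > 0, InjOn X (closedBall z r)) →
    (∀ z ∈ ball (0 : ℂ) 1, ‖(X z).1 - z ^ 2‖ ≤ δ ∧ |(X z).2 - (z ^ 3 + z ^ 4).re| ≤ δ) →
    False := by
  obtain ⟨δ0, hδ0, hW0⟩ := winOK_uniform
  set δ := min δ0 (1 / 100) with hδ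
  have hδpos : 0 < δ := by positivity
  have hW : ∀ κ wc ω d : ℂ, ‖κ‖ = 1 → ‖wc - 1 / 4‖ ≤ 1 / 80 → ‖ω‖ = 1 →
      (d = I * ω ∨ d = -(I * ω)) → WinOK δ κ wc ω d :=
    fun κ wc ω d h1 h2 h3 h4 => (hW0 κ wc ω d h1 h2 h3 h4).mono (min_le_left _ _)
  refine ⟨min (δ / 2) (1 / 400), by positivity, fun X hX hS hloc hcl => ?_⟩
  refine global_false hX (fun z hz => (hcl z hz).1.trans (min_le_right _ _)) ?_ hloc
  intro m v r hm hv hr hr2 heq
  set κ := 2 * m with hκdef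
  have hκ : ‖κ‖ = 1 := by rw [hκdef, norm_mul, hm]; norm_num
  have hB : Base δ κ (YY X κ) :=
    { hδ0 := hδpos
      hδ1 := min_le_right _ _
      hW := hW
      hκ := hκ
      hYc := YY_cont hX hκ
      hYs := YY_sadd hS hκ
      hYcl := YY_close hcl hκ }
  have hkk : κ * conj κ = 1 := by rw [mul_comm]; exact cj_mul_self hκ
  have hκm : conj κ * m = 1 / 2 := by
    have : conj κ * κ = 1 := cj_mul_self hκ
    have e : κ = 2 * m := hκdef
    have h2 : conj κ * (2 * m) = 1 := by rw [← e]; exact this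
    linear_combination (1 / 2 : ℂ) * h2
  set v' := conj κ * v with hv'
  have hv'n : ‖v'‖ = 1 := by rw [hv', norm_mul, Complex.norm_conj, hκ, hv, one_mul]
  have hrv : ‖(r : ℂ) * v'‖ ≤ 1 / 200 := by
    rw [norm_mul, hv'n, mul_one, Complex.norm_real, Real.norm_eq_abs, abs_of_pos hr]; exact hr2
  have key : ∀ s : ℂ, ‖s‖ ≤ 1 / 200 → ‖(1 / 2 + s) ^ 2 - 1 / 4‖ < 1 / 100 ∧
      csq ((1 / 2 + s) ^ 2) = 1 / 2 + s := by
    intro s hs
    have h1 : ‖(1 / 2 + s) ^ 2 - 1 / 4‖ < 1 / 100 := by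
      have e : (1 / 2 + s) ^ 2 - 1 / 4 = s + s ^ 2 := by ring
      rw [e]
      refine (norm_add_le _ _).trans_lt ?_
      rw [norm_pow]
      have := norm_nonneg s
      nlinarith
    refine ⟨h1, csq_of_sq ?_ (slit_of_near (by linarith))⟩
    have h2 := (abs_le.1 ((Complex.abs_re_le_norm s).trans hs)).1
    rw [Complex.add_re]
    have : (1 / 2 : ℂ).re = 1 / 2 := by norm_num
    rw [this]; linarith
  obtain ⟨hp1, hp2⟩ := key (r * v') hrv
  obtain ⟨hq1, hq2⟩ := key (-(r * v')) (by rw [norm_neg]; exact hrv)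
  have ep : κ * (1 / 2 + r * v') = m + r * v := by
    rw [hv', ← hκm]; linear_combination (m + r * v) * hkk
  have eq : κ * (1 / 2 + -(r * v')) = m - r * v := by
    rw [hv', ← hκm]; linear_combination (m - r * v) * hkk
  have h5 : (YY X κ ((1 / 2 + r * v') ^ 2)).1 = (YY X κ ((1 / 2 + -(r * v')) ^ 2)).1 := by
    simp only [YY]
    rw [hp2, hq2, ep, eq, heq]
  have h6 := hB.inj (fun p hp => YY_loc hloc hκ hp) hp1 hq1 h5
  have h7 : (1 / 2 + r * v' : ℂ) = 1 / 2 + -(r * v') := by rw [← hp2, ← hq2, h6]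
  have h8 : (r : ℂ) * v' = 0 := by
    have : (2 : ℂ) * (r * v') = 0 := by linear_combination h7
    simpa using this
  have h9 : ‖(r : ℂ) * v'‖ = r := by
    rw [norm_mul, hv'n, mul_one, Complex.norm_real, Real.norm_eq_abs, abs_of_pos hr]
  rw [h8, norm_zero] at h9
  linarith

end Pool.Agent.Helper253.Sad
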