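import Pool.Agent.Helper253.Sad.Family

namespace Pool.Agent.Helper253.Sad

open Metric Set Topology Complex
open scoped ComplexConjugate

/-- positive points are joined to the boundary circle -/
lemma reach {c : ℂ} {r : ℝ} {F : ℂ → ℝ} (hF : ContinuousOn F (closedBall c r))
    (hN : NoMax F (ball c r)) {q : ℂ} (hq : q ∈ closedBall c r) (hFq : 0 < F q) :
    ∃ y ∈ sphere c r, JoinedIn (closedBall c r ∩ {z | 0 < F z}) q y := by
  by_contra hcon
  push Not at hcon
  set D := closedBall c r with hD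
  have hDc : IsCompact D := isCompact_closedBall _ _
  have hconv : Convex ℝ D := convex_closedBall _ _
  set ε := F q / 2 with hε
  set S := D ∩ {z | 0 < F z - ε} with hS
  have hSsub : S ⊆ D ∩ {z | 0 < F z} := by
    rintro z ⟨hz, hz2⟩
    refine ⟨hz, ?_⟩
    have : 0 < F z - ε := hz2
    show 0 < F z
    linarith
  have hSo : RelOpen D S := relOpen_pos (hF.sub continuousOn_const)
  set U := pathComponentIn S q with hU
  have hqS : q ∈ S := ⟨hq, show 0 < F q - ε by linarith⟩
  have hqU : q ∈ U := mem_pathComponentIn_self hqS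
  have hUS : U ⊆ S := fun z hz => (show JoinedIn S q z from hz).mem.2
  have hclD : closure U ⊆ D := closure_minimal (hUS.trans inter_subset_left) hDc.isClosed
  have hclF : ∀ z ∈ closure U, ε ≤ F z := by
    have hcl : IsClosed (D ∩ F ⁻¹' (Ici ε)) := hF.preimage_isClosed_of_isClosed hDc.isClosed
      isClosed_Ici
    have hsub : U ⊆ D ∩ F ⁻¹' (Ici ε) := by
      intro z hz
      have h1 : 0 < F z - ε := (hUS hz).2
      exact ⟨(hUS hz).1, show ε ≤ F z by linarith⟩
    exact fun z hz => (closure_minimal hsub hcl hz).2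
  have hclball : closure U ⊆ ball c r := by
    intro y hy
    by_contra hyb
    have hyD := hclD hy
    have hys : y ∈ sphere c r := by
      rw [hD, mem_closedBall] at hyD
      rw [mem_ball, not_lt] at hyb
      rw [mem_sphere]; exact le_antisymm hyD hyb
    have hyF : 0 < F y := by have := hclF y hy; linarith
    obtain ⟨δ, hδ, hsub⟩ := relOpen_pos hF y ⟨hyD, hyF⟩
    obtain ⟨u, hu, hyu⟩ := Metric.mem_closure_iff.1 hy δ hδ
    rw [dist_comm] at hyu
    have h1 : JoinedIn (D ∩ {z | 0 < F z}) q u := (show JoinedIn S q u from hu).mono hSsub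
    exact hcon y hys (h1.trans (joined_ball hconv hδ hsub hyD (hUS hu).1 hyu).symm)
  have hclc : IsCompact (closure U) := hDc.of_isClosed_subset isClosed_closure hclD
  obtain ⟨z, hz, hzmax⟩ := hclc.exists_isMaxOn ⟨q, subset_closure hqU⟩ (hF.mono hclD)
  have hmq : F q ≤ F z := hzmax (subset_closure hqU)
  have hcU : ∀ w ∈ closure U, ε < F w → w ∈ U := by
    intro w hw hw2
    exact hSo.closure_pathComp hconv inter_subset_left hw ⟨hclD hw, show 0 < F w - ε by linarith⟩
  refine hN (closure U ∩ F ⁻¹' {F z}) (ball c r ∩ U) (F z) ?_ ⟨z, hz, rfl⟩ ?_ ?_ inter_subset_left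
    (fun w hw => hw.2) ?_
  · exact hclc.of_isClosed_subset ((hF.mono hclD).preimage_isClosed_of_isClosed isClosed_closure
      isClosed_singleton) inter_subset_left
  · rw [Metric.isOpen_iff]
    rintro y ⟨hy1, hy2⟩
    obtain ⟨ε1, hε1, hs1⟩ := Metric.isOpen_iff.1 (isOpen_ball (x := c) (ε := r)) y hy1
    obtain ⟨ε2, hε2, hs2⟩ := (hSo.pathComp hconv inter_subset_left q) y hy2
    refine ⟨min ε1 ε2, lt_min hε1 hε2, fun w hw => ?_⟩
    have hw1 : w ∈ ball c r := hs1 (ball_subset_ball (min_le_left _ _) hw)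
    exact ⟨hw1, hs2 ⟨ball_subset_closedBall hw1, ball_subset_ball (min_le_right _ _) hw⟩⟩
  · rintro w ⟨hw1, hw2⟩
    have hw2' : F w = F z := hw2
    exact ⟨hclball hw1, hcU w hw1 (by rw [hw2']; linarith)⟩
  · rintro w ⟨hw1, hw2⟩ hwK
    have h1 : F w ≤ F z := hzmax (subset_closure hw2)
    exact lt_of_le_of_ne h1 fun h => hwK ⟨subset_closure hw2, h⟩

lemma fn_contOn {Y : ℂ → ℂ × ℝ} {S : Set ℂ} (hY : ContinuousOn Y S) (a : ℂ) (b c : ℝ) :
    ContinuousOn (fun w => fn a b c (Y w)) S := by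
  have h1 : ContinuousOn (fun x => (Y x).1) S := continuous_fst.comp_continuousOn hY
  have h2 : ContinuousOn (fun x => (Y x).2) S := continuous_snd.comp_continuousOn hY
  exact ((Complex.continuous_re.comp_continuousOn (continuousOn_const.mul h1)).add
      (continuousOn_const.mul h2)).add continuousOn_const

/-- all positive points near the centre are joined to the far end of the disc -/
theorem star {δ : ℝ} (hδ0 : 0 < δ) (hδ1 : δ ≤ 1 / 100)
    (hW : ∀ κ wc ω d : ℂ, ‖κ‖ = 1 → ‖wc - 1 / 4‖ ≤ 1 / 80 → ‖ω‖ = 1 →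
      (d = I * ω ∨ d = -(I * ω)) → WinOK δ κ wc ω d)
    {κ : ℂ} (hκ : ‖κ‖ = 1) {Y : ℂ → ℂ × ℝ} (hYc : ContinuousOn Y DD)
    (hYs : Sadd Y (ball (1 / 4) (1 / 8))) (hYcl : Close κ δ Y) {a : ℂ} {b c : ℝ} {ω wm q : ℂ}
    (hω : ‖ω‖ = 1) (hwm : ‖wm - 1 / 4‖ ≤ 1 / 80) (hq : ‖q - 1 / 4‖ ≤ 1 / 80)
    (hF : ∀ w ∈ DD, |fn a b c (Y w) - (conj ω * (w - wm)).re| ≤ δ)
    (hFq : 0 < fn a b c (Y q)) :
    JoinedIn (DD ∩ {w | 0 < fn a b c (Y w)}) q (1 / 4 + ω / 8) := by
  have hqD : q ∈ DD := by
    rw [DD, mem_closedBall, dist_eq_norm]; linarith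
  obtain ⟨y, hy, hj⟩ := reach (c := 1 / 4) (r := 1 / 8) (F := fun w => fn a b c (Y w))
    (fn_contOn hYc a b c) (hYs a b c) hqD hFq
  change JoinedIn (DD ∩ {w | 0 < fn a b c (Y w)}) q y at hj
  have hωω : ω * conj ω = 1 := by rw [mul_comm]; exact cj_mul_self hω
  -- the main region
  have hmain : ∀ z ∈ DD, δ < (conj ω * (z - wm)).re →
      JoinedIn (DD ∩ {w | 0 < fn a b c (Y w)}) z (1 / 4 + ω / 8) := by
    intro z hz hz2
    have hconv : Convex ℝ (DD ∩ {w | δ < (conj ω * (w - wm)).re}) := by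
      refine (convex_closedBall _ _).inter ?_
      have e : {w : ℂ | δ < (conj ω * (w - wm)).re} =
          {w : ℂ | δ + (conj ω * wm).re < (conj ω * w).re} := by
        ext w
        simp only [mem_ofPred_eq, mul_sub, Complex.sub_re]
        constructor <;> intro h <;> linarith
      rw [e]
      refine convex_halfSpace_gt ?_ _
      constructor
      · intro x y; rw [mul_add, Complex.add_re]
      · intro r x
        rw [Complex.real_smul, smul_eq_mul, mul_left_comm, Complex.re_ofReal_mul]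
    refine joined_segment hconv ?_ ⟨hz, hz2⟩ ⟨?_, ?_⟩
    · rintro w ⟨hw, hw2⟩
      refine ⟨hw, ?_⟩
      have h1 := (abs_le.1 (hF w hw)).1
      have h2 : δ < (conj ω * (w - wm)).re := hw2
      show 0 < fn a b c (Y w)
      linarith
    · rw [DD, mem_closedBall, dist_eq_norm]
      simp [hω]
    · show δ < (conj ω * (1 / 4 + ω / 8 - wm)).re
      have e : conj ω * (1 / 4 + ω / 8 - wm) = ((1 / 8 : ℝ) : ℂ) - conj ω * (wm - 1 / 4) := by
        push_cast
        linear_combination (1 / 8 : ℂ) * hωω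
      rw [e, Complex.sub_re, Complex.ofReal_re]
      have h1 : (conj ω * (wm - 1 / 4)).re ≤ 1 / 80 := by
        refine (Complex.re_le_norm _).trans ?_
        rw [norm_mul, Complex.norm_conj, hω, one_mul]; exact hwm
      linarith
  by_cases hmeet : ∃ t, δ < (conj ω * (hj.somePath t - wm)).re
  · obtain ⟨t, ht⟩ := hmeet
    have h1 := hmain _ (hj.somePath_mem t).1 ht
    have h2 : JoinedIn (DD ∩ {w | 0 < fn a b c (Y w)}) q (hj.somePath t) := by
      have h3 : IsPathConnected (pathComponentIn (DD ∩ {w | 0 < fn a b c (Y w)}) q) :=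
        isPathConnected_pathComponentIn hj.mem.1
      refine JoinedIn.ofLine (f := fun s => hj.somePath.extend (s * t)) (by fun_prop)
        (by simp) (by simp) ?_
      rintro _ ⟨s, -, rfl⟩
      have h4 : hj.somePath.extend (s * t) ∈ range hj.somePath := by
        rw [← Path.extend_range]; exact mem_range_self _
      obtain ⟨s', hs'⟩ := h4
      simp only
      rw [← hs']; exact hj.somePath_mem s'
    exact h2.trans h1
  · push Not at hmeet
    have hj2 : JoinedIn ((DD ∩ {w | 0 < fn a b c (Y w)}) ∩ {w | (conj ω * (w - wm)).re ≤ δ}) q y :=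
      ⟨hj.somePath, fun t => ⟨hj.somePath_mem t, hmeet t⟩⟩
    have hyD : y ∈ DD := sphere_subset_closedBall hy
    have hya := (hj2.mem.2).2
    have hya' : (conj ω * (y - wm)).re ≤ δ := hya
    have hyF : 0 < fn a b c (Y y) := hj2.mem.2.1.2
    have hya2 : -δ < (conj ω * (y - wm)).re := by
      have := (abs_le.1 (hF y hyD)).2
      linarith
    -- lengthwise coordinate of the end
    have hyn : 9 / 80 ≤ ‖y - wm‖ := by
      have h1 : ‖y - 1 / 4‖ = 1 / 8 := by rwa [mem_sphere, dist_eq_norm] at hy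
      have h2 : ‖y - 1 / 4‖ ≤ ‖y - wm‖ + ‖wm - 1 / 4‖ := by
        have e : y - 1 / 4 = (y - wm) + (wm - 1 / 4) := by ring
        rw [e]; exact norm_add_le _ _
      linarith
    have hyn2 : (conj ω * (y - wm)).re ^ 2 + (conj ω * (y - wm)).im ^ 2 = ‖y - wm‖ ^ 2 := by
      have h1 : ‖conj ω * (y - wm)‖ = ‖y - wm‖ := by
        rw [norm_mul, Complex.norm_conj, hω, one_mul]
      rw [← h1, Complex.sq_norm, Complex.normSq_apply]; ring
    have hyt : 7 / 80 ≤ |(conj ω * (y - wm)).im| := by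
      rw [← abs_of_nonneg (show (0 : ℝ) ≤ 7 / 80 by norm_num), ← sq_le_sq]
      nlinarith
    have hqt : |(conj ω * (q - wm)).im| ≤ 3 / 80 := by
      refine (Complex.abs_im_le_norm _).trans ?_
      rw [norm_mul, Complex.norm_conj, hω, one_mul]
      have e : q - wm = (q - 1 / 4) - (wm - 1 / 4) := by ring
      rw [e]
      have := norm_sub_le (q - 1 / 4) (wm - 1 / 4)
      linarith
    have him1 : ∀ w : ℂ, (conj (I * ω) * (w - wm)).re = (conj ω * (w - wm)).im := by
      intro w
      have : conj (I * ω) * (w - wm) = -I * (conj ω * (w - wm)) := by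
        rw [map_mul, conj_I]; ring
      rw [this]; simp
    have him2 : ∀ w : ℂ, (conj (-(I * ω)) * (w - wm)).re = -(conj ω * (w - wm)).im := by
      intro w
      have : conj (-(I * ω)) * (w - wm) = I * (conj ω * (w - wm)) := by
        rw [map_neg, map_mul, conj_I]; ring
      rw [this]; simp
    rw [abs_le] at hqt
    obtain ⟨d, hd, h1, h2⟩ : ∃ d, (d = I * ω ∨ d = -(I * ω)) ∧
        (conj d * (q - wm)).re ≤ 3 / 80 ∧ 7 / 80 ≤ (conj d * (y - wm)).re := by
      rcases le_abs.1 hyt with h | h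
      · exact ⟨I * ω, Or.inl rfl, by rw [him1]; exact hqt.2, by rw [him1]; exact h⟩
      · exact ⟨-(I * ω), Or.inr rfl, by rw [him2]; linarith, by rw [him2]; exact h⟩
    obtain ⟨z, hz, hz2, hz3⟩ := hW κ wm ω d hκ hwm hω hd Y hYc hYs hYcl a b c hF q y hj2 h1 h2
    exact hz3.trans (hmain z hz hz2)

end Pool.Agent.Helper253.Sad
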