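import Pool.Agent.Helper253.Sad.Model

namespace Pool.Agent.Helper253.Sad

open Metric Set Topology Complex

open scoped ComplexConjugate

/-- the base disc -/
def DD : Set ℂ := closedBall (1 / 4) (1 / 8)

/-- affine functions on space -/
def fn (a : ℂ) (b c : ℝ) (x : ℂ × ℝ) : ℝ := (a * x.1).re + b * x.2 + c

/-- saddle property on an open set -/
def Sadd (Y : ℂ → ℂ × ℝ) (O : Set ℂ) : Prop := ∀ a b c, NoMax (fun z => fn a b c (Y z)) O

def Close (κ : ℂ) (δ : ℝ) (Y : ℂ → ℂ × ℝ) : Prop :=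
  ∀ w ∈ DD, ‖(Y w).1 - w‖ ≤ δ ∧ |(Y w).2 - hh κ w| ≤ δ

def WinOK (δ : ℝ) (κ wc ω d : ℂ) : Prop :=
  ∀ Y : ℂ → ℂ × ℝ, ContinuousOn Y DD → Sadd Y (ball (1 / 4) (1 / 8)) → Close κ δ Y →
    ∀ a b c, (∀ w ∈ DD, |fn a b c (Y w) - (conj ω * (w - wc)).re| ≤ δ) →
    ∀ x0 x1, JoinedIn ((DD ∩ {w | 0 < fn a b c (Y w)}) ∩ {w | (conj ω * (w - wc)).re ≤ δ}) x0 x1 →
    (conj d * (x0 - wc)).re ≤ 3 / 80 → 7 / 80 ≤ (conj d * (x1 - wc)).re →
    ∃ y ∈ DD, δ < (conj ω * (y - wc)).re ∧ JoinedIn (DD ∩ {w | 0 < fn a b c (Y w)}) x0 y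

def WM (wc ω d x : ℂ) : ℂ := wc + ω * (x.re : ℂ) + d * (x.im : ℂ)

noncomputable def WI (wc ω d w : ℂ) : ℂ := ⟨(conj ω * (w - wc)).re, (conj d * (w - wc)).re⟩

lemma WI_eq (wc ω d w : ℂ) : WI wc ω d w =
    (((conj ω * (w - wc)).re : ℝ) : ℂ) + (((conj d * (w - wc)).re : ℝ) : ℂ) * I := by
  apply Complex.ext <;> simp [WI]

lemma continuous_WI (wc ω d : ℂ) : Continuous (WI wc ω d) := by
  have : WI wc ω d = fun w => (((conj ω * (w - wc)).re : ℝ) : ℂ) +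
      (((conj d * (w - wc)).re : ℝ) : ℂ) * I := by
    funext w; exact WI_eq wc ω d w
  rw [this]; fun_prop

lemma continuous_WM (wc ω d : ℂ) : Continuous (WM wc ω d) := by
  unfold WM; fun_prop

lemma cj_mul_self {ω : ℂ} (hω : ‖ω‖ = 1) : conj ω * ω = 1 := by
  rw [mul_comm, Complex.mul_conj, Complex.normSq_eq_norm_sq, hω]; norm_num

lemma WI_WM {wc ω d : ℂ} (hω : ‖ω‖ = 1) (hd : d = I * ω ∨ d = -(I * ω)) (x : ℂ) :
    WI wc ω d (WM wc ω d x) = x := by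
  have h1 := cj_mul_self hω
  have e1 : conj ω * (WM wc ω d x - wc) = (x.re : ℂ) + conj ω * d * (x.im : ℂ) := by
    unfold WM; linear_combination (x.re : ℂ) * h1
  have hd1 : conj d * d = 1 := by
    apply cj_mul_self
    rcases hd with h | h <;> rw [h] <;> simp [hω]
  have e2 : conj d * (WM wc ω d x - wc) = (x.im : ℂ) + conj d * ω * (x.re : ℂ) := by
    unfold WM; linear_combination (x.im : ℂ) * hd1
  apply Complex.ext
  · show (conj ω * (WM wc ω d x - wc)).re = x.re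
    rw [e1]
    rcases hd with h | h
    · have : conj ω * d = I := by rw [h]; linear_combination I * h1
      rw [this]; simp
    · have : conj ω * d = -I := by rw [h]; linear_combination -I * h1
      rw [this]; simp
  · show (conj d * (WM wc ω d x - wc)).re = x.im
    rw [e2]
    rcases hd with h | h
    · have : conj d * ω = -I := by rw [h, map_mul, conj_I]; linear_combination -I * h1
      rw [this]; simp
    · have : conj d * ω = I := by rw [h, map_neg, map_mul, conj_I]; linear_combination I * h1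
      rw [this]; simp

lemma WM_WI {wc ω d : ℂ} (hω : ‖ω‖ = 1) (hd : d = I * ω ∨ d = -(I * ω)) (w : ℂ) :
    WM wc ω d (WI wc ω d w) = w := by
  have h1 := cj_mul_self hω
  set v := conj ω * (w - wc) with hv
  have e0 : w - wc = ω * v := by rw [hv]; linear_combination -(w - wc) * h1
  have e1 : v = (v.re : ℂ) + (v.im : ℂ) * I := (re_add_im v).symm
  have e2 : d * (((conj d * (w - wc)).re : ℝ) : ℂ) = ω * ((v.im : ℂ) * I) := by
    rcases hd with h | h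
    · have : conj d * (w - wc) = -I * v := by rw [h, map_mul, conj_I, hv]; ring
      rw [this, h]
      have h3 : (-I * v).re = v.im := by simp
      rw [h3]; ring
    · have : conj d * (w - wc) = I * v := by rw [h, map_neg, map_mul, conj_I, hv]; ring
      rw [this, h]
      have h3 : (I * v).re = -v.im := by simp
      rw [h3]; push_cast; ring
  have e3 : WM wc ω d (WI wc ω d w) = wc + ω * (v.re : ℂ) +
      d * (((conj d * (w - wc)).re : ℝ) : ℂ) := rfl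
  rw [e3, e2]
  have e4 : ω * v = ω * (v.re : ℂ) + ω * ((v.im : ℂ) * I) := by rw [← mul_add, ← e1]
  linear_combination -e0 - e4

lemma NoMax.comp {g : ℂ → ℝ} {O O' : Set ℂ} (h : NoMax g O) (hO : IsOpen O) {Φ Ψ : ℂ → ℂ}
    (hΦ : ContinuousOn Φ O') (hΨ : ContinuousOn Ψ O) (hm : MapsTo Φ O' O)
    (h1 : ∀ x ∈ O', Ψ (Φ x) = x) (h2 : ∀ w ∈ O, Ψ w ∈ O' → Φ (Ψ w) = w) :
    NoMax (fun x => g (Φ x)) O' := by
  intro K V m hK hKne hV hKV hVO hm1 hm2
  refine h (Φ '' K) (O ∩ Ψ ⁻¹' V) m (hK.image_of_continuousOn (hΦ.mono (hKV.trans hVO)))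
    (hKne.image _) (hΨ.isOpen_inter_preimage hO hV) ?_ inter_subset_left ?_ ?_
  · rintro _ ⟨x, hx, rfl⟩
    have hxO := hVO (hKV hx)
    refine ⟨hm hxO, ?_⟩
    show Ψ (Φ x) ∈ V
    rw [h1 x hxO]; exact hKV hx
  · rintro _ ⟨x, hx, rfl⟩
    exact hm1 x hx
  · intro w hw hwK
    have hV' : Ψ w ∈ V := hw.2
    have e := h2 w hw.1 (hVO hV')
    have h3 : g (Φ (Ψ w)) < m := hm2 (Ψ w) hV' (fun hcon => hwK ⟨Ψ w, hcon, e⟩)
    rw [e] at h3
    exact h3

/-- extraction of a crossing interval of a path -/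
lemma extract {S : Set ℂ} {u : ℂ → ℝ} (hu : Continuous u) {x0 x1 : ℂ} (hj : JoinedIn S x0 x1)
    {τ1 τ2 : ℝ} (h0 : u x0 ≤ τ1) (h12 : τ1 < τ2) (h1 : τ2 ≤ u x1) :
    ∃ y1 y2, JoinedIn S x0 y1 ∧ u y1 = τ1 ∧ u y2 = τ2 ∧
      JoinedIn (S ∩ {z | τ1 ≤ u z ∧ u z ≤ τ2}) y1 y2 := by
  let γ : ℝ → ℂ := hj.somePath.extend
  have hγ : Continuous γ := hj.somePath.continuous_extend
  have hγ0 : γ 0 = x0 := by simp [γ]
  have hγ1 : γ 1 = x1 := by simp [γ]
  have hγS : ∀ t, γ t ∈ S := by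
    intro t
    have : γ t ∈ range hj.somePath := by
      rw [← Path.extend_range]; exact mem_range_self t
    obtain ⟨s, hs⟩ := this
    rw [← hs]; exact hj.somePath_mem s
  let f : ℝ → ℝ := fun t => u (γ t)
  have hf : Continuous f := hu.comp hγ
  have hf0 : f 0 ≤ τ1 := by simp only [f, hγ0]; exact h0
  have hf1 : τ2 ≤ f 1 := by simp only [f, hγ1]; exact h1
  -- the first time at the level `τ2`
  have hne2 : (Icc (0 : ℝ) 1 ∩ f ⁻¹' {τ2}).Nonempty := by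
    have := intermediate_value_Icc zero_le_one hf.continuousOn
      (show τ2 ∈ Icc (f 0) (f 1) from ⟨by linarith, hf1⟩)
    obtain ⟨t, ht, ht2⟩ := this
    exact ⟨t, ht, ht2⟩
  have hc2 : IsCompact (Icc (0 : ℝ) 1 ∩ f ⁻¹' {τ2}) :=
    isCompact_Icc.inter_right (isClosed_singleton.preimage hf)
  obtain ⟨s2, hs2, hs2min⟩ := hc2.exists_isLeast hne2
  have hlt2 : ∀ s ∈ Icc (0 : ℝ) s2, f s ≤ τ2 := by
    intro s hs
    by_contra hcon
    push Not at hcon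
    obtain ⟨t, ht, ht2⟩ := intermediate_value_Icc hs.1 hf.continuousOn
      (show τ2 ∈ Icc (f 0) (f s) from ⟨by linarith, hcon.le⟩)
    have h3 := hs2min ⟨⟨ht.1, ht.2.trans (hs.2.trans hs2.1.2)⟩, ht2⟩
    have h4 : t = s2 := le_antisymm (ht.2.trans hs.2) h3
    have h5 : s = s2 := le_antisymm hs.2 (h4 ▸ ht.2)
    have h6 : f s2 = τ2 := hs2.2
    rw [h5, h6] at hcon
    exact lt_irrefl _ hcon
  have hne1 : (Icc (0 : ℝ) s2 ∩ f ⁻¹' {τ1}).Nonempty := by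
    have h6 : f s2 = τ2 := hs2.2
    obtain ⟨t, ht, ht2⟩ := intermediate_value_Icc hs2.1.1 hf.continuousOn
      (show τ1 ∈ Icc (f 0) (f s2) from ⟨hf0, by linarith⟩)
    exact ⟨t, ht, ht2⟩
  have hc1 : IsCompact (Icc (0 : ℝ) s2 ∩ f ⁻¹' {τ1}) :=
    isCompact_Icc.inter_right (isClosed_singleton.preimage hf)
  obtain ⟨s1, hs1, hs1max⟩ := hc1.exists_isGreatest hne1
  have hgt1 : ∀ s ∈ Icc s1 s2, τ1 ≤ f s := by
    intro s hs
    by_contra hcon
    push Not at hcon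
    have h6 : f s2 = τ2 := hs2.2
    obtain ⟨t, ht, ht2⟩ := intermediate_value_Icc hs.2 hf.continuousOn
      (show τ1 ∈ Icc (f s) (f s2) from ⟨hcon.le, by linarith⟩)
    have h3 := hs1max ⟨⟨hs1.1.1.trans (hs.1.trans ht.1), ht.2⟩, ht2⟩
    have h4 : t = s1 := le_antisymm h3 (hs.1.trans ht.1)
    have h5 : s = s1 := le_antisymm (h4 ▸ ht.1) hs.1
    have h7 : f s1 = τ1 := hs1.2
    rw [h5, h7] at hcon
    exact lt_irrefl _ hcon
  refine ⟨γ s1, γ s2, ?_, hs1.2, hs2.2, ?_⟩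
  · refine JoinedIn.ofLine (f := fun t => γ (t * s1)) (by fun_prop) (by simp [hγ0]) (by simp) ?_
    rintro _ ⟨t, -, rfl⟩
    exact hγS _
  · refine JoinedIn.ofLine (f := fun t => γ (s1 + t * (s2 - s1))) (by fun_prop) (by simp)
      (by simp) ?_
    rintro _ ⟨t, ht, rfl⟩
    have h3 : s1 + t * (s2 - s1) ∈ Icc s1 s2 := by
      have h4 := hs1.1.2
      constructor <;> nlinarith [ht.1, ht.2]
    exact ⟨hγS _, hgt1 _ h3, hlt2 _ ⟨hs1.1.1.trans h3.1, h3.2⟩⟩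

end Pool.Agent.Helper253.Sad
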